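import Pool.Agent.Run7.h35.Defs

set_option autoImplicit false

namespace Run7.h35

open Finset Module

/-- the cut of a finite vector at `c` -/
def cut {n : ℕ} (c : ℕ) : (Fin n → ℝ) →ₗ[ℝ] (Fin n → ℝ) where
  toFun t := fun i => if (i : ℕ) < c then t i else 0
  map_add' s t := by
    funext i
    by_cases h : (i : ℕ) < c <;> simp [h]
  map_smul' a t := by
    funext i
    by_cases h : (i : ℕ) < c <;> simp [h]

theorem cut_apply {n : ℕ} (c : ℕ) (t : Fin n → ℝ) (i : Fin n) :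
    cut c t i = if (i : ℕ) < c then t i else 0 := rfl

theorem exists_basis_of_cut {V : Type*} [NormedAddCommGroup V] [NormedSpace ℝ V] {n : ℕ}
    (Φ : (Fin n → ℝ) →ₗ[ℝ] V) (hΦ : Function.Injective Φ) (C : ℝ)
    (hC : ∀ (c : ℕ) (t : Fin n → ℝ), ‖Φ (cut c t)‖ ≤ C * ‖Φ t‖) :
    BasisLe (LinearMap.range Φ) C := by
  classical
  set e : (Fin n → ℝ) ≃ₗ[ℝ] LinearMap.range Φ := LinearEquiv.ofInjective Φ hΦ with he
  have hfr : n = finrank ℝ (LinearMap.range Φ) := by
    rw [← e.finrank_eq]; simp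
  set b₀ : Basis (Fin n) ℝ (LinearMap.range Φ) := (Pi.basisFun ℝ (Fin n)).map e with hb₀
  refine ⟨b₀.reindex (finCongr hfr), ?_⟩
  intro k x
  have key : ∑ i ∈ univ.filter (fun i : Fin (finrank ℝ (LinearMap.range Φ)) => (i : ℕ) < k),
      (b₀.reindex (finCongr hfr)).repr x i • (b₀.reindex (finCongr hfr)) i =
      e (cut k (e.symm x)) := by
    have h1 : ∑ i ∈ univ.filter (fun i : Fin (finrank ℝ (LinearMap.range Φ)) => (i : ℕ) < k),
        (b₀.reindex (finCongr hfr)).repr x i • (b₀.reindex (finCongr hfr)) i =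
        ∑ i ∈ univ.filter (fun i : Fin n => (i : ℕ) < k), b₀.repr x i • b₀ i := by
      refine Finset.sum_bij' (fun i _ => (finCongr hfr).symm i) (fun i _ => finCongr hfr i)
        ?_ ?_ ?_ ?_ ?_
      · intro i hi
        simpa using hi
      · intro i hi
        simpa using hi
      · intro i _; simp
      · intro i _; simp
      · intro i _; simp [Basis.reindex_apply, Basis.repr_reindex_apply]
    rw [h1]
    have h2 : cut k (e.symm x) = ∑ i ∈ univ.filter (fun i : Fin n => (i : ℕ) < k),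
        (e.symm x) i • (Pi.single i (1 : ℝ) : Fin n → ℝ) := by
      funext i
      rw [cut_apply, Finset.sum_apply]
      simp only [Pi.smul_apply, Pi.single_apply, smul_eq_mul, mul_ite, mul_one, mul_zero]
      rw [Finset.sum_ite_eq]
      simp
    rw [h2, map_sum]
    refine Finset.sum_congr rfl ?_
    intro i _
    rw [map_smul]
    simp [hb₀]
  rw [key]
  have h3 : ‖e (cut k (e.symm x))‖ = ‖Φ (cut k (e.symm x))‖ := rfl
  have h4 : ‖x‖ = ‖Φ (e.symm x)‖ := by
    have : (x : V) = Φ (e.symm x) := by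
      have := e.apply_symm_apply x
      exact (congrArg Subtype.val this).symm
    rw [← this]; rfl
  rw [h3, h4]
  exact hC k _

/-- every map into a Euclidean space gives an isomorphism onto the Euclidean space of the
right dimension -/
theorem exists_equiv_of_map {G H : Type*} [NormedAddCommGroup G] [NormedSpace ℝ G]
    [FiniteDimensional ℝ G] [NormedAddCommGroup H] [InnerProductSpace ℝ H]
    (f : G →ₗ[ℝ] H) (p q : ℝ) (hp : 0 < p)
    (hq : 0 ≤ q)
    (hlow : ∀ x, p * ‖x‖ ≤ ‖f x‖) (hup : ∀ x, ‖f x‖ ≤ q * ‖x‖) :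
    ∃ T : G ≃L[ℝ] EuclideanSpace ℝ (Fin (finrank ℝ G)),
      ‖(T : G →L[ℝ] EuclideanSpace ℝ (Fin (finrank ℝ G)))‖ ≤ q ∧
      ‖(T.symm : EuclideanSpace ℝ (Fin (finrank ℝ G)) →L[ℝ] G)‖ ≤ 1 / p ∧
      ∀ x, ‖T x‖ = ‖f x‖ := by
  have hinj : Function.Injective f := by
    rw [← LinearMap.ker_eq_bot, LinearMap.ker_eq_bot']
    intro x hx
    have := hlow x
    rw [hx, norm_zero] at this
    have h0 : ‖x‖ ≤ 0 := by
      by_contra hc
      push Not at hc
      nlinarith [mul_pos hp hc]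
    exact norm_le_zero_iff.mp h0
  set e : G ≃ₗ[ℝ] LinearMap.range f := LinearEquiv.ofInjective f hinj with he
  have : FiniteDimensional ℝ (LinearMap.range f) := e.finiteDimensional
  have hfr : finrank ℝ (LinearMap.range f) = finrank ℝ G := e.finrank_eq.symm
  set o : OrthonormalBasis (Fin (finrank ℝ G)) ℝ (LinearMap.range f) :=
    (stdOrthonormalBasis ℝ (LinearMap.range f)).reindex (finCongr hfr) with ho
  set T : G ≃L[ℝ] EuclideanSpace ℝ (Fin (finrank ℝ G)) :=
    (e.trans o.repr.toLinearEquiv).toContinuousLinearEquiv with hT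
  have hTx : ∀ x, ‖T x‖ = ‖f x‖ := by
    intro x
    have : T x = o.repr (e x) := rfl
    rw [this, LinearIsometryEquiv.norm_map]
    rfl
  refine ⟨T, ?_, ?_, hTx⟩
  · refine ContinuousLinearMap.opNorm_le_bound _ hq ?_
    intro x
    have : ‖T x‖ ≤ q * ‖x‖ := by rw [hTx]; exact hup x
    exact this
  · refine ContinuousLinearMap.opNorm_le_bound _ (by positivity) ?_
    intro y
    have h1 := hlow (T.symm y)
    rw [← hTx, ContinuousLinearEquiv.apply_symm_apply] at h1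
    change ‖T.symm y‖ ≤ 1 / p * ‖y‖
    rw [one_div, ← div_eq_inv_mul, le_div_iff₀ hp]
    linarith

theorem dist_lower {G F : Type*} [NormedAddCommGroup G] [NormedSpace ℝ G]
    [FiniteDimensional ℝ G] [NormedAddCommGroup F] [NormedSpace ℝ F]
    (ι : G →ₗ[ℝ] F) (a₁ a₂ : ℝ) (h₁ : 0 < a₁) (h₂ : 0 ≤ a₂)
    (hlow : ∀ x, a₁ * ‖x‖ ≤ ‖ι x‖) (hup : ∀ x, ‖ι x‖ ≤ a₂ * ‖x‖)
    (D : ℝ) (hD : DistGe G D) {H : Type*} [NormedAddCommGroup H] [InnerProductSpace ℝ H]
    (T : F ≃L[ℝ] H) :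
    D * a₁ ≤ a₂ * (‖(T : F →L[ℝ] H)‖ * ‖(T.symm : H →L[ℝ] F)‖) := by
  rcases subsingleton_or_nontrivial F with hF | hF
  · have hG : ∀ x : G, x = 0 := by
      intro x
      have := hlow x
      rw [Subsingleton.elim (ι x) 0, norm_zero] at this
      have h0 : ‖x‖ ≤ 0 := by
        by_contra hc
        push Not at hc
        nlinarith [mul_pos h₁ hc]
      exact norm_le_zero_iff.mp h0
    have : Subsingleton G := ⟨fun a b => by rw [hG a, hG b]⟩
    obtain ⟨T₀, h1, h2, h3⟩ := exists_equiv_of_map (G := G) (H := EuclideanSpace ℝ (Fin 1))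
      (0 : G →ₗ[ℝ] EuclideanSpace ℝ (Fin 1)) 1 0 one_pos le_rfl
      (by intro x; rw [hG x]; simp) (by intro x; simp)
    have h4 := hD T₀
    have h5 : ‖(T₀ : G →L[ℝ] EuclideanSpace ℝ (Fin (finrank ℝ G)))‖ = 0 :=
      le_antisymm h1 (norm_nonneg _)
    rw [h5, zero_mul] at h4
    have : 0 ≤ a₂ * (‖(T : F →L[ℝ] H)‖ * ‖(T.symm : H →L[ℝ] F)‖) := by positivity
    nlinarith
  · set p : ℝ := a₁ / ‖(T.symm : H →L[ℝ] F)‖ with hp
    set q : ℝ := ‖(T : F →L[ℝ] H)‖ * a₂ with hq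
    have hTs : 0 < ‖(T.symm : H →L[ℝ] F)‖ := by
      have : Nontrivial H := T.symm.toEquiv.nontrivial
      rw [norm_pos_iff]
      intro h0
      obtain ⟨y, hy⟩ := exists_ne (0 : H)
      have : T.symm y = 0 := by
        have := congrArg (fun g : H →L[ℝ] F => g y) h0
        simpa using this
      exact hy (by simpa using this)
    have hp0 : 0 < p := div_pos h₁ hTs
    obtain ⟨T₀, hA, hB, -⟩ := exists_equiv_of_map (G := G) (H := H)
      ((T : F →ₗ[ℝ] H) ∘ₗ ι) p q hp0 (by positivity)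
      (by
        intro x
        have h1 : ‖ι x‖ ≤ ‖(T.symm : H →L[ℝ] F)‖ * ‖T (ι x)‖ := by
          have := (T.symm : H →L[ℝ] F).le_opNorm (T (ι x))
          simpa using this
        have h2 := hlow x
        change p * ‖x‖ ≤ ‖T (ι x)‖
        rw [hp, div_mul_eq_mul_div, div_le_iff₀ hTs]
        linarith)
      (by
        intro x
        have h1 : ‖T (ι x)‖ ≤ ‖(T : F →L[ℝ] H)‖ * ‖ι x‖ := (T : F →L[ℝ] H).le_opNorm (ι x)
        change ‖T (ι x)‖ ≤ q * ‖x‖
        rw [hq, mul_assoc]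
        exact h1.trans (mul_le_mul_of_nonneg_left (hup x) (norm_nonneg _)))
    have h4 := hD T₀
    have h5 : ‖(T₀ : G →L[ℝ] EuclideanSpace ℝ (Fin (finrank ℝ G)))‖ *
        ‖(T₀.symm : EuclideanSpace ℝ (Fin (finrank ℝ G)) →L[ℝ] G)‖ ≤ q * (1 / p) :=
      mul_le_mul hA hB (norm_nonneg _) (by positivity)
    have h6 : q * (1 / p) * a₁ = a₂ * (‖(T : F →L[ℝ] H)‖ * ‖(T.symm : H →L[ℝ] F)‖) := by
      rw [hp, hq]
      field_simp
    calc D * a₁ ≤ q * (1 / p) * a₁ := mul_le_mul_of_nonneg_right (h4.trans h5) h₁.le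
      _ = _ := h6

theorem BasisLe.mono {X : Type*} [NormedAddCommGroup X] [NormedSpace ℝ X] {C C' : ℝ}
    (h : BasisLe X C) (hC : C ≤ C') : BasisLe X C' := by
  obtain ⟨b, hb⟩ := h
  exact ⟨b, fun k x => (hb k x).trans (mul_le_mul_of_nonneg_right hC (norm_nonneg _))⟩

theorem DistGe.mono {X : Type*} [NormedAddCommGroup X] [NormedSpace ℝ X] {D D' : ℝ}
    (h : DistGe X D) (hD : D' ≤ D) : DistGe X D' := fun T => hD.trans (h T)

end Run7.h35
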