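import Pool.Agent.Run7.h35.Book

set_option autoImplicit false

namespace Run7.h35

open Finset Module

/-- `p` is `D`-equivalent to a Euclidean seminorm. -/
def EuclLe {V : Type*} [AddCommGroup V] [Module ℝ V] (p : V → ℝ) (D : ℝ) : Prop :=
  ∃ (n : ℕ) (f : V →ₗ[ℝ] EuclideanSpace ℝ (Fin n)), ∀ x, ‖f x‖ ≤ p x ∧ p x ≤ D * ‖f x‖

theorem EuclLe.comp {V W : Type*} [AddCommGroup V] [Module ℝ V] [AddCommGroup W] [Module ℝ W]
    {p : V → ℝ} {D : ℝ} (h : EuclLe p D) (g : W →ₗ[ℝ] V) : EuclLe (fun x => p (g x)) D := by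
  obtain ⟨n, f, hf⟩ := h
  exact ⟨n, f ∘ₗ g, fun x => hf (g x)⟩

theorem EuclLe.of_le {V : Type*} [AddCommGroup V] [Module ℝ V] {p q : V → ℝ} {D c₁ c₂ : ℝ}
    (h : EuclLe q D) (h₁ : 0 < c₁) (h₂ : 0 ≤ c₂) (hlow : ∀ x, c₁ * q x ≤ p x)
    (hup : ∀ x, p x ≤ c₂ * q x) : EuclLe p (D * c₂ / c₁) := by
  obtain ⟨n, f, hf⟩ := h
  refine ⟨n, c₁ • f, fun x => ?_⟩
  have h3 : ‖(c₁ • f) x‖ = c₁ * ‖f x‖ := by
    rw [LinearMap.smul_apply, norm_smul, Real.norm_of_nonneg h₁.le]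
  rw [h3]
  obtain ⟨h4, h5⟩ := hf x
  constructor
  · exact (mul_le_mul_of_nonneg_left h4 h₁.le).trans (hlow x)
  · refine (hup x).trans ?_
    have h6 : D * c₂ / c₁ * (c₁ * ‖f x‖) = c₂ * (D * ‖f x‖) := by
      field_simp
    rw [h6]
    exact mul_le_mul_of_nonneg_left h5 h₂

theorem EuclLe.congr {V : Type*} [AddCommGroup V] [Module ℝ V] {p q : V → ℝ} {D : ℝ}
    (h : EuclLe q D) (hpq : ∀ x, p x = q x) : EuclLe p D := by
  obtain ⟨n, f, hf⟩ := h
  exact ⟨n, f, fun x => by rw [hpq]; exact hf x⟩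

theorem EuclLe.mono {V : Type*} [AddCommGroup V] [Module ℝ V] {p : V → ℝ} {D D' : ℝ}
    (h : EuclLe p D) (hD : D ≤ D') : EuclLe p D' := by
  obtain ⟨n, f, hf⟩ := h
  exact ⟨n, f, fun x => ⟨(hf x).1, (hf x).2.trans
    (mul_le_mul_of_nonneg_right hD (norm_nonneg _))⟩⟩

/-- if the distance is smaller than `D` then the norm is `D`-Euclidean -/
theorem euclLe_of_not_distGe {X : Type*} [NormedAddCommGroup X] [NormedSpace ℝ X] {D : ℝ}
    (h : ¬ DistGe X D) : EuclLe (fun x : X => ‖x‖) D := by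
  unfold DistGe at h
  push Not at h
  obtain ⟨T, hT⟩ := h
  set A := ‖(T : X →L[ℝ] EuclideanSpace ℝ (Fin (finrank ℝ X)))‖ with hA
  set B := ‖(T.symm : EuclideanSpace ℝ (Fin (finrank ℝ X)) →L[ℝ] X)‖ with hB
  have hTx : ∀ x, ‖T x‖ ≤ A * ‖x‖ :=
    fun x => (T : X →L[ℝ] EuclideanSpace ℝ (Fin (finrank ℝ X))).le_opNorm x
  have hTs : ∀ x, ‖x‖ ≤ B * ‖T x‖ := by
    intro x
    have := (T.symm : EuclideanSpace ℝ (Fin (finrank ℝ X)) →L[ℝ] X).le_opNorm (T x)
    simpa using this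
  rcases (norm_nonneg (T : X →L[ℝ] EuclideanSpace ℝ (Fin (finrank ℝ X)))).eq_or_lt with h0 | h0
  · refine ⟨finrank ℝ X, 0, fun x => ?_⟩
    have h1 : ‖T x‖ ≤ 0 := by
      have := hTx x
      rw [hA, ← h0, zero_mul] at this
      exact this
    have h2 : ‖x‖ ≤ 0 := by
      refine (hTs x).trans ?_
      have : ‖T x‖ = 0 := le_antisymm h1 (norm_nonneg _)
      rw [this, mul_zero]
    constructor
    · simp
    · simp only [LinearMap.zero_apply, norm_zero, mul_zero]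
      exact h2
  · have hA0 : 0 < A := h0
    refine ⟨finrank ℝ X, (A⁻¹ : ℝ) • (T : X →ₗ[ℝ] EuclideanSpace ℝ (Fin (finrank ℝ X))),
      fun x => ?_⟩
    have h3 : ‖((A⁻¹ : ℝ) • (T : X →ₗ[ℝ] EuclideanSpace ℝ (Fin (finrank ℝ X)))) x‖ =
        A⁻¹ * ‖T x‖ := by
      rw [LinearMap.smul_apply, norm_smul, Real.norm_of_nonneg (by positivity)]
      rfl
    rw [h3]
    constructor
    · rw [inv_mul_le_iff₀ hA0]
      exact hTx x
    · refine (hTs x).trans ?_
      have h4 : B ≤ D * A⁻¹ := by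
        rw [← div_eq_mul_inv, le_div_iff₀ hA0, mul_comm]
        exact hT.le
      calc B * ‖T x‖ ≤ (D * A⁻¹) * ‖T x‖ := mul_le_mul_of_nonneg_right h4 (norm_nonneg _)
        _ = _ := by ring

theorem le_of_distGe_of_euclLe {X : Type*} [NormedAddCommGroup X] [NormedSpace ℝ X]
    [FiniteDimensional ℝ X] [Nontrivial X] {D D₁ : ℝ} (h : DistGe X D)
    (h₁ : EuclLe (fun x : X => ‖x‖) D₁) : D ≤ D₁ := by
  obtain ⟨n, f, hf⟩ := h₁
  obtain ⟨x₀, hx₀⟩ := exists_ne (0 : X)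
  have hx₀' : 0 < ‖x₀‖ := norm_pos_iff.mpr hx₀
  have hD₁ : 0 < D₁ := by
    by_contra hc
    push Not at hc
    have h1 := (hf x₀).2
    have h2 : D₁ * ‖f x₀‖ ≤ 0 := mul_nonpos_of_nonpos_of_nonneg hc (norm_nonneg _)
    linarith
  obtain ⟨T, hA, hB, -⟩ := exists_equiv_of_map f (1 / D₁) 1 (by positivity) zero_le_one
    (fun x => by
      rw [one_div, inv_mul_le_iff₀ hD₁]
      exact (hf x).2)
    (fun x => by rw [one_mul]; exact (hf x).1)
  have h3 := h T
  have h4 := mul_le_mul hA hB (norm_nonneg _) zero_le_one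
  have h5 : (1 : ℝ) * (1 / (1 / D₁)) = D₁ := by rw [one_div_one_div, one_mul]
  linarith

/-- closeness on a finite set implies uniform closeness of seminorms -/
theorem uniform_close {V : Type*} [NormedAddCommGroup V] [NormedSpace ℝ V]
    [FiniteDimensional ℝ V] (p : Seminorm ℝ V) (c B δ : ℝ) (hc : 0 < c) (hB : 0 ≤ B)
    (hδ : 0 < δ) (hp : ∀ x, c * ‖x‖ ≤ p x) (hpB : ∀ x, p x ≤ B * ‖x‖) :
    ∃ (S : Finset V) (ε : ℝ), 0 < ε ∧ ∀ q : Seminorm ℝ V, (∀ x, q x ≤ B * ‖x‖) →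
      (∀ x ∈ S, |q x - p x| < ε) → ∀ x, (1 - δ) * p x ≤ q x ∧ q x ≤ (1 + δ) * p x := by
  set η : ℝ := c * δ / (4 * (B + 1)) with hη
  have hη0 : 0 < η := by positivity
  obtain ⟨t, hts, htf, htc⟩ := (isCompact_sphere (0 : V) 1).finite_cover_balls hη0
  refine ⟨htf.toFinset, c * δ / 4, by positivity, ?_⟩
  intro q hq hS
  have hlip : ∀ (r : Seminorm ℝ V), (∀ x, r x ≤ B * ‖x‖) → ∀ x y, |r x - r y| ≤ B * ‖x - y‖ := by
    intro r hr x y
    rw [abs_le]
    have h1 : r x ≤ r (x - y) + r y := by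
      have := map_add_le_add r (x - y) y
      rwa [sub_add_cancel] at this
    have h2 : r y ≤ r (x - y) + r x := by
      have := map_add_le_add r (y - x) x
      rw [sub_add_cancel] at this
      rwa [map_sub_rev] at this
    have h3 := hr (x - y)
    constructor <;> linarith
  have hBη : B * η ≤ c * δ / 4 := by
    have : B * η = (B / (B + 1)) * (c * δ / 4) := by
      rw [hη]; field_simp
    rw [this]
    have h4 : B / (B + 1) ≤ 1 := by
      rw [div_le_one (by linarith)]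
      linarith
    exact mul_le_of_le_one_left (by positivity) h4
  have hunit : ∀ u : V, ‖u‖ = 1 → |q u - p u| ≤ δ * p u := by
    intro u hu
    have hu' : u ∈ Metric.sphere (0 : V) 1 := by simpa using hu
    obtain ⟨s, hs, hus⟩ := Set.mem_iUnion₂.mp (htc hu')
    rw [Metric.mem_ball, dist_eq_norm] at hus
    have h1 := hlip q hq u s
    have h2 := hlip p hpB u s
    have h3 := hS s (htf.mem_toFinset.mpr hs)
    have h4 : B * ‖u - s‖ ≤ B * η := mul_le_mul_of_nonneg_left hus.le hB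
    have h5 := hp u
    rw [hu, mul_one] at h5
    have h6 : |q u - p u| ≤ |q u - q s| + |q s - p s| + |p u - p s| := by
      have e : q u - p u = (q u - q s) + (q s - p s) - (p u - p s) := by ring
      rw [e]
      refine (abs_sub _ _).trans ?_
      have := abs_add_le (q u - q s) (q s - p s)
      linarith
    have h7 : c * δ ≤ δ * p u := by
      rw [mul_comm]
      exact mul_le_mul_of_nonneg_left h5 hδ.le
    have h8 : 0 < c * δ := by positivity
    linarith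
  intro x
  rcases eq_or_ne x 0 with rfl | hx
  · simp
  · have hx0 : 0 < ‖x‖ := norm_pos_iff.mpr hx
    have h1 := hunit ((‖x‖⁻¹ : ℝ) • x) (by
      rw [norm_smul, norm_inv, norm_norm, inv_mul_cancel₀ hx0.ne'])
    rw [map_smul_eq_mul, map_smul_eq_mul, Real.norm_of_nonneg (by positivity)] at h1
    rw [← mul_sub, abs_mul, abs_of_pos (by positivity : (0 : ℝ) < ‖x‖⁻¹)] at h1
    have h2 : |q x - p x| ≤ δ * p x := by
      have h3 : ‖x‖⁻¹ * |q x - p x| ≤ ‖x‖⁻¹ * (δ * p x) := by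
        calc _ ≤ _ := h1
          _ = _ := by ring
      exact le_of_mul_le_mul_left h3 (by positivity)
    rw [abs_le] at h2
    constructor <;> linarith [h2.1, h2.2]

theorem exists_signs {H : Type*} [NormedAddCommGroup H] [InnerProductSpace ℝ H] {ι : Type*}
    [DecidableEq ι] (s : Finset ι) (w : ι → H) :
    (∃ ε : ι → ℝ, (∀ i, ε i = 1 ∨ ε i = -1) ∧
      ‖∑ i ∈ s, ε i • w i‖ ^ 2 ≤ ∑ i ∈ s, ‖w i‖ ^ 2) ∧
    (∃ ε : ι → ℝ, (∀ i, ε i = 1 ∨ ε i = -1) ∧
      ∑ i ∈ s, ‖w i‖ ^ 2 ≤ ‖∑ i ∈ s, ε i • w i‖ ^ 2) := by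
  induction s using Finset.induction_on with
  | empty =>
    exact ⟨⟨fun _ => 1, fun _ => Or.inl rfl, by simp⟩, ⟨fun _ => 1, fun _ => Or.inl rfl, by simp⟩⟩
  | insert a s ha ih =>
    obtain ⟨⟨ε₁, h₁, h₁'⟩, ⟨ε₂, h₂, h₂'⟩⟩ := ih
    have key : ∀ (ε : ι → ℝ) (σ : ℝ), ∑ i ∈ insert a s, (Function.update ε a σ) i • w i =
        σ • w a + ∑ i ∈ s, ε i • w i := by
      intro ε σ
      rw [Finset.sum_insert ha, Function.update_self]
      congr 1
      refine Finset.sum_congr rfl fun i hi => ?_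
      rw [Function.update_of_ne]
      rintro rfl
      exact ha hi
    have hupd : ∀ (ε : ι → ℝ) (σ : ℝ), (∀ i, ε i = 1 ∨ ε i = -1) → (σ = 1 ∨ σ = -1) →
        ∀ i, (Function.update ε a σ) i = 1 ∨ (Function.update ε a σ) i = -1 := by
      intro ε σ hε hσ i
      by_cases hi : i = a
      · subst hi; rw [Function.update_self]; exact hσ
      · rw [Function.update_of_ne hi]; exact hε i
    have hpar : ∀ x y : H, ‖x + y‖ ^ 2 + ‖-x + y‖ ^ 2 = 2 * (‖x‖ ^ 2 + ‖y‖ ^ 2) := by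
      intro x y
      have := parallelogram_law_with_norm ℝ y x
      rw [add_comm x y, neg_add_eq_sub]
      nlinarith [this]
    constructor
    · have h := hpar (w a) (∑ i ∈ s, ε₁ i • w i)
      rcases le_total (‖w a + ∑ i ∈ s, ε₁ i • w i‖ ^ 2) (‖-w a + ∑ i ∈ s, ε₁ i • w i‖ ^ 2) with h3 | h3
      · refine ⟨Function.update ε₁ a 1, hupd _ _ h₁ (Or.inl rfl), ?_⟩
        rw [key, one_smul, Finset.sum_insert ha]
        linarith
      · refine ⟨Function.update ε₁ a (-1), hupd _ _ h₁ (Or.inr rfl), ?_⟩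
        rw [key, neg_smul, one_smul, Finset.sum_insert ha]
        linarith
    · have h := hpar (w a) (∑ i ∈ s, ε₂ i • w i)
      rcases le_total (‖w a + ∑ i ∈ s, ε₂ i • w i‖ ^ 2) (‖-w a + ∑ i ∈ s, ε₂ i • w i‖ ^ 2) with h3 | h3
      · refine ⟨Function.update ε₂ a (-1), hupd _ _ h₂ (Or.inr rfl), ?_⟩
        rw [key, neg_smul, one_smul, Finset.sum_insert ha]
        linarith
      · refine ⟨Function.update ε₂ a 1, hupd _ _ h₂ (Or.inl rfl), ?_⟩
        rw [key, one_smul, Finset.sum_insert ha]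
        linarith

/-- the `ℓ₂` estimates for a suppression unconditional seminorm which is `D`-Euclidean -/
theorem uncond_l2 {ι : Type*} [Fintype ι] [DecidableEq ι] (p : Seminorm ℝ (ι → ℝ))
    (hS : ∀ (S : Finset ι) (t : ι → ℝ), p (fun i => if i ∈ S then t i else 0) ≤ p t)
    (D : ℝ) (hD : 0 ≤ D) (h : EuclLe (fun t => p t) D) (t : ι → ℝ) :
    p t ^ 2 ≤ (2 * D) ^ 2 * ∑ i, p (Pi.single i (t i)) ^ 2 ∧
      ∑ i, p (Pi.single i (t i)) ^ 2 ≤ (2 * D) ^ 2 * p t ^ 2 := by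
  classical
  obtain ⟨n, f, hf⟩ := h
  have hsign : ∀ (ε : ι → ℝ), (∀ i, ε i = 1 ∨ ε i = -1) → ∀ t : ι → ℝ,
      p (fun i => ε i * t i) ≤ 2 * p t := by
    intro ε hε t
    set S : Finset ι := univ.filter fun i => ε i = 1 with hSdef
    have h1 : (fun i => ε i * t i) = (fun i => if i ∈ S then t i else 0) -
        (fun i => if i ∈ Sᶜ then t i else 0) := by
      funext i
      rw [Pi.sub_apply]
      rcases hε i with h2 | h2
      · have h3 : i ∈ S := by simp [hSdef, h2]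
        have h4 : i ∉ Sᶜ := by simp [h3]
        simp only [h3, h4, if_true, if_false, h2]
        ring
      · have h3 : i ∉ S := by
          simp only [hSdef, mem_filter, mem_univ, true_and, h2]
          norm_num
        have h4 : i ∈ Sᶜ := by simp [h3]
        simp only [h3, h4, if_true, if_false, h2]
        ring
    rw [h1]
    have h5 := map_sub_le_add p (fun i => if i ∈ S then t i else 0)
      (fun i => if i ∈ Sᶜ then t i else 0)
    have h6 := hS S t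
    have h7 := hS Sᶜ t
    linarith
  have hsum : ∀ (ε : ι → ℝ), f (fun i => ε i * t i) =
      ∑ i, ε i • f (Pi.single i (t i)) := by
    intro ε
    have h1 : (fun i => ε i * t i) = ∑ i, ε i • (Pi.single i (t i) : ι → ℝ) := by
      funext j
      rw [Finset.sum_apply]
      simp [Pi.single_apply]
    rw [h1, map_sum]
    simp_rw [map_smul]
  have hpn : ∀ x, 0 ≤ p x := fun x => apply_nonneg p x
  have hidem : ∀ ε : ι → ℝ, (∀ i, ε i = 1 ∨ ε i = -1) →
      (fun i => ε i * (ε i * t i)) = t := by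
    intro ε hε
    funext i
    rcases hε i with h2 | h2 <;> rw [h2] <;> ring
  obtain ⟨⟨ε₁, h₁, h₁'⟩, ⟨ε₂, h₂, h₂'⟩⟩ :=
    exists_signs (univ : Finset ι) fun i => f (Pi.single i (t i))
  rw [← hsum] at h₁' h₂'
  constructor
  · have h3 : p t ≤ 2 * p (fun i => ε₁ i * t i) := by
      have := hsign ε₁ h₁ (fun i => ε₁ i * t i)
      rwa [hidem ε₁ h₁] at this
    have h4 := (hf (fun i => ε₁ i * t i)).2
    have h5 : p t ≤ 2 * D * ‖f (fun i => ε₁ i * t i)‖ := by linarith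
    have h6 : p t ^ 2 ≤ (2 * D * ‖f (fun i => ε₁ i * t i)‖) ^ 2 :=
      pow_le_pow_left₀ (hpn t) h5 2
    have h7 : ∑ i, ‖f (Pi.single i (t i))‖ ^ 2 ≤ ∑ i, p (Pi.single i (t i)) ^ 2 :=
      Finset.sum_le_sum fun i _ => pow_le_pow_left₀ (norm_nonneg _) (hf _).1 2
    calc p t ^ 2 ≤ (2 * D) ^ 2 * ‖f (fun i => ε₁ i * t i)‖ ^ 2 := by
          rw [mul_pow] at h6; exact h6
      _ ≤ (2 * D) ^ 2 * ∑ i, p (Pi.single i (t i)) ^ 2 :=
          mul_le_mul_of_nonneg_left (h₁'.trans h7) (by positivity)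
  · have h3 : ∑ i, p (Pi.single i (t i)) ^ 2 ≤ D ^ 2 * ∑ i, ‖f (Pi.single i (t i))‖ ^ 2 := by
      rw [Finset.mul_sum]
      refine Finset.sum_le_sum fun i _ => ?_
      rw [← mul_pow]
      exact pow_le_pow_left₀ (hpn _) (hf _).2 2
    have h4 : ‖f (fun i => ε₂ i * t i)‖ ≤ 2 * p t :=
      ((hf _).1).trans (hsign ε₂ h₂ t)
    have h5 : ‖f (fun i => ε₂ i * t i)‖ ^ 2 ≤ (2 * p t) ^ 2 :=
      pow_le_pow_left₀ (norm_nonneg _) h4 2
    calc ∑ i, p (Pi.single i (t i)) ^ 2 ≤ D ^ 2 * ∑ i, ‖f (Pi.single i (t i))‖ ^ 2 := h3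
      _ ≤ D ^ 2 * (2 * p t) ^ 2 :=
        mul_le_mul_of_nonneg_left (h₂'.trans h5) (by positivity)
      _ = _ := by ring

end Run7.h35
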