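import Pool.Agent.Run7.h35.Power
import Pool.Agent.Run7.h35.Eucl

set_option autoImplicit false

namespace Run7.h35

open Finset Module

theorem rest_eq_sum {G : Type*} [NormedAddCommGroup G] (w : ℕ → G) (j n : ℕ) :
    rest w j n = ∑ r ∈ range n,
      (if (j / 2 ^ r) % 2 = 1 then node w r (j / 2 ^ r - 1) else 0) := by
  induction n with
  | zero => simp [rest_zero]
  | succ n ih => rw [rest_succ, ih, Finset.sum_range_succ]

/-- the path estimate in the critical case `2 θ² = 1` -/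
theorem path_le {G : Type*} [NormedAddCommGroup G] (θ : ℝ) (hθ0 : 0 < θ) (hθ1 : θ < 1)
    (hθ2 : 2 * θ ^ 2 = 1) (x : ℕ → G) (j n : ℕ) :
    ∑ r ∈ range (n + 1), (θ ^ r * ‖rest x j r‖) ^ 2 ≤
      (θ / (1 - θ)) ^ 2 * ∑ l ∈ range j, ‖x l‖ ^ 2 := by
  set ρ : ℕ → ℝ := fun r => θ ^ r * ‖rest x j r‖ with hρ
  set u : ℕ → ℝ := fun r => if (j / 2 ^ r) % 2 = 1 then θ ^ r * ‖node x r (j / 2 ^ r - 1)‖ else 0
    with hu
  set w : ℕ → ℝ := fun l => ‖x l‖ ^ 2 with hw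
  have hrho := sum_rho_le θ hθ0 hθ1 ρ u (fun r => by positivity)
    (fun r => by simp only [hu]; split_ifs <;> positivity)
    (by simp [hρ, rest_zero]) (by
      intro r
      have h1 : ‖rest x j (r + 1)‖ ≤ ‖rest x j r‖ +
          (if (j / 2 ^ r) % 2 = 1 then ‖node x r (j / 2 ^ r - 1)‖ else 0) := by
        rw [rest_succ]
        refine (norm_add_le _ _).trans ?_
        split_ifs
        · exact le_rfl
        · simp
      have h2 : θ ^ (r + 1) * ‖rest x j (r + 1)‖ ≤ θ ^ (r + 1) * (‖rest x j r‖ +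
          (if (j / 2 ^ r) % 2 = 1 then ‖node x r (j / 2 ^ r - 1)‖ else 0)) :=
        mul_le_mul_of_nonneg_left h1 (by positivity)
      refine h2.trans (le_of_eq ?_)
      simp only [hρ, hu]
      split_ifs <;> ring) n
  have hu2 : ∑ r ∈ range n, u r ^ 2 ≤ rest w j n := by
    rw [rest_eq_sum]
    refine Finset.sum_le_sum fun r _ => ?_
    simp only [hu]
    split_ifs with h
    · unfold node
      have h1 : ‖∑ l ∈ Ico (2 ^ r * (j / 2 ^ r - 1)) (2 ^ r * (j / 2 ^ r - 1 + 1)), x l‖ ^ 2 ≤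
          (2 : ℝ) ^ r * ∑ l ∈ Ico (2 ^ r * (j / 2 ^ r - 1)) (2 ^ r * (j / 2 ^ r - 1 + 1)), w l := by
        have h2 := pow_le_pow_left₀ (norm_nonneg _) (norm_sum_le
          (Ico (2 ^ r * (j / 2 ^ r - 1)) (2 ^ r * (j / 2 ^ r - 1 + 1))) x) 2
        refine h2.trans ?_
        have h3 := sq_sum_le_card_mul_sum_sq
          (s := Ico (2 ^ r * (j / 2 ^ r - 1)) (2 ^ r * (j / 2 ^ r - 1 + 1))) (f := fun l => ‖x l‖)
        refine h3.trans (le_of_eq ?_)
        rw [Nat.card_Ico]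
        have : 2 ^ r * (j / 2 ^ r - 1 + 1) - 2 ^ r * (j / 2 ^ r - 1) = 2 ^ r := by
          rw [mul_add, mul_one, Nat.add_sub_cancel_left]
        rw [this]
        push_cast
        rfl
      rw [mul_pow]
      have h4 : (θ ^ r) ^ 2 * (2 : ℝ) ^ r = 1 := by
        rw [← pow_mul, mul_comm r 2, pow_mul, ← mul_pow, mul_comm, hθ2, one_pow]
      calc (θ ^ r) ^ 2 * ‖∑ l ∈ Ico (2 ^ r * (j / 2 ^ r - 1)) (2 ^ r * (j / 2 ^ r - 1 + 1)), x l‖ ^ 2
          ≤ (θ ^ r) ^ 2 * ((2 : ℝ) ^ r *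
            ∑ l ∈ Ico (2 ^ r * (j / 2 ^ r - 1)) (2 ^ r * (j / 2 ^ r - 1 + 1)), w l) :=
            mul_le_mul_of_nonneg_left h1 (by positivity)
        _ = _ := by rw [← mul_assoc, h4, one_mul]
    · simp
  have hrest : rest w j n ≤ ∑ l ∈ range j, w l := by
    unfold rest
    refine Finset.sum_le_sum_of_subset_of_nonneg ?_ (fun l _ _ => by positivity)
    intro l hl
    rw [Finset.mem_Ico] at hl
    rw [Finset.mem_range]
    exact hl.2
  refine hrho.trans ?_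
  exact mul_le_mul_of_nonneg_left (hu2.trans hrest) (by positivity)

theorem node_single {G : Type*} [NormedAddCommGroup G] (j : ℕ) (v : G) (r q : ℕ) :
    node (fun l => if l = j then v else 0) r q = if q = j / 2 ^ r then v else 0 := by
  unfold node
  rw [Finset.sum_ite_eq']
  have h2 : 0 < 2 ^ r := by positivity
  have : j ∈ Ico (2 ^ r * q) (2 ^ r * (q + 1)) ↔ q = j / 2 ^ r := by
    rw [Finset.mem_Ico]
    constructor
    · rintro ⟨h3, h4⟩
      symm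
      rw [Nat.div_eq_iff h2]
      constructor
      · rw [mul_comm]; exact h3
      · have : 2 ^ r * (q + 1) = q * 2 ^ r + 2 ^ r := by ring
        omega
    · rintro rfl
      exact ⟨Nat.mul_div_le j _, Nat.lt_mul_div_succ j h2⟩
  simp only [this]

/-- the Euclidean space as plain coefficient space -/
abbrev Eu (k : ℕ) : Type := EuclideanSpace ℝ (Fin k)

/-- the identity -/
noncomputable abbrev idE (k : ℕ) : Eu k ≃L[ℝ] Eu k := ContinuousLinearEquiv.refl ℝ (Eu k)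

/-- the coordinates, with a small parameter `γ` -/
noncomputable def coordG (γ θ : ℝ) (n k : ℕ) (g₀ : Eu k) :
    (Fin (2 ^ n * k) → ℝ) →ₗ[ℝ] (Idx n k → Eu k) :=
  LinearMap.pi fun a => Sum.elim
    (fun s : Σ r : Fin (n + 1), Fin (2 ^ (n - (r : ℕ))) =>
      (γ * θ ^ (s.1 : ℕ)) • (nodeL (s.1 : ℕ) (s.2 : ℕ) ∘ₗ blk (idE k)))
    (fun i => (LinearMap.proj i : (Fin (2 ^ n * k) → ℝ) →ₗ[ℝ] ℝ).smulRight g₀) a

theorem coordG_inl (γ θ : ℝ) (n k : ℕ) (g₀ : Eu k) (t : Fin (2 ^ n * k) → ℝ)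
    (s : Σ r : Fin (n + 1), Fin (2 ^ (n - (r : ℕ)))) :
    coordG γ θ n k g₀ t (Sum.inl s) =
      (γ * θ ^ (s.1 : ℕ)) • node (blk (idE k) t) (s.1 : ℕ) (s.2 : ℕ) := by
  simp [coordG, nodeL_apply]

theorem coordG_inr (γ θ : ℝ) (n k : ℕ) (g₀ : Eu k) (t : Fin (2 ^ n * k) → ℝ)
    (i : Fin (2 ^ n * k)) : coordG γ θ n k g₀ t (Sum.inr i) = t i • g₀ := by
  simp [coordG]

theorem sum_blk_sq {m k : ℕ} (t : Fin (m * k) → ℝ) :
    ∑ l ∈ range m, ‖blk (idE k) t l‖ ^ 2 = ∑ i, t i ^ 2 := by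
  have h2 : ∑ i, t i ^ 2 = ∑ p : Fin m × Fin k, t (finProdFinEquiv p) ^ 2 :=
    (Equiv.sum_comp finProdFinEquiv fun i => t i ^ 2).symm
  rw [h2, Fintype.sum_prod_type, ← Fin.sum_univ_eq_sum_range (fun l => ‖blk (idE k) t l‖ ^ 2) m]
  refine Finset.sum_congr rfl fun l _ => ?_
  rw [blk_apply (idE k) t l l.2]
  change ‖(WithLp.toLp 2 fun ν : Fin k => t (finProdFinEquiv (l, ν)) : Eu k)‖ ^ 2 = _
  rw [EuclideanSpace.norm_sq_eq]
  refine Finset.sum_congr rfl fun ν _ => ?_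
  rw [Real.norm_eq_abs, sq_abs]

/-- the hypotheses on the seminorm `α` on `ι → V` -/
structure Good {ι V : Type*} [Fintype ι] [DecidableEq ι] [AddCommGroup V] [Module ℝ V]
    (Nv : Seminorm ℝ V) (a : ℝ) (α : Seminorm ℝ (ι → V)) : Prop where
  supp : ∀ (S : Finset ι) (x : ι → V), α (fun i => if i ∈ S then x i else 0) ≤ α x
  up : ∀ x, α x ^ 2 ≤ a ^ 2 * ∑ i, Nv (x i) ^ 2
  low : ∀ x, ∑ i, Nv (x i) ^ 2 ≤ a ^ 2 * α x ^ 2

/-- the constant of the path estimate -/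
noncomputable def Kc (θ : ℝ) : ℝ := 2 * ((θ / (1 - θ)) ^ 2 + 1 / (1 - θ ^ 2))

theorem coordG_t_le {n k : ℕ} (γ θ : ℝ) (g₀ : Eu k) (Nv : Seminorm ℝ (Eu k)) (a : ℝ)
    (α : Seminorm ℝ (Idx n k → Eu k)) (hα : Good Nv a α) (t : Fin (2 ^ n * k) → ℝ) :
    Nv g₀ ^ 2 * ∑ i, t i ^ 2 ≤ a ^ 2 * α (coordG γ θ n k g₀ t) ^ 2 := by
  refine le_trans ?_ (hα.low _)
  rw [Fintype.sum_sum_type]
  have h1 : ∑ i, Nv (coordG γ θ n k g₀ t (Sum.inr i)) ^ 2 = Nv g₀ ^ 2 * ∑ i, t i ^ 2 := by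
    rw [Finset.mul_sum]
    refine Finset.sum_congr rfl fun i _ => ?_
    rw [coordG_inr, map_smul_eq_mul, mul_pow, Real.norm_eq_abs, sq_abs]
    ring
  rw [h1]
  have h2 : 0 ≤ ∑ s, Nv (coordG γ θ n k g₀ t (Sum.inl s)) ^ 2 := by positivity
  linarith

theorem coordG_cut {n k : ℕ} (hk : 0 < k) (γ θ : ℝ) (hγ : 0 < γ) (hθ0 : 0 < θ) (hθ1 : θ < 1)
    (hθ2 : 2 * θ ^ 2 = 1) (g₀ : Eu k) (Nv : Seminorm ℝ (Eu k)) (a b' : ℝ) (ha : 0 < a)
    (hb' : 0 < b')
    (hNb : ∀ v, Nv v ≤ b' * ‖v‖) (hg₀ : 0 < Nv g₀)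
    (α : Seminorm ℝ (Idx n k → Eu k)) (hα : Good Nv a α) (c : ℕ) (t : Fin (2 ^ n * k) → ℝ) :
    α (coordG γ θ n k g₀ (cut c t)) ≤
      (1 + γ * (a ^ 2 * b' * Real.sqrt (Kc θ) / Nv g₀)) * α (coordG γ θ n k g₀ t) := by
  classical
  have hθ3 : θ ^ 2 < 1 := by nlinarith
  have h2pos : (0 : ℝ) < 1 - θ ^ 2 := by linarith
  have h1pos : (0 : ℝ) < 1 - θ := by linarith
  have hK0 : 0 ≤ Kc θ := by unfold Kc; positivity
  rcases Nat.lt_or_ge c (k * 2 ^ n) with hc | hc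
  · have hj : c / k < 2 ^ n := Nat.div_lt_of_lt_mul hc
    obtain ⟨v, hv, hvn⟩ := blk_diff (m := 2 ^ n) hk (idE k) (fun v => le_rfl) t c
    set j := c / k with hjdef
    set x := blk (m := 2 ^ n) (idE k) t with hx
    have hblk : blk (m := 2 ^ n) (idE k) (cut c t) =
        cutN x j + (fun l => if l = j then v else 0) := by
      rw [← hv, hx, ← blk_cut_mul hk, ← map_add]
      congr 1
      abel
    have hnodeadd : ∀ (x y : ℕ → Eu k) r q, node (x + y) r q = node x r q + node y r q := by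
      intro x y r q
      simp [node, Finset.sum_add_distrib]
    -- the good set of coordinates
    set S : Finset (Idx n k) := univ.filter fun i => Sum.elim
      (fun s : Σ r : Fin (n + 1), Fin (2 ^ (n - (r : ℕ))) => (s.2 : ℕ) < j / 2 ^ (s.1 : ℕ))
      (fun i : Fin (2 ^ n * k) => (i : ℕ) < c) i with hS
    set Z : Idx n k → Eu k := Sum.elim
      (fun s : Σ r : Fin (n + 1), Fin (2 ^ (n - (r : ℕ))) =>
        if (s.2 : ℕ) = j / 2 ^ (s.1 : ℕ) then (γ * θ ^ (s.1 : ℕ)) • (rest x j s.1 + v) else 0)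
      (fun _ => 0) with hZ
    have hdec : coordG γ θ n k g₀ (cut c t) =
        (fun i => if i ∈ S then coordG γ θ n k g₀ t i else 0) + Z := by
      funext i
      rw [Pi.add_apply]
      rcases i with s | i
      · rw [coordG_inl, hblk, hnodeadd, node_cut, node_single]
        have hmem : (Sum.inl s : Idx n k) ∈ S ↔ (s.2 : ℕ) < j / 2 ^ (s.1 : ℕ) := by
          simp [hS]
        simp only [hmem, hZ, Sum.elim_inl, coordG_inl]
        split_ifs with h1 h2 h3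
        · omega
        · simp [hx]
        · simp
        · simp
      · have hmem : (Sum.inr i : Idx n k) ∈ S ↔ (i : ℕ) < c := by
          simp [hS]
        rw [coordG_inr, cut_apply]
        simp only [hmem, hZ, Sum.elim_inr, coordG_inr, add_zero]
        split_ifs <;> simp
    have hR := hα.supp S (coordG γ θ n k g₀ t)
    set A := α (coordG γ θ n k g₀ t) with hA
    have hA0 : 0 ≤ A := apply_nonneg _ _
    set τ := ∑ i, t i ^ 2 with hτ
    have hτ0 : 0 ≤ τ := by positivity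
    -- the bound for Z
    have hZ1 : ∑ i, Nv (Z i) ^ 2 ≤ (b' * γ) ^ 2 * (Kc θ * τ) := by
      rw [Fintype.sum_sum_type, Fintype.sum_sigma]
      have e1 : ∑ i, Nv (Z (Sum.inr i)) ^ 2 = 0 := by
        refine Finset.sum_eq_zero fun i _ => ?_
        simp [hZ]
      rw [e1, add_zero]
      have e2 : ∀ r : Fin (n + 1), ∑ q : Fin (2 ^ (n - (r : ℕ))), Nv (Z (Sum.inl ⟨r, q⟩)) ^ 2 ≤
          (b' * γ) ^ 2 * (2 * (θ ^ (r : ℕ) * ‖rest x j r‖) ^ 2 + 2 * ((θ ^ 2) ^ (r : ℕ) * τ)) := by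
        intro r
        have e3 : ∀ q : Fin (2 ^ (n - (r : ℕ))), Nv (Z (Sum.inl ⟨r, q⟩)) ^ 2 ≤
            if (q : ℕ) = j / 2 ^ (r : ℕ) then
            (b' * γ) ^ 2 * (2 * (θ ^ (r : ℕ) * ‖rest x j r‖) ^ 2 + 2 * ((θ ^ 2) ^ (r : ℕ) * τ))
              else 0 := by
          intro q
          have e4 : Z (Sum.inl ⟨r, q⟩) = if (q : ℕ) = j / 2 ^ (r : ℕ) then
            (γ * θ ^ (r : ℕ)) • (rest x j r + v) else 0 := rfl
          rw [e4]
          split_ifs with h1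
          · rw [map_smul_eq_mul, Real.norm_of_nonneg (by positivity)]
            have e5 : Nv (rest x j r + v) ≤ b' * (‖rest x j r‖ + ‖v‖) :=
              (hNb _).trans (mul_le_mul_of_nonneg_left (norm_add_le _ _) hb'.le)
            have e6 : γ * θ ^ (r : ℕ) * Nv (rest x j r + v) ≤
                (b' * γ) * (θ ^ (r : ℕ) * ‖rest x j r‖ + θ ^ (r : ℕ) * ‖v‖) := by
              calc _ ≤ γ * θ ^ (r : ℕ) * (b' * (‖rest x j r‖ + ‖v‖)) :=
                    mul_le_mul_of_nonneg_left e5 (by positivity)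
                _ = _ := by ring
            refine (pow_le_pow_left₀ (by positivity) e6 2).trans ?_
            rw [mul_pow]
            refine mul_le_mul_of_nonneg_left ?_ (by positivity)
            have e7 : (θ ^ (r : ℕ) * ‖v‖) ^ 2 ≤ (θ ^ 2) ^ (r : ℕ) * τ := by
              rw [mul_pow, ← pow_mul, mul_comm (r : ℕ) 2, pow_mul]
              exact mul_le_mul_of_nonneg_left hvn (by positivity)
            nlinarith [sq_nonneg (θ ^ (r : ℕ) * ‖rest x j r‖ - θ ^ (r : ℕ) * ‖v‖)]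
          · simp
        refine (Finset.sum_le_sum fun q _ => e3 q).trans ?_
        rw [Fin.sum_univ_eq_sum_range (fun q => if q = j / 2 ^ (r : ℕ) then
            (b' * γ) ^ 2 * (2 * (θ ^ (r : ℕ) * ‖rest x j r‖) ^ 2 + 2 * ((θ ^ 2) ^ (r : ℕ) * τ))
              else 0) (2 ^ (n - (r : ℕ))), Finset.sum_ite_eq']
        split_ifs
        · exact le_rfl
        · positivity
      refine (Finset.sum_le_sum fun r _ => e2 r).trans ?_
      rw [Fin.sum_univ_eq_sum_range (fun r => (b' * γ) ^ 2 *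
        (2 * (θ ^ r * ‖rest x j r‖) ^ 2 + 2 * ((θ ^ 2) ^ r * τ))) (n + 1), ← Finset.mul_sum]
      refine mul_le_mul_of_nonneg_left ?_ (by positivity)
      rw [Finset.sum_add_distrib, ← Finset.mul_sum, ← Finset.mul_sum, ← Finset.sum_mul]
      have e8 := path_le θ hθ0 hθ1 hθ2 x j n
      have e9 : ∑ l ∈ range j, ‖x l‖ ^ 2 ≤ τ := by
        rw [hτ, ← sum_blk_sq t]
        refine Finset.sum_le_sum_of_subset_of_nonneg ?_ (fun l _ _ => by positivity)
        intro l hl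
        rw [Finset.mem_range] at hl ⊢
        omega
      have e10 : ∑ r ∈ range (n + 1), (θ ^ 2) ^ r ≤ 1 / (1 - θ ^ 2) := by
        rw [geom_sum_eq hθ3.ne, ← neg_div_neg_eq, neg_sub, neg_sub]
        refine div_le_div_of_nonneg_right ?_ h2pos.le
        have : 0 ≤ (θ ^ 2) ^ (n + 1) := by positivity
        linarith
      have e11 : (θ / (1 - θ)) ^ 2 * ∑ l ∈ range j, ‖x l‖ ^ 2 ≤ (θ / (1 - θ)) ^ 2 * τ :=
        mul_le_mul_of_nonneg_left e9 (by positivity)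
      have e12 : (∑ r ∈ range (n + 1), (θ ^ 2) ^ r) * τ ≤ 1 / (1 - θ ^ 2) * τ :=
        mul_le_mul_of_nonneg_right e10 hτ0
      have e13 : Kc θ * τ = 2 * ((θ / (1 - θ)) ^ 2 * τ) + 2 * (1 / (1 - θ ^ 2) * τ) := by
        unfold Kc; ring
      rw [e13]
      linarith
    have hZ2 : α Z ≤ γ * (a ^ 2 * b' * Real.sqrt (Kc θ) / Nv g₀) * A := by
      refine le_of_sq_le_sq ?_ (by positivity)
      have f1 := hα.up Z
      have f2 := coordG_t_le γ θ g₀ Nv a α hα t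
      rw [← hA, ← hτ] at f2
      have f3 : τ ≤ a ^ 2 * A ^ 2 / Nv g₀ ^ 2 := by
        rw [le_div_iff₀ (by positivity)]
        linarith
      calc α Z ^ 2 ≤ a ^ 2 * ∑ i, Nv (Z i) ^ 2 := f1
        _ ≤ a ^ 2 * ((b' * γ) ^ 2 * (Kc θ * τ)) := mul_le_mul_of_nonneg_left hZ1 (by positivity)
        _ ≤ a ^ 2 * ((b' * γ) ^ 2 * (Kc θ * (a ^ 2 * A ^ 2 / Nv g₀ ^ 2))) := by
          gcongr
        _ = (γ * (a ^ 2 * b' * Real.sqrt (Kc θ) / Nv g₀) * A) ^ 2 := by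
          have h9 : Real.sqrt (Kc θ) ^ 2 = Kc θ := Real.sq_sqrt hK0
          have h10 : (γ * (a ^ 2 * b' * Real.sqrt (Kc θ) / Nv g₀) * A) ^ 2 =
              a ^ 2 * ((b' * γ) ^ 2 * (Real.sqrt (Kc θ) ^ 2 * (a ^ 2 * A ^ 2 / Nv g₀ ^ 2))) := by
            ring
          rw [h10, h9]
    rw [hdec]
    refine (map_add_le_add α _ _).trans ?_
    rw [add_mul, one_mul]
    exact add_le_add hR hZ2
  · have : cut c t = t := by
      funext i
      rw [cut_apply, if_pos]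
      have := i.2
      rw [mul_comm] at hc
      omega
    rw [this]
    refine le_mul_of_one_le_left (apply_nonneg _ _) ?_
    have : 0 ≤ γ * (a ^ 2 * b' * Real.sqrt (Kc θ) / Nv g₀) := by positivity
    linarith

theorem node_congr {G : Type*} [NormedAddCommGroup G] (x y : ℕ → G) (n r q : ℕ)
    (hr : r ≤ n) (hq : q < 2 ^ (n - r)) (h : ∀ l < 2 ^ n, x l = y l) :
    node x r q = node y r q := by
  unfold node
  refine Finset.sum_congr rfl fun l hl => ?_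
  rw [Finset.mem_Ico] at hl
  refine h l (lt_of_lt_of_le hl.2 ?_)
  have h4 : (2 : ℕ) ^ n = 2 ^ r * 2 ^ (n - r) := by
    rw [← pow_add]; congr 1; omega
  rw [h4]
  exact Nat.mul_le_mul_left _ hq

theorem node_const {G : Type*} [NormedAddCommGroup G] [NormedSpace ℝ G] (v : G) (r q : ℕ) :
    node (fun _ => v) r q = (2 ^ r : ℝ) • v := by
  unfold node
  rw [Finset.sum_const, Nat.card_Ico]
  have : 2 ^ r * (q + 1) - 2 ^ r * q = 2 ^ r := by
    rw [mul_add, mul_one, Nat.add_sub_cancel_left]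
  rw [this, ← Nat.cast_smul_eq_nsmul ℝ]
  push_cast
  rfl

theorem sum_coordG_const {n k : ℕ} (γ θ : ℝ) (hγ : 0 ≤ γ) (hθ0 : 0 ≤ θ)
    (hθ2 : 2 * θ ^ 2 = 1) (g₀ : Eu k) (Nv : Seminorm ℝ (Eu k)) (x : Eu k) :
    ∑ i, Nv (coordG γ θ n k g₀ (constL (m := 2 ^ n) (idE k) x) i) ^ 2 =
      γ ^ 2 * (n + 1) * 2 ^ n * Nv x ^ 2 + 2 ^ n * (‖x‖ ^ 2 * Nv g₀ ^ 2) := by
  rw [Fintype.sum_sum_type, Fintype.sum_sigma]
  congr 1
  · have h1 : ∀ r : Fin (n + 1), ∑ q : Fin (2 ^ (n - (r : ℕ))),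
        Nv (coordG γ θ n k g₀ (constL (m := 2 ^ n) (idE k) x) (Sum.inl ⟨r, q⟩)) ^ 2 =
        γ ^ 2 * 2 ^ n * Nv x ^ 2 := by
      intro r
      have h2 : ∀ q : Fin (2 ^ (n - (r : ℕ))),
          Nv (coordG γ θ n k g₀ (constL (m := 2 ^ n) (idE k) x) (Sum.inl ⟨r, q⟩)) ^ 2 =
          (γ * θ ^ (r : ℕ)) ^ 2 * (2 ^ (r : ℕ)) ^ 2 * Nv x ^ 2 := by
        intro q
        rw [coordG_inl]
        have h3 : node (blk (idE k) (constL (m := 2 ^ n) (idE k) x)) (r : ℕ) (q : ℕ) =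
            (2 ^ (r : ℕ) : ℝ) • x := by
          rw [← node_const x (r : ℕ) (q : ℕ)]
          exact node_congr _ _ n _ _ (by omega) q.2 fun l hl => blk_constL (idE k) x l hl
        simp only [h3]
        rw [map_smul_eq_mul, map_smul_eq_mul, Real.norm_of_nonneg (by positivity),
          Real.norm_of_nonneg (by positivity)]
        ring
      rw [Finset.sum_congr rfl fun q _ => h2 q, Finset.sum_const, card_univ, Fintype.card_fin,
        nsmul_eq_mul]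
      push_cast
      have h4 : (2 : ℝ) ^ (n - (r : ℕ)) * ((γ * θ ^ (r : ℕ)) ^ 2 * (2 ^ (r : ℕ)) ^ 2 * Nv x ^ 2) =
          γ ^ 2 * (2 ^ (n - (r : ℕ)) * 2 ^ (r : ℕ)) * (2 * θ ^ 2) ^ (r : ℕ) * Nv x ^ 2 := by
        rw [mul_pow (2 : ℝ) (θ ^ 2), ← pow_mul θ 2, mul_comm 2 (r : ℕ), pow_mul]
        ring
      rw [h4, hθ2, one_pow, mul_one, ← pow_add]
      have : n - (r : ℕ) + (r : ℕ) = n := by omega
      rw [this]
    rw [Finset.sum_congr rfl fun r _ => h1 r, Finset.sum_const, card_univ, Fintype.card_fin,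
      nsmul_eq_mul]
    push_cast
    ring
  · have h1 : ∑ i, Nv (coordG γ θ n k g₀ (constL (m := 2 ^ n) (idE k) x) (Sum.inr i)) ^ 2 =
        (∑ i, constL (m := 2 ^ n) (idE k) x i ^ 2) * Nv g₀ ^ 2 := by
      rw [Finset.sum_mul]
      refine Finset.sum_congr rfl fun i _ => ?_
      rw [coordG_inr, map_smul_eq_mul, mul_pow, Real.norm_eq_abs, sq_abs]
    rw [h1, sum_constL]
    push_cast
    have : (idE k).symm x = x := rfl
    rw [this]
    ring

/-- **Core lemma**: in a space `ι → V` with a suppression unconditional norm satisfying two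
sided `ℓ₂` estimates there is a subspace with a good basis which is as far from Euclidean as
`V`, up to the square of the constant of the `ℓ₂` estimates. -/
theorem coreU {k : ℕ} (hk : 0 < k) (Nv : Seminorm ℝ (Eu k)) (a a' b' ε : ℝ) (ha : 0 < a)
    (ha' : 0 < a') (hb' : 0 < b') (hε : 0 < ε) (hNa : ∀ v, a' * ‖v‖ ≤ Nv v)
    (hNb : ∀ v, Nv v ≤ b' * ‖v‖) :
    ∃ (n : ℕ) (Φ : (Fin (2 ^ n * k) → ℝ) →ₗ[ℝ] (Idx n k → Eu k)),
      ∀ α : Seminorm ℝ (Idx n k → Eu k), Good Nv a α →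
        (∀ c t, α (Φ (cut c t)) ≤ (1 + ε) * α (Φ t)) ∧
        (∃ c₀ : ℝ, 0 < c₀ ∧ ∀ t, c₀ * ‖t‖ ≤ α (Φ t)) ∧
        ∀ D₂ : ℝ, 0 ≤ D₂ → EuclLe (fun t => α (Φ t)) D₂ →
          EuclLe (fun v => Nv v) (2 * a ^ 2 * D₂) := by
  classical
  set θ : ℝ := 1 / Real.sqrt 2 with hθ
  have hs2 : Real.sqrt 2 ^ 2 = 2 := Real.sq_sqrt (by norm_num)
  have hs0 : 0 < Real.sqrt 2 := by positivity
  have hs1 : 1 < Real.sqrt 2 := by
    rw [Real.lt_sqrt (by norm_num)]; norm_num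
  have hθ0 : 0 < θ := by positivity
  have hθ1 : θ < 1 := by
    rw [hθ, div_lt_one hs0]; exact hs1
  have hθ2 : 2 * θ ^ 2 = 1 := by
    rw [hθ, div_pow, hs2]; norm_num
  -- the vector g₀
  set g₀ : Eu k := EuclideanSpace.single ⟨0, hk⟩ 1 with hg₀
  have hg1 : ‖g₀‖ = 1 := by simp [hg₀]
  have hν : 0 < Nv g₀ := by
    have := hNa g₀
    rw [hg1, mul_one] at this
    linarith
  have hK0 : 0 ≤ Kc θ := by
    unfold Kc
    have : (0 : ℝ) < 1 - θ ^ 2 := by nlinarith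
    positivity
  set Q := a ^ 2 * b' * Real.sqrt (Kc θ) / Nv g₀ with hQ
  have hQ0 : 0 ≤ Q := by positivity
  set γ := ε / (Q + 1) with hγ
  have hγ0 : 0 < γ := by positivity
  have hγQ : γ * Q ≤ ε := by
    rw [hγ, div_mul_eq_mul_div, div_le_iff₀ (by positivity)]
    nlinarith
  obtain ⟨n, hn⟩ := exists_nat_gt (Nv g₀ ^ 2 / (a' * γ) ^ 2)
  have hn' : Nv g₀ ^ 2 ≤ (a' * γ) ^ 2 * (n + 1) := by
    rw [div_lt_iff₀ (by positivity)] at hn
    have : 0 ≤ (a' * γ) ^ 2 := by positivity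
    nlinarith
  refine ⟨n, coordG γ θ n k g₀, fun α hα => ⟨?_, ?_, ?_⟩⟩
  · intro c t
    refine (coordG_cut hk γ θ hγ0 hθ0 hθ1 hθ2 g₀ Nv a b' ha hb' hNb hν α hα c t).trans ?_
    refine mul_le_mul_of_nonneg_right ?_ (apply_nonneg _ _)
    linarith
  · refine ⟨Nv g₀ / a, by positivity, fun t => ?_⟩
    have h1 := coordG_t_le γ θ g₀ Nv a α hα t
    refine le_of_sq_le_sq ?_ (apply_nonneg _ _)
    have h2 : ‖t‖ ^ 2 ≤ ∑ i, t i ^ 2 := by
      have h3 : ‖t‖ ≤ Real.sqrt (∑ i, t i ^ 2) := by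
        rw [pi_norm_le_iff_of_nonneg (Real.sqrt_nonneg _)]
        intro i
        rw [Real.norm_eq_abs]
        refine Real.abs_le_sqrt ?_
        exact Finset.single_le_sum (f := fun i => t i ^ 2) (fun _ _ => sq_nonneg _)
          (Finset.mem_univ i)
      calc ‖t‖ ^ 2 ≤ Real.sqrt (∑ i, t i ^ 2) ^ 2 := pow_le_pow_left₀ (norm_nonneg _) h3 2
        _ = _ := Real.sq_sqrt (by positivity)
    rw [mul_pow, div_pow, div_mul_eq_mul_div, div_le_iff₀ (by positivity)]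
    calc Nv g₀ ^ 2 * ‖t‖ ^ 2 ≤ Nv g₀ ^ 2 * ∑ i, t i ^ 2 :=
          mul_le_mul_of_nonneg_left h2 (by positivity)
      _ ≤ _ := h1
      _ = _ := by ring
  · intro D₂ hD₂ hE
    have hE' := hE.comp (constL (m := 2 ^ n) (idE k))
    set q : ℝ := γ ^ 2 * (n + 1) * 2 ^ n with hq
    have hq0 : 0 < q := by positivity
    set s := Real.sqrt q with hs
    have hsq : s ^ 2 = q := Real.sq_sqrt hq0.le
    have hs0' : 0 < s := Real.sqrt_pos.mpr hq0
    have hsum := sum_coordG_const (n := n) γ θ hγ0.le hθ0.le hθ2 g₀ Nv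
    have hx : ∀ x : Eu k, (2 : ℝ) ^ n * (‖x‖ ^ 2 * Nv g₀ ^ 2) ≤ q * Nv x ^ 2 := by
      intro x
      have h1 : ‖x‖ ^ 2 * (a' ^ 2) ≤ Nv x ^ 2 := by
        have := pow_le_pow_left₀ (by positivity) (hNa x) 2
        nlinarith
      have h2 : ‖x‖ ^ 2 * Nv g₀ ^ 2 ≤ ‖x‖ ^ 2 * ((a' * γ) ^ 2 * (n + 1)) :=
        mul_le_mul_of_nonneg_left hn' (by positivity)
      have h3 : ‖x‖ ^ 2 * ((a' * γ) ^ 2 * (n + 1)) ≤ Nv x ^ 2 * (γ ^ 2 * (n + 1)) := by
        have : ‖x‖ ^ 2 * ((a' * γ) ^ 2 * (n + 1)) = ‖x‖ ^ 2 * a' ^ 2 * (γ ^ 2 * (n + 1)) := by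
          ring
        rw [this]
        exact mul_le_mul_of_nonneg_right h1 (by positivity)
      calc (2 : ℝ) ^ n * (‖x‖ ^ 2 * Nv g₀ ^ 2) ≤ 2 ^ n * (Nv x ^ 2 * (γ ^ 2 * (n + 1))) :=
            mul_le_mul_of_nonneg_left (h2.trans h3) (by positivity)
        _ = _ := by rw [hq]; ring
    have hup : ∀ x, α (coordG γ θ n k g₀ (constL (m := 2 ^ n) (idE k) x)) ≤
        2 * a * s * Nv x := by
      intro x
      refine le_of_sq_le_sq ?_ (by positivity)
      have h1 := hα.up (coordG γ θ n k g₀ (constL (m := 2 ^ n) (idE k) x))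
      rw [hsum, ← hq] at h1
      have h2 := hx x
      have h3 : (2 * a * s * Nv x) ^ 2 = 4 * a ^ 2 * (q * Nv x ^ 2) := by
        rw [← hsq]; ring
      rw [h3]
      have h4 : a ^ 2 * (q * Nv x ^ 2 + 2 ^ n * (‖x‖ ^ 2 * Nv g₀ ^ 2)) ≤
          a ^ 2 * (2 * (q * Nv x ^ 2)) := mul_le_mul_of_nonneg_left (by linarith) (by positivity)
      have h5 : 0 ≤ a ^ 2 * (q * Nv x ^ 2) := by positivity
      linarith
    have hlow : ∀ x, s * Nv x ≤ a * α (coordG γ θ n k g₀ (constL (m := 2 ^ n) (idE k) x)) := by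
      intro x
      refine le_of_sq_le_sq ?_ (by positivity)
      have h1 := hα.low (coordG γ θ n k g₀ (constL (m := 2 ^ n) (idE k) x))
      rw [hsum, ← hq] at h1
      have h2 : (0 : ℝ) ≤ 2 ^ n * (‖x‖ ^ 2 * Nv g₀ ^ 2) := by positivity
      rw [mul_pow, mul_pow, hsq]
      linarith
    have hfin := EuclLe.of_le (p := fun v => Nv v) hE' (c₁ := 1 / (2 * a * s)) (c₂ := a / s)
      (by positivity) (by positivity)
      (fun x => by
        rw [one_div, inv_mul_le_iff₀ (by positivity)]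
        exact hup x)
      (fun x => by
        rw [div_mul_eq_mul_div, le_div_iff₀ hs0', mul_comm]
        exact hlow x)
    refine hfin.mono (le_of_eq ?_)
    field_simp

end Run7.h35
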