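import Mathlib

set_option autoImplicit false

namespace Run7.h35

open Finset Module

/-- `DistGe X D`: the Banach-Mazur distance of the finite-dimensional space `X` to the Euclidean
space of the same dimension is at least `D`, i.e. `D ≤ ‖T‖ ‖T⁻¹‖` for every isomorphism `T` of `X`
onto the Euclidean space of dimension `dim X`. -/
def DistGe (X : Type*) [NormedAddCommGroup X] [NormedSpace ℝ X] (D : ℝ) : Prop :=
  ∀ T : X ≃L[ℝ] EuclideanSpace ℝ (Fin (finrank ℝ X)),
    D ≤ ‖(T : X →L[ℝ] EuclideanSpace ℝ (Fin (finrank ℝ X)))‖ *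
      ‖(T.symm : EuclideanSpace ℝ (Fin (finrank ℝ X)) →L[ℝ] X)‖

/-- `BasisLe X C`: the finite-dimensional space `X` has a basis all of whose partial-sum
projections have norm at most `C`. -/
def BasisLe (X : Type*) [NormedAddCommGroup X] [NormedSpace ℝ X] (C : ℝ) : Prop :=
  ∃ b : Basis (Fin (finrank ℝ X)) ℝ X, ∀ k : ℕ, ∀ x : X,
    ‖∑ i ∈ univ.filter (fun i : Fin (finrank ℝ X) => (i : ℕ) < k), b.repr x i • b i‖ ≤ C * ‖x‖

end Run7.h35
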