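import Mathlib

set_option autoImplicit false

namespace Run7.h35

open Finset

variable {G : Type*} [NormedAddCommGroup G]

/-- sum over a dyadic interval -/
def node (x : ℕ → G) (r q : ℕ) : G := ∑ l ∈ Ico (2 ^ r * q) (2 ^ r * (q + 1)), x l

/-- restriction to `[0,j)` -/
def cutN (x : ℕ → G) (j : ℕ) : ℕ → G := fun l => if l < j then x l else 0

/-- the part of the cut on the path node -/
def rest (x : ℕ → G) (j r : ℕ) : G := ∑ l ∈ Ico (2 ^ r * (j / 2 ^ r)) j, x l

theorem rest_zero (x : ℕ → G) (j : ℕ) : rest x j 0 = 0 := by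
  simp [rest]

theorem rest_succ (x : ℕ → G) (j r : ℕ) :
    rest x j (r + 1) = rest x j r +
      (if (j / 2 ^ r) % 2 = 1 then node x r (j / 2 ^ r - 1) else 0) := by
  obtain ⟨q, hq⟩ : ∃ q, q = j / 2 ^ r := ⟨_, rfl⟩
  rw [← hq]
  have hdiv : j / 2 ^ (r + 1) = q / 2 := by
    rw [pow_succ, ← Nat.div_div_eq_div_mul, ← hq]
  have hle : 2 ^ r * q ≤ j := by rw [hq]; exact Nat.mul_div_le j (2 ^ r)
  unfold rest node
  rw [hdiv, ← hq]
  split_ifs with h
  · have h1 : 2 ^ (r + 1) * (q / 2) = 2 ^ r * (q - 1) := by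
      have : 2 * (q / 2) = q - 1 := by omega
      rw [pow_succ, mul_assoc, this]
    have h2 : q - 1 + 1 = q := by
      rcases Nat.eq_zero_or_pos q with h0 | h0
      · rw [h0] at h; simp at h
      · exact Nat.sub_add_cancel h0
    rw [h1, h2, add_comm]
    rw [Finset.sum_Ico_consecutive]
    · exact Nat.mul_le_mul_left _ (by omega)
    · exact hle
  · have h1 : 2 ^ (r + 1) * (q / 2) = 2 ^ r * q := by
      have : 2 * (q / 2) = q := by omega
      rw [pow_succ, mul_assoc, this]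
    rw [h1, add_zero]

theorem node_cut (x : ℕ → G) (j r q : ℕ) :
    node (cutN x j) r q = if q < j / 2 ^ r then node x r q else
      (if q = j / 2 ^ r then rest x j r else 0) := by
  have h2 : 0 < 2 ^ r := by positivity
  split_ifs with h h'
  · unfold node
    refine Finset.sum_congr rfl ?_
    intro l hl
    rw [Finset.mem_Ico] at hl
    have : l < j := by
      have h3 : 2 ^ r * (q + 1) ≤ 2 ^ r * (j / 2 ^ r) := Nat.mul_le_mul_left _ h
      have h4 := Nat.mul_div_le j (2 ^ r)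
      omega
    simp [cutN, this]
  · unfold node rest
    rw [← h']
    have h5 : j < 2 ^ r * (q + 1) := by
      rw [h']
      exact Nat.lt_mul_div_succ j h2
    have h6 : 2 ^ r * q ≤ j := by
      rw [h']; exact Nat.mul_div_le j (2 ^ r)
    rw [← Finset.sum_Ico_consecutive _ h6 h5.le]
    have h7 : ∑ l ∈ Ico j (2 ^ r * (q + 1)), cutN x j l = 0 := by
      refine Finset.sum_eq_zero ?_
      intro l hl
      rw [Finset.mem_Ico] at hl
      have : ¬ l < j := by omega
      simp [cutN, this]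
    rw [h7, add_zero]
    refine Finset.sum_congr rfl ?_
    intro l hl
    rw [Finset.mem_Ico] at hl
    simp [cutN, hl.2]
  · unfold node
    refine Finset.sum_eq_zero ?_
    intro l hl
    rw [Finset.mem_Ico] at hl
    have h8 : j / 2 ^ r < q := by omega
    have h9 : 2 ^ r * (j / 2 ^ r + 1) ≤ 2 ^ r * q := Nat.mul_le_mul_left _ h8
    have h10 : j < 2 ^ r * (j / 2 ^ r + 1) := Nat.lt_mul_div_succ j h2
    have : ¬ l < j := by omega
    simp [cutN, this]

/-- the recursion `ρ (r+1) ≤ θ (ρ r + u r)` summed up -/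
theorem sum_rho_le (θ : ℝ) (hθ0 : 0 < θ) (hθ1 : θ < 1) (ρ u : ℕ → ℝ) (hρ : ∀ r, 0 ≤ ρ r)
    (hu : ∀ r, 0 ≤ u r) (h0 : ρ 0 = 0) (hrec : ∀ r, ρ (r + 1) ≤ θ * (ρ r + u r)) (n : ℕ) :
    ∑ r ∈ range (n + 1), ρ r ^ 2 ≤ (θ / (1 - θ)) ^ 2 * ∑ r ∈ range n, u r ^ 2 := by
  have h1 : 0 < 1 - θ := by linarith
  have hpt : ∀ r, ρ (r + 1) ^ 2 ≤ θ * ρ r ^ 2 + θ ^ 2 / (1 - θ) * u r ^ 2 := by
    intro r
    have h2 : ρ (r + 1) ^ 2 ≤ (θ * (ρ r + u r)) ^ 2 := by
      have := hrec r
      have h3 := hρ (r + 1)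
      nlinarith
    refine h2.trans ?_
    have h4 : θ * ρ r ^ 2 + θ ^ 2 / (1 - θ) * u r ^ 2 - (θ * (ρ r + u r)) ^ 2 =
        θ / (1 - θ) * ((1 - θ) * ρ r - θ * u r) ^ 2 := by
      field_simp
      ring
    have h5 : 0 ≤ θ / (1 - θ) * ((1 - θ) * ρ r - θ * u r) ^ 2 := by positivity
    linarith
  have hS : ∑ r ∈ range (n + 1), ρ r ^ 2 ≤
      θ * ∑ r ∈ range n, ρ r ^ 2 + θ ^ 2 / (1 - θ) * ∑ r ∈ range n, u r ^ 2 := by
    rw [Finset.sum_range_succ', h0, Finset.mul_sum, Finset.mul_sum, ← Finset.sum_add_distrib]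
    simp only [ne_eq, OfNat.ofNat_ne_zero, not_false_eq_true, zero_pow, add_zero]
    exact Finset.sum_le_sum fun r _ => hpt r
  have hmono : ∑ r ∈ range n, ρ r ^ 2 ≤ ∑ r ∈ range (n + 1), ρ r ^ 2 := by
    rw [Finset.sum_range_succ]
    have := sq_nonneg (ρ n)
    linarith
  set P := ∑ r ∈ range (n + 1), ρ r ^ 2 with hP
  set U := ∑ r ∈ range n, u r ^ 2 with hU
  have h6 : (1 - θ) * P ≤ θ ^ 2 / (1 - θ) * U := by nlinarith
  have h7 : (θ / (1 - θ)) ^ 2 * U = (θ ^ 2 / (1 - θ) * U) / (1 - θ) := by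
    field_simp
  rw [h7, le_div_iff₀ h1]
  linarith

/-- the sum of the squares of the weighted node sums -/
def nodeSq (θ : ℝ) (n : ℕ) (x : ℕ → G) : ℝ :=
  ∑ r ∈ range (n + 1), ∑ q ∈ range (2 ^ (n - r)), (θ ^ r * ‖node x r q‖) ^ 2

theorem nodeSq_cut (θ : ℝ) (hθ0 : 0 < θ) (hθ1 : θ < 1) (n j : ℕ) (hj : j ≤ 2 ^ n) (x : ℕ → G) :
    nodeSq θ n (cutN x j) ≤ (1 + (θ / (1 - θ)) ^ 2) * nodeSq θ n x := by
  set ρ : ℕ → ℝ := fun r => θ ^ r * ‖rest x j r‖ with hρ
  set u : ℕ → ℝ := fun r => if (j / 2 ^ r) % 2 = 1 then θ ^ r * ‖node x r (j / 2 ^ r - 1)‖ else 0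
    with hu
  have hrho := sum_rho_le θ hθ0 hθ1 ρ u (fun r => by positivity)
    (fun r => by simp only [hu]; split_ifs <;> positivity)
    (by simp [hρ, rest_zero]) (by
      intro r
      have h1 : ‖rest x j (r + 1)‖ ≤ ‖rest x j r‖ +
          (if (j / 2 ^ r) % 2 = 1 then ‖node x r (j / 2 ^ r - 1)‖ else 0) := by
        rw [rest_succ]
        refine (norm_add_le _ _).trans ?_
        split_ifs
        · exact le_rfl
        · simp
      have h2 : θ ^ (r + 1) * ‖rest x j (r + 1)‖ ≤ θ ^ (r + 1) * (‖rest x j r‖ +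
          (if (j / 2 ^ r) % 2 = 1 then ‖node x r (j / 2 ^ r - 1)‖ else 0)) :=
        mul_le_mul_of_nonneg_left h1 (by positivity)
      refine h2.trans (le_of_eq ?_)
      simp only [hρ, hu]
      split_ifs <;> ring) n
  have hu2 : ∑ r ∈ range n, u r ^ 2 ≤ nodeSq θ n x := by
    unfold nodeSq
    rw [Finset.sum_range_succ]
    refine le_add_of_le_of_nonneg (Finset.sum_le_sum ?_) (by positivity)
    intro r hr
    rw [Finset.mem_range] at hr
    simp only [hu]
    split_ifs with h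
    · refine Finset.single_le_sum (f := fun q => (θ ^ r * ‖node x r q‖) ^ 2)
        (fun _ _ => by positivity) ?_
      rw [Finset.mem_range]
      have h3 : j / 2 ^ r ≤ 2 ^ (n - r) := by
        have h4 : (2 : ℕ) ^ n = 2 ^ (n - r) * 2 ^ r := by
          rw [← pow_add]; congr 1; omega
        rw [h4] at hj
        calc j / 2 ^ r ≤ 2 ^ (n - r) * 2 ^ r / 2 ^ r := Nat.div_le_div_right hj
          _ = 2 ^ (n - r) := Nat.mul_div_cancel _ (by positivity)
      have h5 : 0 < j / 2 ^ r := by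
        rcases Nat.eq_zero_or_pos (j / 2 ^ r) with h0 | h0
        · rw [h0] at h; simp at h
        · exact h0
      exact lt_of_lt_of_le (Nat.sub_lt h5 one_pos) h3
    · simp only [ne_eq, OfNat.ofNat_ne_zero, not_false_eq_true, zero_pow]
      positivity
  have hmain : nodeSq θ n (cutN x j) ≤ nodeSq θ n x + ∑ r ∈ range (n + 1), ρ r ^ 2 := by
    unfold nodeSq
    rw [← Finset.sum_add_distrib]
    refine Finset.sum_le_sum ?_
    intro r _
    have h1 : ∑ q ∈ range (2 ^ (n - r)), (θ ^ r * ‖node (cutN x j) r q‖) ^ 2 ≤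
        ∑ q ∈ range (2 ^ (n - r)), ((θ ^ r * ‖node x r q‖) ^ 2 +
          if q = j / 2 ^ r then ρ r ^ 2 else 0) := by
      refine Finset.sum_le_sum ?_
      intro q _
      rw [node_cut]
      split_ifs with h h' h'
      · omega
      · simp
      · have : 0 ≤ (θ ^ r * ‖node x r q‖) ^ 2 := by positivity
        simp only [hρ]
        linarith
      · simp only [norm_zero, mul_zero, ne_eq, OfNat.ofNat_ne_zero, not_false_eq_true, zero_pow,
          add_zero]
        positivity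
    refine h1.trans ?_
    rw [Finset.sum_add_distrib, Finset.sum_ite_eq']
    split_ifs
    · exact le_rfl
    · have : 0 ≤ ρ r ^ 2 := by positivity
      linarith
  have h8 : (θ / (1 - θ)) ^ 2 * ∑ r ∈ range n, u r ^ 2 ≤ (θ / (1 - θ)) ^ 2 * nodeSq θ n x :=
    mul_le_mul_of_nonneg_left hu2 (by positivity)
  linarith

/-- the contribution of a single vector -/
theorem nodeSq_single (θ : ℝ) (hθ0 : 0 < θ) (hθ1 : θ < 1) (n j : ℕ) (v : G) :
    nodeSq θ n (fun l => if l = j then v else 0) ≤ (1 / (1 - θ ^ 2)) * ‖v‖ ^ 2 := by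
  unfold nodeSq
  have hnode : ∀ r q, node (fun l => if l = j then v else 0) r q =
      if q = j / 2 ^ r then v else 0 := by
    intro r q
    unfold node
    rw [Finset.sum_ite_eq']
    have h2 : 0 < 2 ^ r := by positivity
    have : j ∈ Ico (2 ^ r * q) (2 ^ r * (q + 1)) ↔ q = j / 2 ^ r := by
      rw [Finset.mem_Ico]
      constructor
      · rintro ⟨h3, h4⟩
        symm
        rw [Nat.div_eq_iff h2]
        constructor
        · rw [mul_comm]; exact h3
        · have : 2 ^ r * (q + 1) = q * 2 ^ r + 2 ^ r := by ring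
          omega
      · rintro rfl
        exact ⟨Nat.mul_div_le j _, Nat.lt_mul_div_succ j h2⟩
    simp only [this]
  have h1 : ∀ r ∈ range (n + 1), ∑ q ∈ range (2 ^ (n - r)),
      (θ ^ r * ‖node (fun l => if l = j then v else 0) r q‖) ^ 2 ≤ (θ ^ 2) ^ r * ‖v‖ ^ 2 := by
    intro r _
    have h2 : ∑ q ∈ range (2 ^ (n - r)),
        (θ ^ r * ‖node (fun l => if l = j then v else 0) r q‖) ^ 2 =
        ∑ q ∈ range (2 ^ (n - r)), if q = j / 2 ^ r then (θ ^ 2) ^ r * ‖v‖ ^ 2 else 0 := by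
      refine Finset.sum_congr rfl ?_
      intro q _
      rw [hnode]
      split_ifs
      · ring
      · simp
    rw [h2, Finset.sum_ite_eq']
    split_ifs
    · exact le_rfl
    · positivity
  refine (Finset.sum_le_sum h1).trans ?_
  rw [← Finset.sum_mul]
  refine mul_le_mul_of_nonneg_right ?_ (by positivity)
  have hθ2 : θ ^ 2 < 1 := by nlinarith
  have h5 : 0 < 1 - θ ^ 2 := by linarith
  rw [geom_sum_eq hθ2.ne]
  rw [← neg_div_neg_eq, neg_sub, neg_sub]
  refine div_le_div_of_nonneg_right ?_ h5.le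
  have : 0 ≤ (θ ^ 2) ^ (n + 1) := by positivity
  linarith

/-- the constant sequence -/
theorem nodeSq_const (θ : ℝ) (n : ℕ) [NormedSpace ℝ G] (v : G) :
    nodeSq θ n (fun _ => v) = (∑ r ∈ range (n + 1), (2 : ℝ) ^ (n - r) * (2 ^ r * θ ^ r) ^ 2) *
      ‖v‖ ^ 2 := by
  unfold nodeSq
  rw [Finset.sum_mul]
  refine Finset.sum_congr rfl ?_
  intro r _
  have h1 : ∀ q, node (fun _ => v) r q = (2 ^ r : ℝ) • v := by
    intro q
    unfold node
    rw [Finset.sum_const, Nat.card_Ico]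
    have : 2 ^ r * (q + 1) - 2 ^ r * q = 2 ^ r := by
      rw [mul_add, mul_one, Nat.add_sub_cancel_left]
    rw [this, ← Nat.cast_smul_eq_nsmul ℝ]
    push_cast
    rfl
  simp only [h1]
  rw [Finset.sum_const, card_range, nsmul_eq_mul, norm_smul]
  push_cast
  rw [Real.norm_of_nonneg (by positivity)]
  ring

end Run7.h35
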