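import Mathlib

set_option autoImplicit false

namespace Run7.h35

open Filter Topology Finset

/-- limit along the hyperfilter on `ℕ` of a pointwise bounded family of seminorms -/
theorem exists_ulim (u : ℕ → ℝ) (B : ℝ) (h : ∀ n, |u n| ≤ B) :
    ∃ l, Tendsto u (hyperfilter ℕ) (𝓝 l) := by
  have h1 : ((hyperfilter ℕ).map u : Ultrafilter ℝ) ≤ 𝓟 (Set.Icc (-B) B) := by
    rw [le_principal_iff]
    change ∀ᶠ n in (hyperfilter ℕ : Filter ℕ), u n ∈ Set.Icc (-B) B
    refine Eventually.of_forall fun n => ?_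
    rw [Set.mem_Icc, ← abs_le]
    exact h n
  obtain ⟨x, -, hx⟩ := isCompact_Icc.ultrafilter_le_nhds _ h1
  exact ⟨x, hx⟩

variable {W : Type*} [AddCommGroup W] [Module ℝ W]

open Classical in
/-- the limit seminorm -/
noncomputable def slim (q : ℕ → Seminorm ℝ W) : Seminorm ℝ W :=
  if h : ∀ x, ∃ l, Tendsto (fun n => q n x) (hyperfilter ℕ) (𝓝 l) then
    Seminorm.of (fun x => (h x).choose)
      (fun x y => by
        refine le_of_tendsto_of_tendsto (h (x + y)).choose_spec
          ((h x).choose_spec.add (h y).choose_spec) ?_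
        exact Eventually.of_forall fun n => map_add_le_add (q n) x y)
      (fun a x => by
        refine tendsto_nhds_unique (h (a • x)).choose_spec ?_
        have := (h x).choose_spec.const_mul ‖a‖
        refine this.congr fun n => ?_
        rw [map_smul_eq_mul])
  else 0

theorem tendsto_slim (q : ℕ → Seminorm ℝ W) (h : ∀ x, ∃ B, ∀ n, q n x ≤ B) (x : W) :
    Tendsto (fun n => q n x) (hyperfilter ℕ) (𝓝 (slim q x)) := by
  have h' : ∀ x, ∃ l, Tendsto (fun n => q n x) (hyperfilter ℕ) (𝓝 l) := by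
    intro x
    obtain ⟨B, hB⟩ := h x
    refine exists_ulim _ B fun n => ?_
    rw [abs_of_nonneg (apply_nonneg _ _)]
    exact hB n
  have h1 : slim q x = (h' x).choose := by
    unfold slim
    rw [dif_pos h']
    rfl
  rw [h1]
  exact (h' x).choose_spec

theorem slim_le (q : ℕ → Seminorm ℝ W) (x : W) (B : ℝ) (hB : ∀ n, q n x ≤ B)
    (h : ∀ x, ∃ B, ∀ n, q n x ≤ B) : slim q x ≤ B :=
  le_of_tendsto (tendsto_slim q h x) (Eventually.of_forall hB)

theorem le_slim (q : ℕ → Seminorm ℝ W) (x : W) (B : ℝ) (hB : ∀ n, B ≤ q n x)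
    (h : ∀ x, ∃ B, ∀ n, q n x ≤ B) : B ≤ slim q x :=
  ge_of_tendsto (tendsto_slim q h x) (Eventually.of_forall hB)

/-- a seminorm dominated by a fixed function along the whole family -/
theorem slim_le_of (q : ℕ → Seminorm ℝ W) (B : W → ℝ) (hB : ∀ n x, q n x ≤ B x) (x : W) :
    slim q x ≤ B x :=
  slim_le q x (B x) (fun n => hB n x) fun x => ⟨B x, fun n => hB n x⟩

theorem tendsto_slim' (q : ℕ → Seminorm ℝ W) (B : W → ℝ) (hB : ∀ n x, q n x ≤ B x) (x : W) :
    Tendsto (fun n => q n x) (hyperfilter ℕ) (𝓝 (slim q x)) :=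
  tendsto_slim q (fun x => ⟨B x, fun n => hB n x⟩) x

section val

variable {V X : Type*} [NormedAddCommGroup V] [NormedSpace ℝ V] [AddCommGroup X] [Module ℝ X]

/-- the shift of a sequence -/
def shiftL : (ℕ → V) →ₗ[ℝ] (ℕ → V) where
  toFun x := fun i => x (i + 1)
  map_add' _ _ := rfl
  map_smul' _ _ := rfl

/-- one step: consume the first vector as the difference of its copies `n` and `m` -/
def stepL (J : ℕ → V →ₗ[ℝ] X) (m n : ℕ) : ((ℕ → V) × X) →ₗ[ℝ] ((ℕ → V) × X) where
  toFun z := (shiftL z.1, z.2 + J n (z.1 0) - J m (z.1 0))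
  map_add' z w := by
    refine Prod.ext ?_ ?_
    · simp
    · simp only [Prod.fst_add, Prod.snd_add, Pi.add_apply, map_add]
      abel
  map_smul' a z := by
    refine Prod.ext ?_ ?_
    · simp
    · simp only [Prod.smul_fst, Prod.smul_snd, Pi.smul_apply, map_smul, RingHom.id_apply,
        smul_add, smul_sub]

/-- the iterated limit seminorm -/
noncomputable def val (β : Seminorm ℝ X) (J : ℕ → V →ₗ[ℝ] X) : ℕ → Seminorm ℝ ((ℕ → V) × X)
  | 0 => β.comp (LinearMap.snd ℝ (ℕ → V) X)
  | r + 1 => slim fun m => slim fun n => (val β J r).comp (stepL J m n)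

/-- the bound for `val` -/
noncomputable def bd (β : Seminorm ℝ X) (b : ℝ) (r : ℕ) (z : (ℕ → V) × X) : ℝ :=
  β z.2 + 2 * b * ∑ i ∈ range r, ‖z.1 i‖

theorem bd_step (β : Seminorm ℝ X) (J : ℕ → V →ₗ[ℝ] X) (b : ℝ)
    (hJ : ∀ n v, β (J n v) ≤ b * ‖v‖) (r m n : ℕ) (z : (ℕ → V) × X) :
    bd β b r (stepL J m n z) ≤ bd β b (r + 1) z := by
  unfold bd
  rw [Finset.sum_range_succ']
  have h1 : (stepL J m n z).2 = z.2 + J n (z.1 0) - J m (z.1 0) := rfl
  have h2 : (stepL J m n z).1 = shiftL z.1 := rfl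
  rw [h1, h2]
  have h3 : β (z.2 + J n (z.1 0) - J m (z.1 0)) ≤ β z.2 + b * ‖z.1 0‖ + b * ‖z.1 0‖ := by
    refine (map_sub_le_add β _ _).trans ?_
    have h4 := map_add_le_add β z.2 (J n (z.1 0))
    have h5 := hJ n (z.1 0)
    have h6 := hJ m (z.1 0)
    linarith
  have h7 : ∑ i ∈ range r, ‖shiftL z.1 i‖ = ∑ i ∈ range r, ‖z.1 (i + 1)‖ := rfl
  rw [h7, mul_add]
  linarith

theorem val_le (β : Seminorm ℝ X) (J : ℕ → V →ₗ[ℝ] X) (b : ℝ)
    (hJ : ∀ n v, β (J n v) ≤ b * ‖v‖) (r : ℕ) (z : (ℕ → V) × X) :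
    val β J r z ≤ bd β b r z := by
  induction r generalizing z with
  | zero => simp [val, bd]
  | succ r ih =>
    have h1 : ∀ m n z, ((val β J r).comp (stepL J m n)) z ≤ bd β b (r + 1) z := by
      intro m n z
      rw [Seminorm.comp_apply]
      exact (ih _).trans (bd_step β J b hJ r m n z)
    exact slim_le_of _ (bd β b (r + 1)) (fun m z => slim_le_of _ (bd β b (r + 1)) (h1 m) z) z

variable (β : Seminorm ℝ X) (J : ℕ → V →ₗ[ℝ] X) (b : ℝ)

/-- the inner limits converge -/
theorem tendsto_inner (hJ : ∀ n v, β (J n v) ≤ b * ‖v‖) (r m : ℕ) (z : (ℕ → V) × X) :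
    Tendsto (fun n => val β J r (stepL J m n z)) (hyperfilter ℕ)
      (𝓝 (slim (fun n => (val β J r).comp (stepL J m n)) z)) := by
  have := tendsto_slim' (fun n => (val β J r).comp (stepL J m n)) (bd β b (r + 1))
    (fun n z => by
      rw [Seminorm.comp_apply]
      exact (val_le β J b hJ r _).trans (bd_step β J b hJ r m n z)) z
  exact this

theorem tendsto_outer (hJ : ∀ n v, β (J n v) ≤ b * ‖v‖) (r : ℕ) (z : (ℕ → V) × X) :
    Tendsto (fun m => slim (fun n => (val β J r).comp (stepL J m n)) z) (hyperfilter ℕ)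
      (𝓝 (val β J (r + 1) z)) := by
  have := tendsto_slim' (fun m => slim fun n => (val β J r).comp (stepL J m n))
    (bd β b (r + 1)) (fun m z => slim_le_of _ (bd β b (r + 1)) (fun n z => by
      rw [Seminorm.comp_apply]
      exact (val_le β J b hJ r _).trans (bd_step β J b hJ r m n z)) z) z
  exact this

/-- comparison principle: if `val r (step z) ≤ val s (step w)` for all `m n` -/
theorem val_succ_le (hJ : ∀ n v, β (J n v) ≤ b * ‖v‖) (r : ℕ) (z : (ℕ → V) × X) (B : ℝ)
    (h : ∀ m n, val β J r (stepL J m n z) ≤ B) : val β J (r + 1) z ≤ B :=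
  le_of_tendsto (tendsto_outer β J b hJ r z) (Eventually.of_forall fun m =>
    le_of_tendsto (tendsto_inner β J b hJ r m z) (Eventually.of_forall fun n => h m n))

theorem le_val_succ (hJ : ∀ n v, β (J n v) ≤ b * ‖v‖) (r : ℕ) (z : (ℕ → V) × X) (B : ℝ)
    (h : ∀ m n, B ≤ val β J r (stepL J m n z)) : B ≤ val β J (r + 1) z :=
  ge_of_tendsto (tendsto_outer β J b hJ r z) (Eventually.of_forall fun m =>
    ge_of_tendsto (tendsto_inner β J b hJ r m z) (Eventually.of_forall fun n => h m n))

theorem val_succ_mono (hJ : ∀ n v, β (J n v) ≤ b * ‖v‖) (r : ℕ) (z w : (ℕ → V) × X)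
    (h : ∀ m n, val β J r (stepL J m n z) ≤ val β J r (stepL J m n w)) :
    val β J (r + 1) z ≤ val β J (r + 1) w :=
  le_of_tendsto_of_tendsto (tendsto_outer β J b hJ r z) (tendsto_outer β J b hJ r w)
    (Eventually.of_forall fun m => le_of_tendsto_of_tendsto (tendsto_inner β J b hJ r m z)
      (tendsto_inner β J b hJ r m w) (Eventually.of_forall fun n => h m n))

/-- good pairs -/
theorem eventually_lt_of_val_lt (hJ : ∀ n v, β (J n v) ≤ b * ‖v‖) (r : ℕ) (z : (ℕ → V) × X)
    (δ : ℝ) (hδ : 0 < δ) :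
    ∀ᶠ m in (hyperfilter ℕ : Filter ℕ), ∀ᶠ n in (hyperfilter ℕ : Filter ℕ),
      |val β J r (stepL J m n z) - val β J (r + 1) z| < δ := by
  have h1 := (tendsto_outer β J b hJ r z).eventually
    (Metric.ball_mem_nhds (val β J (r + 1) z) (half_pos hδ))
  filter_upwards [h1] with m hm
  have h2 := (tendsto_inner β J b hJ r m z).eventually
    (Metric.ball_mem_nhds (slim (fun n => (val β J r).comp (stepL J m n)) z) (half_pos hδ))
  filter_upwards [h2] with n hn
  rw [Real.dist_eq] at hm hn
  have h3 := abs_add_le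
    (val β J r (stepL J m n z) - slim (fun n => (val β J r).comp (stepL J m n)) z)
    (slim (fun n => (val β J r).comp (stepL J m n)) z - val β J (r + 1) z)
  rw [sub_add_sub_cancel] at h3
  linarith

/-- dropping the first vector decreases `val` -/
theorem val_shift_le (hb : 0 ≤ b) (hJ : ∀ n v, β (J n v) ≤ b * ‖v‖) (r : ℕ) (x : ℕ → V) (y : X) :
    val β J r (shiftL x, y) ≤ val β J (r + 1) (x, y) := by
  set lam := val β J (r + 1) (x, y) with hlam
  refine le_of_forall_pos_le_add fun δ hδ => ?_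
  -- choose a chain of good pairs
  set P : ℕ → ℕ → Prop := fun m n => |val β J r (stepL J m n (x, y)) - lam| < δ / 2 with hP
  have hgood := eventually_lt_of_val_lt β J b hJ r (x, y) (δ / 2) (half_pos hδ)
  set M : Set ℕ := {m | ∀ᶠ n in (hyperfilter ℕ : Filter ℕ), P m n} with hM
  have hMU : M ∈ (hyperfilter ℕ : Filter ℕ) := hgood
  have hnext : ∀ m : M, ∃ m' : M, P m m' := by
    rintro ⟨m, hm⟩
    have : M ∩ {n | P m n} ∈ (hyperfilter ℕ : Filter ℕ) := inter_mem hMU hm
    obtain ⟨n, hn⟩ := (hyperfilter ℕ : Ultrafilter ℕ).neBot.nonempty_of_mem this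
    exact ⟨⟨n, hn.1⟩, hn.2⟩
  obtain ⟨m₀, hm₀⟩ := (hyperfilter ℕ : Ultrafilter ℕ).neBot.nonempty_of_mem hMU
  choose g hg using hnext
  set f : ℕ → M := fun s => g^[s] ⟨m₀, hm₀⟩ with hf
  have hfs : ∀ s, P (f s) (f (s + 1)) := by
    intro s
    have : f (s + 1) = g (f s) := by
      simp only [hf]
      rw [Function.iterate_succ_apply']
    rw [this]
    exact hg (f s)
  -- the average
  set v := x 0 with hv
  obtain ⟨L, hL⟩ := exists_nat_gt (2 * b * ‖v‖ / (δ / 2))
  have hL0 : (0 : ℝ) < L := lt_of_le_of_lt (by positivity) hL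
  have hsum : ∀ L : ℕ, ∑ s ∈ range L, (J (f (s + 1)) v - J (f s) v) = J (f L) v - J (f 0) v :=
    fun L => Finset.sum_range_sub (fun s => J (f s) v) L
  set z : X := (L : ℝ)⁻¹ • (J (f L) v - J (f 0) v) with hz
  have h1 : ((L : ℝ)⁻¹ : ℝ) • ∑ s ∈ range L, stepL J (f s) (f (s + 1)) (x, y) =
      ((shiftL x, y + z) : (ℕ → V) × X) := by
    have h2 : ∀ s, stepL J (f s) (f (s + 1)) (x, y) =
        ((shiftL x, y) : (ℕ → V) × X) + ((0 : ℕ → V), J (f (s + 1)) v - J (f s) v) := by
      intro s
      refine Prod.ext ?_ ?_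
      · simp [stepL]
      · simp only [stepL, LinearMap.coe_mk, AddHom.coe_mk, Prod.snd_add]
        abel
    simp_rw [h2]
    rw [Finset.sum_add_distrib, Finset.sum_const, card_range]
    have h3 : ∑ s ∈ range L, ((0 : ℕ → V), J (f (s + 1)) v - J (f s) v) =
        (((0 : ℕ → V), J (f L) v - J (f 0) v) : (ℕ → V) × X) := by
      refine Prod.ext ?_ ?_
      · rw [Prod.fst_sum]; simp
      · rw [Prod.snd_sum]
        exact hsum L
    rw [h3, smul_add, ← Nat.cast_smul_eq_nsmul ℝ, smul_smul, inv_mul_cancel₀ hL0.ne', one_smul]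
    refine Prod.ext ?_ ?_
    · simp
    · simp [hz]
  have h4 : val β J r (shiftL x, y + z) ≤ lam + δ / 2 := by
    rw [← h1, map_smul_eq_mul, Real.norm_of_nonneg (by positivity)]
    have h5 : val β J r (∑ s ∈ range L, stepL J (f s) (f (s + 1)) (x, y)) ≤
        ∑ s ∈ range L, val β J r (stepL J (f s) (f (s + 1)) (x, y)) :=
      Finset.le_sum_of_subadditive (val β J r) (map_zero _).le (map_add_le_add _) _ _
    have h6 : ∑ s ∈ range L, val β J r (stepL J (f s) (f (s + 1)) (x, y)) ≤
        ∑ s ∈ range L, (lam + δ / 2) := by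
      refine Finset.sum_le_sum fun s _ => ?_
      have := hfs s
      simp only [hP] at this
      rw [abs_lt] at this
      linarith [this.2]
    rw [Finset.sum_const, card_range, nsmul_eq_mul] at h6
    rw [inv_mul_le_iff₀ hL0]
    exact h5.trans h6
  have h7 : β z ≤ δ / 2 := by
    rw [hz, map_smul_eq_mul, Real.norm_of_nonneg (by positivity), inv_mul_le_iff₀ hL0]
    have h8 := map_sub_le_add β (J (f L) v) (J (f 0) v)
    have h9 := hJ (f L) v
    have h10 := hJ (f 0) v
    rw [div_lt_iff₀ (by positivity)] at hL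
    linarith
  have h11 : val β J r (shiftL x, y) ≤ val β J r (shiftL x, y + z) + β z := by
    have h12 : ((shiftL x, y) : (ℕ → V) × X) = (shiftL x, y + z) + ((0 : ℕ → V), -z) := by
      refine Prod.ext ?_ ?_
      · simp
      · simp
    have h13 := map_add_le_add (val β J r) ((shiftL x, y + z) : (ℕ → V) × X) ((0 : ℕ → V), -z)
    rw [← h12] at h13
    have h14 := val_le β J b hJ r ((0 : ℕ → V), -z)
    have h15 : bd β b r (((0 : ℕ → V), -z) : (ℕ → V) × X) = β z := by
      simp [bd]
    rw [h15] at h14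
    linarith
  linarith

theorem stepL_of_zero (x : ℕ → V) (y : X) (hx : x 0 = 0) (m n : ℕ) :
    stepL J m n (x, y) = (shiftL x, y) := by
  refine Prod.ext ?_ ?_
  · simp [stepL]
  · simp [stepL, hx]

theorem val_succ_of_zero (hJ : ∀ n v, β (J n v) ≤ b * ‖v‖) (r : ℕ) (x : ℕ → V) (y : X)
    (hx : x 0 = 0) : val β J (r + 1) (x, y) = val β J r (shiftL x, y) := by
  refine le_antisymm ?_ ?_
  · refine val_succ_le β J b hJ r _ _ fun m n => ?_
    rw [stepL_of_zero J x y hx]
  · refine le_val_succ β J b hJ r _ _ fun m n => ?_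
    rw [stepL_of_zero J x y hx]

theorem val_zero_seq (hJ : ∀ n v, β (J n v) ≤ b * ‖v‖) (r : ℕ) (y : X) :
    val β J r ((0 : ℕ → V), y) = β y := by
  induction r with
  | zero => simp [val]
  | succ r ih =>
    rw [val_succ_of_zero β J b hJ r _ _ rfl]
    have : shiftL (0 : ℕ → V) = 0 := map_zero _
    rw [this, ih]

open Classical in
/-- suppression unconditionality -/
theorem val_restrict_le (hb : 0 ≤ b) (hJ : ∀ n v, β (J n v) ≤ b * ‖v‖) (r : ℕ) (S : Set ℕ)
    (x : ℕ → V) (y : X) :
    val β J r ((fun i => if i ∈ S then x i else 0), y) ≤ val β J r (x, y) := by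
  induction r generalizing S x y with
  | zero => simp [val]
  | succ r ih =>
    have hsh : shiftL (fun i => if i ∈ S then x i else (0 : V)) =
        fun i => if i ∈ {i | i + 1 ∈ S} then shiftL x i else 0 := by
      funext i
      rfl
    by_cases h0 : 0 ∈ S
    · refine val_succ_mono β J b hJ r _ _ fun m n => ?_
      have h1 : stepL J m n ((fun i => if i ∈ S then x i else (0 : V)), y) =
          ((fun i => if i ∈ {i | i + 1 ∈ S} then shiftL x i else 0),
            (stepL J m n (x, y)).2) := by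
        refine Prod.ext ?_ ?_
        · exact hsh
        · simp [stepL, h0]
      rw [h1]
      exact ih _ _ _
    · rw [val_succ_of_zero β J b hJ r _ _ (by simp [h0]), hsh]
      exact (ih _ _ _).trans (val_shift_le β J b hb hJ r x y)

/-- the value on a single vector does not depend on the position -/
theorem val_single (hJ : ∀ n v, β (J n v) ≤ b * ‖v‖) (r a : ℕ) (ha : a < r) (v : V) :
    val β J r ((Pi.single a v : ℕ → V), 0) = val β J 1 ((Pi.single 0 v : ℕ → V), 0) := by
  induction r generalizing a with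
  | zero => exact absurd ha (by omega)
  | succ r ih =>
    rcases Nat.eq_zero_or_pos a with h0 | h0
    · subst h0
      have h1 : ∀ r m n, val β J r (stepL J m n ((Pi.single 0 v : ℕ → V), (0 : X))) =
          β (J n v - J m v) := by
        intro r m n
        have : stepL J m n ((Pi.single 0 v : ℕ → V), (0 : X)) = ((0 : ℕ → V), J n v - J m v) := by
          refine Prod.ext ?_ ?_
          · funext i
            simp [stepL, shiftL]
          · simp [stepL]
        rw [this, val_zero_seq β J b hJ]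
      refine le_antisymm ?_ ?_
      · refine le_of_tendsto_of_tendsto (tendsto_outer β J b hJ r _) (tendsto_outer β J b hJ 0 _)
          (Eventually.of_forall fun m => le_of_tendsto_of_tendsto (tendsto_inner β J b hJ r m _)
            (tendsto_inner β J b hJ 0 m _) (Eventually.of_forall fun n => ?_))
        exact ((h1 r m n).trans (h1 0 m n).symm).le
      · refine le_of_tendsto_of_tendsto (tendsto_outer β J b hJ 0 _) (tendsto_outer β J b hJ r _)
          (Eventually.of_forall fun m => le_of_tendsto_of_tendsto (tendsto_inner β J b hJ 0 m _)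
            (tendsto_inner β J b hJ r m _) (Eventually.of_forall fun n => ?_))
        exact ((h1 0 m n).trans (h1 r m n).symm).le
    · obtain ⟨a', rfl⟩ : ∃ a', a = a' + 1 := ⟨a - 1, by omega⟩
      rw [val_succ_of_zero β J b hJ r _ _ (by
        rw [Pi.single_apply, if_neg (by omega)])]
      have : shiftL (Pi.single (a' + 1) v : ℕ → V) = Pi.single a' v := by
        funext i
        simp only [shiftL, LinearMap.coe_mk, AddHom.coe_mk, Pi.single_apply]
        by_cases h : i = a'
        · simp [h]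
        · rw [if_neg (by omega), if_neg h]
      rw [this]
      exact ih a' (by omega)

/-- the realization map -/
noncomputable def realL (mm nn : ℕ → ℕ) (r : ℕ) : (ℕ → V) →ₗ[ℝ] X :=
  ∑ a ∈ range r, (J (nn a) - J (mm a)) ∘ₗ LinearMap.proj a

theorem realL_apply (mm nn : ℕ → ℕ) (r : ℕ) (x : ℕ → V) :
    realL J mm nn r x = ∑ a ∈ range r, (J (nn a) (x a) - J (mm a) (x a)) := by
  simp [realL]

/-- finite approximation of the iterated limit -/
theorem exists_approx (hJ : ∀ n v, β (J n v) ≤ b * ‖v‖) (r : ℕ)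
    (F : Finset ((ℕ → V) × X)) (δ : ℝ) (hδ : 0 < δ) :
    ∃ mm nn : ℕ → ℕ, ∀ z ∈ F, |β (z.2 + realL J mm nn r z.1) - val β J r z| < δ := by
  classical
  induction r generalizing F δ with
  | zero =>
    refine ⟨fun _ => 0, fun _ => 0, fun z _ => ?_⟩
    have : val β J 0 z = β z.2 := rfl
    rw [this, realL_apply]
    simpa using hδ
  | succ r ih =>
    have h1 : ∀ᶠ m in (hyperfilter ℕ : Filter ℕ), ∀ z ∈ F, ∀ᶠ n in (hyperfilter ℕ : Filter ℕ),
        |val β J r (stepL J m n z) - val β J (r + 1) z| < δ / 2 := by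
      rw [Filter.eventually_all_finset]
      intro z _
      exact eventually_lt_of_val_lt β J b hJ r z (δ / 2) (half_pos hδ)
    obtain ⟨m, hm⟩ := h1.exists
    have h2 : ∀ᶠ n in (hyperfilter ℕ : Filter ℕ), ∀ z ∈ F,
        |val β J r (stepL J m n z) - val β J (r + 1) z| < δ / 2 := by
      rw [Filter.eventually_all_finset]
      exact hm
    obtain ⟨n, hn⟩ := h2.exists
    obtain ⟨mm, nn, hmn⟩ := ih (F.image (stepL J m n)) (δ / 2) (half_pos hδ)
    refine ⟨fun a => Nat.casesOn a m mm, fun a => Nat.casesOn a n nn, fun z hz => ?_⟩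
    have h3 := hmn _ (Finset.mem_image_of_mem _ hz)
    have h4 := hn z hz
    have h5 : z.2 + realL J (fun a => Nat.casesOn a m mm) (fun a => Nat.casesOn a n nn) (r + 1) z.1
        = (stepL J m n z).2 + realL J mm nn r (stepL J m n z).1 := by
      rw [realL_apply, realL_apply, Finset.sum_range_succ']
      simp only [stepL, shiftL, LinearMap.coe_mk, AddHom.coe_mk]
      abel
    rw [h5]
    have h6 := abs_add_le (β ((stepL J m n z).2 + realL J mm nn r (stepL J m n z).1) -
      val β J r (stepL J m n z)) (val β J r (stepL J m n z) - val β J (r + 1) z)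
    rw [sub_add_sub_cancel] at h6
    linarith

end val

end Run7.h35
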