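import Pool.Agent.Run7.h35.Select
import Pool.Agent.Run7.h35.Spread

set_option autoImplicit false

namespace Run7.h35

open Finset Module Filter Topology

/-- a definite seminorm on a finite-dimensional space is bounded below -/
theorem exists_lower_bound {V : Type*} [NormedAddCommGroup V] [NormedSpace ℝ V]
    [FiniteDimensional ℝ V] (p : Seminorm ℝ V) (B : ℝ) (hpB : ∀ x, p x ≤ B * ‖x‖)
    (hdef : ∀ x, p x = 0 → x = 0) : ∃ c : ℝ, 0 < c ∧ ∀ x, c * ‖x‖ ≤ p x := by
  have hlip : ∀ x y, |p x - p y| ≤ B * ‖x - y‖ := by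
    intro x y
    rw [abs_le]
    have h1 : p x ≤ p (x - y) + p y := by
      have := map_add_le_add p (x - y) y
      rwa [sub_add_cancel] at this
    have h2 : p y ≤ p (x - y) + p x := by
      have := map_add_le_add p (y - x) x
      rw [sub_add_cancel] at this
      rwa [map_sub_rev] at this
    have h3 := hpB (x - y)
    constructor <;> linarith
  have hcont : Continuous p := by
    have hK : LipschitzWith (Real.toNNReal B) p := by
      refine LipschitzWith.of_dist_le_mul fun x y => ?_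
      rw [Real.dist_eq, dist_eq_norm]
      refine (hlip x y).trans ?_
      exact mul_le_mul_of_nonneg_right (Real.le_coe_toNNReal B) (norm_nonneg _)
    exact hK.continuous
  rcases (Metric.sphere (0 : V) 1).eq_empty_or_nonempty with he | hne
  · refine ⟨1, one_pos, fun x => ?_⟩
    have hx : x = 0 := by
      by_contra hx
      have hxn : 0 < ‖x‖ := norm_pos_iff.mpr hx
      have : (‖x‖⁻¹ : ℝ) • x ∈ Metric.sphere (0 : V) 1 := by
        rw [mem_sphere_iff_norm, sub_zero, norm_smul, norm_inv, norm_norm, inv_mul_cancel₀ hxn.ne']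
      rw [he] at this
      exact this
    simp [hx]
  · obtain ⟨x₀, hx₀, hmin⟩ := (isCompact_sphere (0 : V) 1).exists_isMinOn hne hcont.continuousOn
    have hx₀' : ‖x₀‖ = 1 := by simpa using hx₀
    have hpos : 0 < p x₀ := by
      refine lt_of_le_of_ne (apply_nonneg _ _) (fun h => ?_)
      have := hdef _ h.symm
      rw [this] at hx₀'
      simp at hx₀'
    refine ⟨p x₀, hpos, fun x => ?_⟩
    rcases eq_or_ne x 0 with rfl | hx
    · simp
    · have hxn : 0 < ‖x‖ := norm_pos_iff.mpr hx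
      have h1 : p x₀ ≤ p ((‖x‖⁻¹ : ℝ) • x) := by
        apply hmin
        rw [mem_sphere_iff_norm, sub_zero, norm_smul, norm_inv, norm_norm,
          inv_mul_cancel₀ hxn.ne']
      rw [map_smul_eq_mul, Real.norm_of_nonneg (by positivity)] at h1
      have h2 := mul_le_mul_of_nonneg_right h1 hxn.le
      rw [mul_comm (‖x‖⁻¹), mul_assoc, inv_mul_cancel₀ hxn.ne', mul_one] at h2
      exact h2

section main

variable {k : ℕ} (D C₀ D' : ℝ) (β : ℕ → Seminorm ℝ (ℕ →₀ Eu k))
  (hβ : ∀ R, Sys k D C₀ D' R (β R))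

/-- the pointwise bound -/
noncomputable def Bx (x : ℕ →₀ Eu k) : ℝ := ∑ i ∈ x.support, (k + 1) * ‖x i‖

/-- the limit seminorm -/
noncomputable def bInf (β : ℕ → Seminorm ℝ (ℕ →₀ Eu k)) : Seminorm ℝ (ℕ →₀ Eu k) := slim β

/-- the embeddings -/
noncomputable abbrev Js (k : ℕ) : ℕ → Eu k →ₗ[ℝ] (ℕ →₀ Eu k) := fun n => Finsupp.lsingle n

include hβ in
theorem beta_le_Bx (R : ℕ) (x : ℕ →₀ Eu k) : β R x ≤ Bx x := by
  have h1 : x = ∑ i ∈ x.support, Finsupp.lsingle (R := ℝ) i (x i) := by
    conv_lhs => rw [← Finsupp.sum_single x]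
    rfl
  conv_lhs => rw [h1]
  refine (Finset.le_sum_of_subadditive (β R) (map_zero _).le (map_add_le_add _) _ _).trans ?_
  exact Finset.sum_le_sum fun i _ => (hβ R).b1 i (x i)

include hβ in
theorem tendsto_bInf (x : ℕ →₀ Eu k) :
    Tendsto (fun R => β R x) (hyperfilter ℕ) (𝓝 (bInf β x)) :=
  tendsto_slim' β Bx (fun R x => beta_le_Bx D C₀ D' β hβ R x) x

include hβ in
theorem bInf_single_le (n : ℕ) (v : Eu k) : bInf β (Js k n v) ≤ (k + 1) * ‖v‖ :=
  le_of_tendsto (tendsto_bInf D C₀ D' β hβ _) (Eventually.of_forall fun R => (hβ R).b1 n v)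

theorem eventually_gt_hyper (n : ℕ) : ∀ᶠ R in (hyperfilter ℕ : Filter ℕ), n < R :=
  (eventually_gt_atTop n).filter_mono Nat.hyperfilter_le_atTop

include hβ in
theorem bInf_lower (n : ℕ) (v : Eu k) : ‖v‖ ≤ (k + 1) * bInf β (Js k n v) := by
  refine ge_of_tendsto ((tendsto_bInf D C₀ D' β hβ (Js k n v)).const_mul ((k : ℝ) + 1)) ?_
  filter_upwards [eventually_gt_hyper n] with R hR
  exact (hβ R).b2 n hR v

include hβ in
theorem bInf_sep (m n : ℕ) (hmn : m < n) (v w : Eu k) :
    bInf β (Js k m v) ≤ 2 * bInf β (Js k m v - Js k n w) := by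
  refine le_of_tendsto_of_tendsto (tendsto_bInf D C₀ D' β hβ _)
    ((tendsto_bInf D C₀ D' β hβ (Js k m v - Js k n w)).const_mul 2) ?_
  filter_upwards [eventually_gt_hyper n] with R hR
  exact (hβ R).b3 m n hmn hR v w

/-- the limit of the norms of the copies -/
noncomputable def N0 (β : ℕ → Seminorm ℝ (ℕ →₀ Eu k)) : Seminorm ℝ (Eu k) :=
  slim fun n => (bInf β).comp (Js k n)

include hβ in
theorem tendsto_N0 (v : Eu k) :
    Tendsto (fun n => bInf β (Js k n v)) (hyperfilter ℕ) (𝓝 (N0 β v)) :=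
  tendsto_slim' (fun n => (bInf β).comp (Js k n)) (fun v => (k + 1) * ‖v‖)
    (fun n v => bInf_single_le D C₀ D' β hβ n v) v

include hβ in
theorem N0_le (v : Eu k) : N0 β v ≤ (k + 1) * ‖v‖ :=
  le_of_tendsto (tendsto_N0 D C₀ D' β hβ v)
    (Eventually.of_forall fun n => bInf_single_le D C₀ D' β hβ n v)

include hβ in
theorem N0_lower (v : Eu k) : ‖v‖ ≤ (k + 1) * N0 β v :=
  ge_of_tendsto ((tendsto_N0 D C₀ D' β hβ v).const_mul ((k : ℝ) + 1))
    (Eventually.of_forall fun n => bInf_lower D C₀ D' β hβ n v)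

/-- the norm of a single vector in the difference system -/
noncomputable def Nv (β : ℕ → Seminorm ℝ (ℕ →₀ Eu k)) : Seminorm ℝ (Eu k) :=
  (val (bInf β) (Js k) 1).comp
    (LinearMap.inl ℝ (ℕ → Eu k) (ℕ →₀ Eu k) ∘ₗ LinearMap.single ℝ (fun _ => Eu k) 0)

theorem Nv_apply (v : Eu k) :
    Nv β v = val (bInf β) (Js k) 1 ((Pi.single 0 v : ℕ → Eu k), 0) := rfl

include hβ in
theorem Nv_le (v : Eu k) : Nv β v ≤ 2 * N0 β v := by
  have hJ := bInf_single_le D C₀ D' β hβ
  have hlim := tendsto_N0 D C₀ D' β hβ v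
  have h1 : ∀ m, slim (fun n => (val (bInf β) (Js k) 0).comp (stepL (Js k) m n))
      ((Pi.single 0 v : ℕ → Eu k), 0) ≤ N0 β v + bInf β (Js k m v) := by
    intro m
    refine le_of_tendsto_of_tendsto (tendsto_inner (bInf β) (Js k) (k + 1) hJ 0 m _)
      (hlim.add_const (bInf β (Js k m v))) (Eventually.of_forall fun n => ?_)
    have h2 : val (bInf β) (Js k) 0 (stepL (Js k) m n ((Pi.single 0 v : ℕ → Eu k), 0)) =
        bInf β (Js k n v - Js k m v) := by
      simp [val, stepL]
    simp only [h2]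
    exact map_sub_le_add _ _ _
  refine le_of_tendsto_of_tendsto (tendsto_outer (bInf β) (Js k) (k + 1) hJ 0 _)
    (b := hyperfilter ℕ) ?_ (Eventually.of_forall h1)
  have h3 := hlim.const_add (N0 β v)
  rw [← two_mul] at h3
  exact h3

include hβ in
theorem N0_le_Nv (v : Eu k) : N0 β v ≤ 2 * Nv β v := by
  have hJ := bInf_single_le D C₀ D' β hβ
  have hlim := tendsto_N0 D C₀ D' β hβ v
  have h1 : ∀ m, bInf β (Js k m v) ≤
      2 * slim (fun n => (val (bInf β) (Js k) 0).comp (stepL (Js k) m n))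
      ((Pi.single 0 v : ℕ → Eu k), 0) := by
    intro m
    refine ge_of_tendsto ((tendsto_inner (bInf β) (Js k) (k + 1) hJ 0 m
      ((Pi.single 0 v : ℕ → Eu k), 0)).const_mul 2) ?_
    filter_upwards [eventually_gt_hyper m] with n hn
    have h2 : val (bInf β) (Js k) 0 (stepL (Js k) m n ((Pi.single 0 v : ℕ → Eu k), 0)) =
        bInf β (Js k m v - Js k n v) := by
      rw [map_sub_rev]
      simp [val, stepL]
    rw [h2]
    exact bInf_sep D C₀ D' β hβ m n hn v v
  exact le_of_tendsto_of_tendsto hlim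
    ((tendsto_outer (bInf β) (Js k) (k + 1) hJ 0 _).const_mul 2) (Eventually.of_forall h1)

include hβ in
/-- the limit space is far from Euclidean -/
theorem le_of_euclLe_N0 (D₁ : ℝ) (h : EuclLe (fun v => N0 β v) D₁) : D ≤ 2 * D₁ := by
  have hk1 : (0 : ℝ) < k + 1 := by positivity
  obtain ⟨S, ε, hε, hS⟩ := uniform_close (N0 β) (1 / (k + 1)) (k + 1) (1 / 3) (by positivity)
    (by positivity) (by norm_num)
    (fun x => by
      rw [one_div, inv_mul_le_iff₀ hk1]
      exact N0_lower D C₀ D' β hβ x)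
    (fun x => N0_le D C₀ D' β hβ x)
  have h1 : ∀ᶠ m in (hyperfilter ℕ : Filter ℕ), ∀ v ∈ S,
      |bInf β (Js k m v) - N0 β v| < ε / 2 := by
    rw [Filter.eventually_all_finset]
    intro v _
    have := (tendsto_N0 D C₀ D' β hβ v).eventually (Metric.ball_mem_nhds _ (half_pos hε))
    simpa [Real.dist_eq] using this
  obtain ⟨m, hm⟩ := h1.exists
  have h2 : ∀ᶠ R in (hyperfilter ℕ : Filter ℕ), ∀ v ∈ S,
      |β R (Js k m v) - bInf β (Js k m v)| < ε / 2 := by
    rw [Filter.eventually_all_finset]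
    intro v _
    have := (tendsto_bInf D C₀ D' β hβ (Js k m v)).eventually
      (Metric.ball_mem_nhds _ (half_pos hε))
    simpa [Real.dist_eq] using this
  obtain ⟨R, hR1, hR2⟩ := (h2.and (eventually_gt_hyper m)).exists
  have h3 := hS ((β R).comp (Js k m)) (fun v => (hβ R).b1 m v) (fun v hv => by
    rw [Seminorm.comp_apply]
    have h4 := hm v hv
    have h5 := hR1 v hv
    have h6 := abs_add_le (β R (Js k m v) - bInf β (Js k m v)) (bInf β (Js k m v) - N0 β v)
    rw [sub_add_sub_cancel] at h6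
    linarith)
  refine (hβ R).b4 m hR2 (2 * D₁) ?_
  have h7 := EuclLe.of_le (p := fun v => β R (Js k m v)) h (c₁ := 2 / 3) (c₂ := 4 / 3)
    (by norm_num) (by norm_num)
    (fun v => by
      have := (h3 v).1
      rw [Seminorm.comp_apply] at this
      linarith)
    (fun v => by
      have := (h3 v).2
      rw [Seminorm.comp_apply] at this
      linarith)
  exact h7.mono (le_of_eq (by ring))

variable {ι : Type} [Fintype ι] [DecidableEq ι]

open Classical in
/-- extension of a finite family by zero -/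
noncomputable def extN {r : ℕ} (e : ι ≃ Fin r) : (ι → Eu k) →ₗ[ℝ] (ℕ → Eu k) where
  toFun x := fun a => if h : a < r then x (e.symm ⟨a, h⟩) else 0
  map_add' x y := by
    funext a
    by_cases h : a < r <;> simp [h]
  map_smul' c x := by
    funext a
    by_cases h : a < r <;> simp [h]

/-- the limit seminorm on finite families -/
noncomputable def alph (β : ℕ → Seminorm ℝ (ℕ →₀ Eu k)) {r : ℕ} (e : ι ≃ Fin r) :
    Seminorm ℝ (ι → Eu k) :=
  (val (bInf β) (Js k) r).comp (LinearMap.inl ℝ (ℕ → Eu k) (ℕ →₀ Eu k) ∘ₗ extN e)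

theorem alph_apply {r : ℕ} (e : ι ≃ Fin r) (x : ι → Eu k) :
    alph β e x = val (bInf β) (Js k) r (extN e x, 0) := rfl

include hβ in
theorem alph_supp {r : ℕ} (e : ι ≃ Fin r) (S : Finset ι) (x : ι → Eu k) :
    alph β e (fun i => if i ∈ S then x i else 0) ≤ alph β e x := by
  classical
  have hJ := bInf_single_le D C₀ D' β hβ
  rw [alph_apply, alph_apply]
  obtain ⟨S', hS'⟩ : ∃ S' : Set ℕ, S' = {a : ℕ | ∃ h : a < r, e.symm ⟨a, h⟩ ∈ S} := ⟨_, rfl⟩
  have h1 : extN e (fun i => if i ∈ S then x i else 0) =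
      fun a => if a ∈ S' then extN e x a else 0 := by
    funext a
    by_cases h : a < r
    · simp [extN, h, hS']
    · simp [extN, h]
  rw [h1]
  exact val_restrict_le (bInf β) (Js k) (k + 1) (by positivity) hJ r _ _ _

include hβ in
theorem alph_single {r : ℕ} (e : ι ≃ Fin r) (i : ι) (v : Eu k) :
    alph β e (Pi.single i v) = Nv β v := by
  have hJ := bInf_single_le D C₀ D' β hβ
  rw [alph_apply, Nv_apply]
  have h1 : extN e (Pi.single i v) = Pi.single (e i : ℕ) v := by
    funext a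
    by_cases h : a < r
    · by_cases h' : a = (e i : ℕ)
      · subst h'
        simp [extN]
      · have h2 : e.symm ⟨a, h⟩ ≠ i := by
          intro h3
          apply h'
          have := congrArg e h3
          rw [Equiv.apply_symm_apply] at this
          exact congrArg Fin.val this
        simp [extN, h, Pi.single_apply, h', h2]
    · have h' : a ≠ (e i : ℕ) := by
        have := (e i).2
        omega
      simp [extN, h, Pi.single_apply, h']
  rw [h1]
  exact val_single (bInf β) (Js k) (k + 1) hJ r _ (e i).2 v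

include hβ in
theorem Nv_coord_le {r : ℕ} (e : ι ≃ Fin r) (x : ι → Eu k) (i : ι) :
    Nv β (x i) ≤ alph β e x := by
  have h1 := alph_supp D C₀ D' β hβ e {i} x
  have h2 : (fun j => if j ∈ ({i} : Finset ι) then x j else 0) = Pi.single i (x i) := by
    funext j
    by_cases h : j = i
    · subst h; simp
    · simp [h]
  rw [h2, alph_single D C₀ D' β hβ e i] at h1
  exact h1

include hβ in
/-- the realization of finite-dimensional subspaces of the limit space -/
theorem realize (hC₀ : 1 < C₀) (hD' : 0 ≤ D') {r : ℕ} (e : ι ≃ Fin r) (s : ℕ)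
    (Φ : (Fin s → ℝ) →ₗ[ℝ] (ι → Eu k)) (C₁ δ : ℝ) (hC₁ : 1 ≤ C₁) (hδ0 : 0 < δ) (hδ1 : δ ≤ 1 / 3)
    (hC : C₁ * (1 + δ) ≤ C₀ * (1 - δ))
    (hdef : ∀ t, alph β e (Φ t) = 0 → t = 0)
    (hcut : ∀ c t, alph β e (Φ (cut c t)) ≤ C₁ * alph β e (Φ t)) :
    EuclLe (fun t => alph β e (Φ t)) (2 * D') := by
  classical
  have hJ := bInf_single_le D C₀ D' β hβ
  set p : Seminorm ℝ (Fin s → ℝ) := (alph β e).comp Φ with hp
  -- the bound
  set B : ℝ := 2 * (k + 1) * ∑ a ∈ range r,
    ‖LinearMap.toContinuousLinearMap (LinearMap.proj a ∘ₗ extN e ∘ₗ Φ)‖ with hB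
  have hB0 : 0 ≤ B := by positivity
  have hcoord : ∀ t, ∑ a ∈ range r, ‖extN e (Φ t) a‖ ≤ (∑ a ∈ range r,
      ‖LinearMap.toContinuousLinearMap (LinearMap.proj a ∘ₗ extN e ∘ₗ Φ)‖) * ‖t‖ := by
    intro t
    rw [Finset.sum_mul]
    refine Finset.sum_le_sum fun a _ => ?_
    exact (LinearMap.toContinuousLinearMap (LinearMap.proj a ∘ₗ extN e ∘ₗ Φ)).le_opNorm t
  have hpB : ∀ t, p t ≤ B * ‖t‖ := by
    intro t
    have h1 := val_le (bInf β) (Js k) (k + 1) hJ r (extN e (Φ t), 0)
    have h2 : bd (bInf β) (k + 1) r ((extN e (Φ t), 0) : (ℕ → Eu k) × (ℕ →₀ Eu k)) =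
        2 * (k + 1) * ∑ a ∈ range r, ‖extN e (Φ t) a‖ := by
      simp [bd]
    rw [h2] at h1
    refine h1.trans ?_
    rw [hB, mul_assoc (2 * ((k : ℝ) + 1))]
    exact mul_le_mul_of_nonneg_left (hcoord t) (by positivity)
  obtain ⟨c, hc0, hc⟩ := exists_lower_bound p B hpB (fun t ht => hdef t ht)
  obtain ⟨S, ε, hε, hS⟩ := uniform_close p c B δ hc0 hB0 hδ0 hc hpB
  obtain ⟨mm, nn, hmn⟩ := exists_approx (bInf β) (Js k) (k + 1) hJ r
    (S.image fun t => ((extN e (Φ t), 0) : (ℕ → Eu k) × (ℕ →₀ Eu k))) (ε / 2) (half_pos hε)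
  set Θ : (Fin s → ℝ) →ₗ[ℝ] (ℕ →₀ Eu k) := realL (Js k) mm nn r ∘ₗ extN e ∘ₗ Φ with hΘ
  have h1 : ∀ᶠ R in (hyperfilter ℕ : Filter ℕ), ∀ t ∈ S, |β R (Θ t) - bInf β (Θ t)| < ε / 2 := by
    rw [Filter.eventually_all_finset]
    intro t _
    have := (tendsto_bInf D C₀ D' β hβ (Θ t)).eventually (Metric.ball_mem_nhds _ (half_pos hε))
    simpa [Real.dist_eq] using this
  obtain ⟨R, hR⟩ := h1.exists
  have hq := hS ((β R).comp Θ) (by
      intro t
      rw [Seminorm.comp_apply]
      have h2 : Θ t = ∑ a ∈ range r,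
          (Js k (nn a) (extN e (Φ t) a) - Js k (mm a) (extN e (Φ t) a)) := by
        rw [← realL_apply]
        rfl
      rw [h2]
      refine (Finset.le_sum_of_subadditive (β R) (map_zero _).le (map_add_le_add _) _ _).trans ?_
      have h3 : ∀ a ∈ range r, β R (Js k (nn a) (extN e (Φ t) a) - Js k (mm a) (extN e (Φ t) a)) ≤
          2 * (k + 1) * ‖extN e (Φ t) a‖ := by
        intro a _
        have h4 := map_sub_le_add (β R) (Js k (nn a) (extN e (Φ t) a))
          (Js k (mm a) (extN e (Φ t) a))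
        have h5 := (hβ R).b1 (nn a) (extN e (Φ t) a)
        have h6 := (hβ R).b1 (mm a) (extN e (Φ t) a)
        linarith
      refine (Finset.sum_le_sum h3).trans ?_
      rw [← Finset.mul_sum, hB, mul_assoc (2 * ((k : ℝ) + 1))]
      exact mul_le_mul_of_nonneg_left (hcoord t) (by positivity))
    (by
      intro t ht
      rw [Seminorm.comp_apply]
      have h2 := hR t ht
      have h3 := hmn _ (Finset.mem_image_of_mem _ ht)
      have h4 : ((0 : ℕ →₀ Eu k) + realL (Js k) mm nn r (extN e (Φ t))) = Θ t := by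
        rw [zero_add]
        rfl
      simp only [h4] at h3
      have h5 : p t = val (bInf β) (Js k) r (extN e (Φ t), 0) := rfl
      rw [h5]
      have h6 := abs_add_le (β R (Θ t) - bInf β (Θ t))
        (bInf β (Θ t) - val (bInf β) (Js k) r (extN e (Φ t), 0))
      rw [sub_add_sub_cancel] at h6
      linarith)
  have hq1 : ∀ t, (1 - δ) * p t ≤ β R (Θ t) := fun t => (hq t).1
  have hq2 : ∀ t, β R (Θ t) ≤ (1 + δ) * p t := fun t => (hq t).2
  have h1δ : 0 < 1 - δ := by linarith
  have hE := (hβ R).b5 s Θ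
    (fun t ht => by
      have h2 := hq1 t
      rw [ht] at h2
      have h3 : p t ≤ 0 := by
        by_contra hcon
        push Not at hcon
        have := mul_pos h1δ hcon
        linarith
      exact hdef t (le_antisymm h3 (apply_nonneg _ _)))
    (fun c t => by
      have h2 := hq2 (cut c t)
      have h3 := hcut c t
      have h4 : p (cut c t) ≤ C₁ * p t := h3
      have h5 := hq1 t
      have h6 : (1 + δ) * p (cut c t) ≤ C₁ * (1 + δ) * p t := by
        calc (1 + δ) * p (cut c t) ≤ (1 + δ) * (C₁ * p t) :=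
              mul_le_mul_of_nonneg_left h4 (by linarith)
          _ = _ := by ring
      have h7 : C₁ * (1 + δ) * p t ≤ C₀ * (1 - δ) * p t :=
        mul_le_mul_of_nonneg_right hC (apply_nonneg _ _)
      have h8 : C₀ * (1 - δ) * p t = C₀ * ((1 - δ) * p t) := by ring
      have h9 : C₀ * ((1 - δ) * p t) ≤ C₀ * β R (Θ t) :=
        mul_le_mul_of_nonneg_left h5 (by linarith)
      linarith)
  have hfin := EuclLe.of_le (p := fun t => alph β e (Φ t)) hE (c₁ := 1 / (1 + δ))
    (c₂ := 1 / (1 - δ)) (by positivity) (by positivity)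
    (fun t => by
      rw [one_div, inv_mul_le_iff₀ (by linarith)]
      exact hq2 t)
    (fun t => by
      rw [one_div, ← div_eq_inv_mul, le_div_iff₀ h1δ, mul_comm]
      exact hq1 t)
  refine hfin.mono ?_
  have h2 : D' * (1 / (1 - δ)) / (1 / (1 + δ)) = D' * ((1 + δ) / (1 - δ)) := by
    field_simp
  rw [h2, mul_comm 2 D']
  refine mul_le_mul_of_nonneg_left ?_ hD'
  rw [div_le_iff₀ h1δ]
  linarith

include hβ in
/-- the two sided `ℓ₂` estimates -/
theorem good_alph (hC₀ : 1 < C₀) (hD' : 0 ≤ D') (hk : 0 < k) {r : ℕ} (e : ι ≃ Fin r) :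
    Good (Nv β) (4 * D') (alph β e) := by
  classical
  have hk1 : (0 : ℝ) < k + 1 := by positivity
  have hNv0 : ∀ v : Eu k, Nv β v = 0 → v = 0 := by
    intro v hv
    have h1 := N0_le_Nv D C₀ D' β hβ v
    have h2 := N0_lower D C₀ D' β hβ v
    rw [hv, mul_zero] at h1
    have h3 : ‖v‖ ≤ 0 := by nlinarith
    exact norm_le_zero_iff.mp h3
  set g₀ : Eu k := EuclideanSpace.single ⟨0, hk⟩ 1 with hg₀
  have hg : g₀ ≠ 0 := by
    intro h
    have : ‖g₀‖ = 1 := by simp [hg₀]
    rw [h, norm_zero] at this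
    exact zero_ne_one this
  -- both estimates at once
  have key : ∀ x : ι → Eu k, alph β e x ^ 2 ≤ (4 * D') ^ 2 * ∑ i, Nv β (x i) ^ 2 ∧
      ∑ i, Nv β (x i) ^ 2 ≤ (4 * D') ^ 2 * alph β e x ^ 2 := by
    intro x
    set x' : ι → Eu k := fun i => if x i = 0 then g₀ else x i with hx'
    have hx'0 : ∀ i, x' i ≠ 0 := by
      intro i
      simp only [hx']
      split_ifs with h
      · exact hg
      · exact h
    set Φ : (Fin r → ℝ) →ₗ[ℝ] (ι → Eu k) :=
      LinearMap.pi fun i => (LinearMap.proj (e i) : (Fin r → ℝ) →ₗ[ℝ] ℝ).smulRight (x' i) with hΦ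
    have hΦa : ∀ t i, Φ t i = t (e i) • x' i := by
      intro t i
      simp [hΦ]
    have hrestr : ∀ (S : Finset (Fin r)) (t : Fin r → ℝ),
        Φ (fun a => if a ∈ S then t a else 0) =
          fun i => if i ∈ S.map e.symm.toEmbedding then Φ t i else 0 := by
      intro S t
      funext i
      have hmem : i ∈ S.map e.symm.toEmbedding ↔ e i ∈ S := by
        rw [Finset.mem_map]
        constructor
        · rintro ⟨a, ha, rfl⟩
          simpa using ha
        · intro h
          exact ⟨e i, h, by simp⟩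
      simp only [hmem, hΦa]
      split_ifs <;> simp
    have hsupp : ∀ (S : Finset (Fin r)) (t : Fin r → ℝ),
        alph β e (Φ (fun a => if a ∈ S then t a else 0)) ≤ alph β e (Φ t) := by
      intro S t
      rw [hrestr]
      exact alph_supp D C₀ D' β hβ e _ _
    have hdef : ∀ t, alph β e (Φ t) = 0 → t = 0 := by
      intro t ht
      funext a
      have h1 := Nv_coord_le D C₀ D' β hβ e (Φ t) (e.symm a)
      rw [ht, hΦa, Equiv.apply_symm_apply] at h1
      have h2 : Nv β (t a • x' (e.symm a)) = 0 := le_antisymm h1 (apply_nonneg _ _)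
      rcases smul_eq_zero.mp (hNv0 _ h2) with h3 | h3
      · exact h3
      · exact absurd h3 (hx'0 _)
    set δ : ℝ := min (1 / 3) ((C₀ - 1) / (C₀ + 1)) with hδ
    have hδ0 : 0 < δ := lt_min (by norm_num) (div_pos (by linarith) (by linarith))
    have hδ2 : δ * (C₀ + 1) ≤ C₀ - 1 := by
      have : δ ≤ (C₀ - 1) / (C₀ + 1) := min_le_right _ _
      rwa [le_div_iff₀ (by linarith)] at this
    have hE := realize D C₀ D' β hβ hC₀ hD' e r Φ 1 δ le_rfl hδ0 (min_le_left _ _) (by nlinarith)
      hdef (by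
        intro c t
        rw [one_mul]
        have h1 : cut c t = fun a => if a ∈ univ.filter (fun a : Fin r => (a : ℕ) < c) then t a
            else 0 := by
          funext a
          simp [cut_apply]
        rw [h1]
        exact hsupp _ t)
    have hun := uncond_l2 ((alph β e).comp Φ) (fun S t => hsupp S t) (2 * D') (by positivity) hE
      (fun a => if x (e.symm a) = 0 then 0 else 1)
    have h1 : Φ (fun a => if x (e.symm a) = 0 then 0 else 1) = x := by
      funext i
      rw [hΦa]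
      simp only [Equiv.symm_apply_apply, hx']
      split_ifs with h
      · rw [h]; simp
      · simp
    have h2 : ∑ a : Fin r, ((alph β e).comp Φ)
        (Pi.single a (if x (e.symm a) = 0 then (0 : ℝ) else 1)) ^ 2 = ∑ i, Nv β (x i) ^ 2 := by
      rw [← Equiv.sum_comp e.symm]
      refine Finset.sum_congr rfl fun a _ => ?_
      congr 1
      rw [Seminorm.comp_apply]
      have h3 : Φ (Pi.single a (if x (e.symm a) = 0 then (0 : ℝ) else 1)) =
          Pi.single (e.symm a) (x (e.symm a)) := by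
        funext i
        rw [hΦa]
        by_cases h : e i = a
        · subst h
          simp only [Pi.single_eq_same, Equiv.symm_apply_apply, hx']
          split_ifs with h
          · rw [h]; simp
          · simp
        · have h' : i ≠ e.symm a := by
            intro h''
            apply h
            rw [h'', Equiv.apply_symm_apply]
          rw [Pi.single_eq_of_ne h, Pi.single_eq_of_ne h', zero_smul]
      rw [h3, alph_single D C₀ D' β hβ e]
    rw [h2, Seminorm.comp_apply, h1] at hun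
    have h4 : (2 * (2 * D')) = 4 * D' := by ring
    rw [h4] at hun
    exact hun
  exact ⟨alph_supp D C₀ D' β hβ e, fun x => (key x).1, fun x => (key x).2⟩

include hβ in
theorem D_le (hC₀ : 1 < C₀) (hD' : 0 < D') (hk : 0 < k) : D ≤ 512 * D' ^ 3 := by
  classical
  have hk1 : (0 : ℝ) < k + 1 := by positivity
  set ε : ℝ := min (1 / 3) ((C₀ - 1) / (C₀ + 3)) with hε
  have hε0 : 0 < ε := lt_min (by norm_num) (div_pos (by linarith) (by linarith))
  have hε1 : ε ≤ 1 / 3 := min_le_left _ _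
  have hε2 : ε * (C₀ + 3) ≤ C₀ - 1 := by
    have : ε ≤ (C₀ - 1) / (C₀ + 3) := min_le_right _ _
    rwa [le_div_iff₀ (by linarith)] at this
  obtain ⟨n, Φ, hΦ⟩ := coreU hk (Nv β) (4 * D') (1 / (2 * (k + 1))) (2 * (k + 1)) ε
    (by positivity) (by positivity) (by positivity) hε0
    (fun v => by
      have h1 := N0_le_Nv D C₀ D' β hβ v
      have h2 := N0_lower D C₀ D' β hβ v
      rw [one_div, inv_mul_le_iff₀ (by positivity)]
      nlinarith)
    (fun v => by
      have h1 := Nv_le D C₀ D' β hβ v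
      have h2 := N0_le D C₀ D' β hβ v
      linarith)
  obtain ⟨h1, ⟨c₀, hc₀, h2⟩, h3⟩ := hΦ (alph β (Fintype.equivFin (Idx n k)))
    (good_alph D C₀ D' β hβ hC₀ hD'.le hk _)
  have hE := realize D C₀ D' β hβ hC₀ hD'.le (Fintype.equivFin (Idx n k)) (2 ^ n * k) Φ (1 + ε) ε
    (by linarith) hε0 hε1 (by nlinarith)
    (fun t ht => by
      have := h2 t
      rw [ht] at this
      have h4 : ‖t‖ ≤ 0 := by
        by_contra hcon
        push Not at hcon
        have := mul_pos hc₀ hcon
        linarith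
      exact norm_le_zero_iff.mp h4)
    h1
  have hN := h3 (2 * D') (by positivity) hE
  have hN0 := EuclLe.of_le (p := fun v => N0 β v) hN (c₁ := 1 / 2) (c₂ := 2) (by norm_num)
    (by norm_num)
    (fun v => by
      have := Nv_le D C₀ D' β hβ v
      linarith)
    (fun v => N0_le_Nv D C₀ D' β hβ v)
  have hfin := le_of_euclLe_N0 D C₀ D' β hβ _ hN0
  refine hfin.trans (le_of_eq ?_)
  ring

end main

/-- the local dichotomy -/
theorem local_dichotomy (C₀ : ℝ) (hC₀ : 1 < C₀) (k : ℕ) (D : ℝ) (hD : 1 ≤ D) :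
    ∃ N : ℕ, ∀ (E : Type) [NormedAddCommGroup E] [NormedSpace ℝ E] [FiniteDimensional ℝ E],
      (∀ Z : Submodule ℝ E, finrank ℝ E ≤ finrank ℝ Z + N →
        ∃ G : Submodule ℝ E, G ≤ Z ∧ finrank ℝ G = k ∧ DistGe G D) →
      ∃ F : Submodule ℝ E, BasisLe F C₀ ∧ DistGe F (D ^ (1 / 3 : ℝ) / 9) := by
  rcases Nat.eq_zero_or_pos k with hk | hk
  · subst hk
    refine ⟨0, fun E _ _ _ hE => ?_⟩
    exfalso
    obtain ⟨G, -, hG, hGD⟩ := hE ⊤ (by simp)
    have hs : Subsingleton G := by
      have h0 : G = ⊥ := Submodule.finrank_eq_zero.mp hG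
      rw [h0]
      infer_instance
    obtain ⟨T₀, h1, h2, h3⟩ := exists_equiv_of_map (G := G) (H := EuclideanSpace ℝ (Fin 1))
      (0 : G →ₗ[ℝ] EuclideanSpace ℝ (Fin 1)) 1 0 one_pos le_rfl
      (by intro x; rw [Subsingleton.elim x 0]; simp) (by intro x; simp)
    have h4 := hGD T₀
    have h5 : ‖(T₀ : G →L[ℝ] EuclideanSpace ℝ (Fin (finrank ℝ G)))‖ = 0 :=
      le_antisymm h1 (norm_nonneg _)
    rw [h5, zero_mul] at h4
    linarith
  · obtain ⟨m, hm⟩ := exists_norming k
    set D' : ℝ := D ^ (1 / 3 : ℝ) / 9 with hD'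
    have hD'0 : 0 < D' := by
      have : 0 < D ^ (1 / 3 : ℝ) := Real.rpow_pos_of_pos (by linarith) _
      positivity
    have hD'3 : 512 * D' ^ 3 < D := by
      have h1 : (D ^ (1 / 3 : ℝ)) ^ 3 = D := by
        rw [← Real.rpow_natCast, ← Real.rpow_mul (by linarith)]
        norm_num
      rw [hD', div_pow, h1]
      linarith
    by_contra hcon
    push Not at hcon
    have hsys : ∀ R : ℕ, ∃ β : Seminorm ℝ (ℕ →₀ Eu k), Sys k D C₀ D' R β := by
      intro R
      obtain ⟨E, i1, i2, i3, hE, hno⟩ := hcon (R * m)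
      exact exists_sys k hk D C₀ D' m hm E R hE hno
    choose β hβ using hsys
    have := D_le D C₀ D' β hβ hC₀ hD'0 hk
    linarith

end Run7.h35
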