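import Pool.Agent.Run7.h35.Book
import Pool.Agent.Run7.h35.Dyadic

set_option autoImplicit false

namespace Run7.h35

open Finset Module

variable {G : Type*} [NormedAddCommGroup G] [NormedSpace ℝ G]

/-- extension by zero along an injection, into the `ℓ₂`-sum -/
noncomputable def extL {ι : Type*} {M : ℕ} (e : ι → Fin M) (he : Function.Injective e) :
    (ι → G) →ₗ[ℝ] PiLp 2 (fun _ : Fin M => G) where
  toFun z := WithLp.toLp 2 (Function.extend e z 0)
  map_add' z w := by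
    rw [← WithLp.toLp_add]
    congr 1
    have := Function.extend_add e z w (0 : Fin M → G) 0
    rw [add_zero] at this
    exact this
  map_smul' a z := by
    rw [RingHom.id_apply, ← WithLp.toLp_smul]
    congr 1
    funext i
    by_cases h : ∃ b, e b = i
    · obtain ⟨b, rfl⟩ := h
      rw [Pi.smul_apply, he.extend_apply, he.extend_apply, Pi.smul_apply]
    · rw [Pi.smul_apply, Function.extend_apply' _ _ _ h, Function.extend_apply' _ _ _ h]
      simp

theorem norm_extL {ι : Type*} [Fintype ι] {M : ℕ} (e : ι → Fin M) (he : Function.Injective e)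
    (z : ι → G) : ‖extL e he z‖ ^ 2 = ∑ a, ‖z a‖ ^ 2 := by
  rw [PiLp.norm_sq_eq_of_L2]
  symm
  refine Fintype.sum_of_injective e he _ _ ?_ ?_
  · intro i hi
    have : ¬ ∃ a, e a = i := fun ⟨a, ha⟩ => hi ⟨a, ha⟩
    change ‖Function.extend e z 0 i‖ ^ 2 = 0
    rw [Function.extend_apply' _ _ _ this]
    simp
  · intro a
    change _ = ‖Function.extend e z 0 (e a)‖ ^ 2
    rw [he.extend_apply]

/-- `node` as a linear map -/
noncomputable def nodeL (r q : ℕ) : (ℕ → G) →ₗ[ℝ] G :=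
  ∑ l ∈ Ico (2 ^ r * q) (2 ^ r * (q + 1)), LinearMap.proj l

theorem nodeL_apply (r q : ℕ) (x : ℕ → G) : nodeL r q x = node x r q := by
  simp [nodeL, node]

/-- the blocks of a coefficient vector, mapped to `G` -/
noncomputable def blk {m k : ℕ} (S : EuclideanSpace ℝ (Fin k) ≃L[ℝ] G) :
    (Fin (m * k) → ℝ) →ₗ[ℝ] (ℕ → G) :=
  LinearMap.pi fun l => if h : l < m then
    (S : EuclideanSpace ℝ (Fin k) →ₗ[ℝ] G) ∘ₗ
      (WithLp.linearEquiv 2 ℝ (Fin k → ℝ)).symm.toLinearMap ∘ₗ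
      (LinearMap.pi fun ν : Fin k => LinearMap.proj (finProdFinEquiv (⟨l, h⟩, ν))) else 0

theorem blk_apply {m k : ℕ} (S : EuclideanSpace ℝ (Fin k) ≃L[ℝ] G) (t : Fin (m * k) → ℝ)
    (l : ℕ) (h : l < m) :
    blk S t l = S (WithLp.toLp 2 fun ν : Fin k => t (finProdFinEquiv (⟨l, h⟩, ν))) := by
  simp [blk, h]
  rfl

theorem blk_apply_ge {m k : ℕ} (S : EuclideanSpace ℝ (Fin k) ≃L[ℝ] G) (t : Fin (m * k) → ℝ)
    (l : ℕ) (h : ¬ l < m) : blk S t l = 0 := by
  simp [blk, h]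

/-- the index type of nodes and Euclidean coordinates -/
abbrev Idx (n k : ℕ) : Type := (Σ r : Fin (n + 1), Fin (2 ^ (n - (r : ℕ)))) ⊕ Fin (2 ^ n * k)

theorem card_Idx (n k : ℕ) : Fintype.card (Idx n k) ≤ 2 ^ n * (k + 2) := by
  rw [Fintype.card_sum, Fintype.card_sigma, Fintype.card_fin]
  simp only [Fintype.card_fin]
  have h1 : ∑ r : Fin (n + 1), 2 ^ (n - (r : ℕ)) = ∑ r ∈ range (n + 1), 2 ^ (n - r) :=
    Fin.sum_univ_eq_sum_range (fun r => 2 ^ (n - r)) (n + 1)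
  have h2 : ∑ r ∈ range (n + 1), 2 ^ (n - r) = ∑ r ∈ range (n + 1), 2 ^ r := by
    rw [← Finset.sum_range_reflect]
    refine Finset.sum_congr rfl ?_
    intro r hr
    rw [Finset.mem_range] at hr
    congr 1
    omega
  have h3 : ∑ r ∈ range (n + 1), 2 ^ r < 2 ^ (n + 1) := by
    have := Nat.geomSum_lt (m := 2) (n := n + 1) (s := range (n + 1)) le_rfl
      (fun k hk => Finset.mem_range.mp hk)
    exact this
  rw [h1, h2]
  have h4 : 2 ^ n * (k + 2) = 2 ^ n * k + 2 ^ (n + 1) := by ring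
  omega

/-- the coordinates -/
noncomputable def coordL (θ : ℝ) (n k : ℕ) (S : EuclideanSpace ℝ (Fin k) ≃L[ℝ] G) (g₀ : G) :
    (Fin (2 ^ n * k) → ℝ) →ₗ[ℝ] (Idx n k → G) :=
  LinearMap.pi fun a => Sum.elim
    (fun s : Σ r : Fin (n + 1), Fin (2 ^ (n - (r : ℕ))) =>
      (θ ^ (s.1 : ℕ)) • (nodeL (s.1 : ℕ) (s.2 : ℕ) ∘ₗ blk S))
    (fun i => (LinearMap.proj i : (Fin (2 ^ n * k) → ℝ) →ₗ[ℝ] ℝ).smulRight g₀) a

theorem sum_coordL (θ : ℝ) (hθ : 0 ≤ θ) (n k : ℕ) (S : EuclideanSpace ℝ (Fin k) ≃L[ℝ] G)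
    (g₀ : G) (hg : ‖g₀‖ = 1) (t : Fin (2 ^ n * k) → ℝ) :
    ∑ a, ‖coordL θ n k S g₀ t a‖ ^ 2 = nodeSq θ n (blk S t) + ∑ i, t i ^ 2 := by
  rw [Fintype.sum_sum_type, Fintype.sum_sigma]
  congr 1
  · unfold nodeSq
    rw [← Fin.sum_univ_eq_sum_range
      (fun r => ∑ q ∈ range (2 ^ (n - r)), (θ ^ r * ‖node (blk S t) r q‖) ^ 2) (n + 1)]
    refine Finset.sum_congr rfl ?_
    intro r _
    rw [← Fin.sum_univ_eq_sum_range
      (fun q => (θ ^ (r : ℕ) * ‖node (blk S t) r q‖) ^ 2) (2 ^ (n - (r : ℕ)))]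
    refine Finset.sum_congr rfl ?_
    intro q _
    have : coordL θ n k S g₀ t (Sum.inl ⟨r, q⟩) = θ ^ (r : ℕ) • node (blk S t) r q := by
      simp [coordL, nodeL_apply]
    rw [this, norm_smul, Real.norm_of_nonneg (by positivity)]
  · refine Finset.sum_congr rfl ?_
    intro i _
    have : coordL θ n k S g₀ t (Sum.inr i) = t i • g₀ := by
      simp [coordL]
    rw [this, norm_smul, hg, mul_one, Real.norm_eq_abs, sq_abs]

/-- the main linear map -/
noncomputable def PhiL (θ : ℝ) (n k M : ℕ) (S : EuclideanSpace ℝ (Fin k) ≃L[ℝ] G) (g₀ : G)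
    (e : Idx n k → Fin M) (he : Function.Injective e) :
    (Fin (2 ^ n * k) → ℝ) →ₗ[ℝ] PiLp 2 (fun _ : Fin M => G) :=
  extL e he ∘ₗ coordL θ n k S g₀

theorem norm_PhiL (θ : ℝ) (hθ : 0 ≤ θ) (n k M : ℕ) (S : EuclideanSpace ℝ (Fin k) ≃L[ℝ] G) (g₀ : G)
    (hg : ‖g₀‖ = 1) (e : Idx n k → Fin M) (he : Function.Injective e)
    (t : Fin (2 ^ n * k) → ℝ) :
    ‖PhiL θ n k M S g₀ e he t‖ ^ 2 = nodeSq θ n (blk S t) + ∑ i, t i ^ 2 := by
  rw [← sum_coordL θ hθ n k S g₀ hg t, ← norm_extL e he]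
  rfl

theorem nodeSq_nonneg (θ : ℝ) (n : ℕ) (x : ℕ → G) : 0 ≤ nodeSq θ n x := by
  unfold nodeSq; positivity

theorem blk_cut_mul {m k : ℕ} (hk : 0 < k) (S : EuclideanSpace ℝ (Fin k) ≃L[ℝ] G)
    (t : Fin (m * k) → ℝ) (j : ℕ) : blk S (cut (k * j) t) = cutN (blk S t) j := by
  funext l
  by_cases h : l < m
  · rw [blk_apply S _ l h]
    unfold cutN
    rw [blk_apply S _ l h]
    have key : ∀ ν : Fin k, ((finProdFinEquiv ((⟨l, h⟩ : Fin m), ν) : Fin (m * k)) : ℕ) < k * j ↔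
        l < j := by
      intro ν
      have hv : ((finProdFinEquiv ((⟨l, h⟩ : Fin m), ν) : Fin (m * k)) : ℕ) = (ν : ℕ) + k * l := rfl
      rw [hv]
      constructor
      · intro h1
        by_contra h2
        push Not at h2
        have := Nat.mul_le_mul_left k h2
        omega
      · intro h1
        have h3 : k * (l + 1) ≤ k * j := Nat.mul_le_mul_left k h1
        have h4 := ν.2
        rw [mul_add] at h3
        omega
    split_ifs with h1
    · congr 2
      funext ν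
      rw [cut_apply, if_pos ((key ν).mpr h1)]
    · have : (fun ν : Fin k => cut (k * j) t (finProdFinEquiv ((⟨l, h⟩ : Fin m), ν))) = 0 := by
        funext ν
        rw [cut_apply, if_neg (fun h2 => h1 ((key ν).mp h2))]
        rfl
      rw [this]
      simp
  · rw [blk_apply_ge S _ l h]
    unfold cutN
    rw [blk_apply_ge S _ l h]
    simp

theorem sum_cut_sq_le {n : ℕ} (c : ℕ) (t : Fin n → ℝ) : ∑ i, cut c t i ^ 2 ≤ ∑ i, t i ^ 2 := by
  refine Finset.sum_le_sum ?_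
  intro i _
  rw [cut_apply]
  split_ifs
  · exact le_rfl
  · simp only [ne_eq, OfNat.ofNat_ne_zero, not_false_eq_true, zero_pow]; positivity

/-- the difference between the cut at `c` and the cut at the beginning of the block -/
theorem blk_diff {m k : ℕ} (hk : 0 < k) (S : EuclideanSpace ℝ (Fin k) ≃L[ℝ] G)
    (hS : ∀ v, ‖S v‖ ≤ ‖v‖) (t : Fin (m * k) → ℝ) (c : ℕ) :
    ∃ v : G, blk S (cut c t - cut (k * (c / k)) t) = (fun l => if l = c / k then v else 0) ∧
      ‖v‖ ^ 2 ≤ ∑ i, t i ^ 2 := by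
  set δ := cut c t - cut (k * (c / k)) t with hδ
  set j := c / k with hj
  have hjc : k * j ≤ c := Nat.mul_div_le c k
  have hcj : c < k * (j + 1) := Nat.lt_mul_div_succ c hk
  refine ⟨blk S δ j, ?_, ?_⟩
  · funext l
    split_ifs with h
    · rw [h]
    · by_cases hl : l < m
      · rw [blk_apply S _ l hl]
        have : (fun ν : Fin k => δ (finProdFinEquiv ((⟨l, hl⟩ : Fin m), ν))) = 0 := by
          funext ν
          rw [hδ, Pi.sub_apply, cut_apply, cut_apply]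
          have hv : ((finProdFinEquiv ((⟨l, hl⟩ : Fin m), ν) : Fin (m * k)) : ℕ) =
            (ν : ℕ) + k * l := rfl
          rw [hv]
          have hν := ν.2
          rcases lt_or_gt_of_ne h with h1 | h1
          · have h2 : k * (l + 1) ≤ k * j := Nat.mul_le_mul_left k h1
            rw [mul_add] at h2
            rw [if_pos (by omega), if_pos (by omega)]
            simp
          · have h2 : k * (j + 1) ≤ k * l := Nat.mul_le_mul_left k h1
            rw [if_neg (by omega), if_neg (by omega)]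
            simp
        rw [this]
        simp
      · rw [blk_apply_ge S _ l hl]
  · by_cases hl : j < m
    · rw [blk_apply S _ j hl]
      refine (pow_le_pow_left₀ (norm_nonneg _) (hS _) 2).trans ?_
      rw [EuclideanSpace.norm_sq_eq]
      have h1 : ∑ ν : Fin k, ‖(WithLp.toLp 2 fun ν : Fin k =>
          δ (finProdFinEquiv ((⟨j, hl⟩ : Fin m), ν)) : EuclideanSpace ℝ (Fin k)) ν‖ ^ 2 ≤
          ∑ ν : Fin k, t (finProdFinEquiv ((⟨j, hl⟩ : Fin m), ν)) ^ 2 := by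
        refine Finset.sum_le_sum ?_
        intro ν _
        change ‖δ (finProdFinEquiv ((⟨j, hl⟩ : Fin m), ν))‖ ^ 2 ≤ _
        rw [Real.norm_eq_abs, sq_abs, hδ, Pi.sub_apply, cut_apply, cut_apply]
        have := sq_nonneg (t (finProdFinEquiv ((⟨j, hl⟩ : Fin m), ν)))
        split_ifs <;> simp <;> linarith
      refine h1.trans ?_
      have h2 : ∑ i, t i ^ 2 = ∑ p : Fin m × Fin k, t (finProdFinEquiv p) ^ 2 :=
        (Equiv.sum_comp finProdFinEquiv fun i => t i ^ 2).symm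
      rw [h2, Fintype.sum_prod_type]
      exact Finset.single_le_sum (f := fun l => ∑ ν : Fin k, t (finProdFinEquiv (l, ν)) ^ 2)
        (fun _ _ => by positivity) (Finset.mem_univ _)
    · rw [blk_apply_ge S _ j hl]
      simp only [norm_zero, ne_eq, OfNat.ofNat_ne_zero, not_false_eq_true, zero_pow]
      positivity

/-- the constant -/
noncomputable def cst (θ : ℝ) : ℝ :=
  Real.sqrt (1 + (θ / (1 - θ)) ^ 2) + Real.sqrt (1 + 1 / (1 - θ ^ 2))

theorem PhiL_cut (θ : ℝ) (hθ0 : 0 < θ) (hθ1 : θ < 1) (n k M : ℕ) (hk : 0 < k)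
    (S : EuclideanSpace ℝ (Fin k) ≃L[ℝ] G) (hS : ∀ v, ‖S v‖ ≤ ‖v‖) (g₀ : G)
    (hg : ‖g₀‖ = 1) (e : Idx n k → Fin M) (he : Function.Injective e) (c : ℕ)
    (t : Fin (2 ^ n * k) → ℝ) :
    ‖PhiL θ n k M S g₀ e he (cut c t)‖ ≤ cst θ * ‖PhiL θ n k M S g₀ e he t‖ := by
  have hθ2 : θ ^ 2 < 1 := by nlinarith
  have hN : ∀ t, ‖PhiL θ n k M S g₀ e he t‖ ^ 2 = nodeSq θ n (blk S t) + ∑ i, t i ^ 2 :=
    norm_PhiL θ hθ0.le n k M S g₀ hg e he
  have h2pos : (0 : ℝ) < 1 - θ ^ 2 := by linarith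
  rcases Nat.lt_or_ge c (k * 2 ^ n) with hc | hc
  · have hj : c / k ≤ 2 ^ n := by
      have : c / k < 2 ^ n := Nat.div_lt_of_lt_mul hc
      exact this.le
    obtain ⟨v, hv, hvn⟩ := blk_diff hk S hS t c
    set u := cut (k * (c / k)) t with hu
    have hsplit : cut c t = u + (cut c t - u) := by abel
    have h1 : ‖PhiL θ n k M S g₀ e he u‖ ≤
        Real.sqrt (1 + (θ / (1 - θ)) ^ 2) * ‖PhiL θ n k M S g₀ e he t‖ := by
      refine le_of_sq_le_sq ?_ (by positivity)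
      rw [mul_pow, Real.sq_sqrt (by positivity), hN, hN, hu, blk_cut_mul hk]
      have h3 := nodeSq_cut θ hθ0 hθ1 n (c / k) hj (blk S t)
      have h4 := sum_cut_sq_le (k * (c / k)) t
      have h5 : 0 ≤ ∑ i, t i ^ 2 := by positivity
      have h6 : 0 ≤ (θ / (1 - θ)) ^ 2 := by positivity
      nlinarith
    have h2 : ‖PhiL θ n k M S g₀ e he (cut c t - u)‖ ≤
        Real.sqrt (1 + 1 / (1 - θ ^ 2)) * ‖PhiL θ n k M S g₀ e he t‖ := by
      refine le_of_sq_le_sq ?_ (by positivity)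
      rw [mul_pow, Real.sq_sqrt (by positivity), hN, hN, hv]
      have h3 := nodeSq_single θ hθ0 hθ1 n (c / k) v
      have h4 : ∑ i, (cut c t - u) i ^ 2 ≤ ∑ i, t i ^ 2 := by
        refine Finset.sum_le_sum ?_
        intro i _
        rw [hu, Pi.sub_apply, cut_apply, cut_apply]
        have := sq_nonneg (t i)
        split_ifs <;> simp <;> linarith
      have h5 := nodeSq_nonneg θ n (blk S t)
      have h6 : 0 ≤ 1 / (1 - θ ^ 2) := by positivity
      have h7 : 1 / (1 - θ ^ 2) * ‖v‖ ^ 2 ≤ 1 / (1 - θ ^ 2) * ∑ i, t i ^ 2 :=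
        mul_le_mul_of_nonneg_left hvn h6
      nlinarith
    rw [hsplit, map_add]
    refine (norm_add_le _ _).trans ?_
    unfold cst
    rw [add_mul]
    exact add_le_add h1 h2
  · have : cut c t = t := by
      funext i
      rw [cut_apply, if_pos]
      have := i.2
      rw [mul_comm] at hc
      omega
    rw [this]
    have hc1 : 1 ≤ cst θ := by
      unfold cst
      have h3 : 1 ≤ Real.sqrt (1 + (θ / (1 - θ)) ^ 2) := by
        rw [Real.one_le_sqrt]
        have : 0 ≤ (θ / (1 - θ)) ^ 2 := by positivity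
        linarith
      have h4 := Real.sqrt_nonneg (1 + 1 / (1 - θ ^ 2))
      linarith
    exact le_mul_of_one_le_left (norm_nonneg _) hc1

theorem PhiL_injective (θ : ℝ) (hθ0 : 0 < θ) (n k M : ℕ)
    (S : EuclideanSpace ℝ (Fin k) ≃L[ℝ] G) (g₀ : G)
    (hg : ‖g₀‖ = 1) (e : Idx n k → Fin M) (he : Function.Injective e) :
    Function.Injective (PhiL θ n k M S g₀ e he) := by
  rw [← LinearMap.ker_eq_bot, LinearMap.ker_eq_bot']
  intro t ht
  have h1 := norm_PhiL θ hθ0.le n k M S g₀ hg e he t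
  rw [ht, norm_zero] at h1
  have h2 := nodeSq_nonneg θ n (blk S t)
  have h3 : ∑ i, t i ^ 2 = 0 := by
    have : 0 ≤ ∑ i, t i ^ 2 := by positivity
    nlinarith
  rw [Finset.sum_eq_zero_iff_of_nonneg (fun i _ => sq_nonneg _)] at h3
  funext i
  have := h3 i (Finset.mem_univ _)
  simpa using this

/-- the constant coefficient vector -/
noncomputable def constL {m k : ℕ} (S : EuclideanSpace ℝ (Fin k) ≃L[ℝ] G) :
    G →ₗ[ℝ] (Fin (m * k) → ℝ) :=
  LinearMap.pi fun i => (LinearMap.proj (finProdFinEquiv.symm i).2 : (Fin k → ℝ) →ₗ[ℝ] ℝ) ∘ₗ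
    (WithLp.linearEquiv 2 ℝ (Fin k → ℝ)).toLinearMap ∘ₗ
      (S.symm : G →ₗ[ℝ] EuclideanSpace ℝ (Fin k))

theorem constL_apply {m k : ℕ} (S : EuclideanSpace ℝ (Fin k) ≃L[ℝ] G) (x : G)
    (i : Fin (m * k)) : constL (m := m) S x i = S.symm x (finProdFinEquiv.symm i).2 := by
  simp [constL]

theorem sum_constL {m k : ℕ} (S : EuclideanSpace ℝ (Fin k) ≃L[ℝ] G) (x : G) :
    ∑ i, constL (m := m) S x i ^ 2 = m * ‖S.symm x‖ ^ 2 := by
  have h2 : ∑ i, constL (m := m) S x i ^ 2 =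
      ∑ p : Fin m × Fin k, constL (m := m) S x (finProdFinEquiv p) ^ 2 :=
    (Equiv.sum_comp finProdFinEquiv fun i => constL (m := m) S x i ^ 2).symm
  rw [h2, Fintype.sum_prod_type]
  simp only [constL_apply, Equiv.symm_apply_apply]
  rw [Finset.sum_const, card_univ, Fintype.card_fin, nsmul_eq_mul, EuclideanSpace.norm_sq_eq]
  congr 1
  refine Finset.sum_congr rfl ?_
  intro ν _
  rw [Real.norm_eq_abs, sq_abs]

theorem blk_constL {m k : ℕ} (S : EuclideanSpace ℝ (Fin k) ≃L[ℝ] G) (x : G) (l : ℕ)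
    (hl : l < m) : blk S (constL (m := m) S x) l = x := by
  rw [blk_apply S _ l hl]
  have : (WithLp.toLp 2 fun ν : Fin k => constL (m := m) S x (finProdFinEquiv (⟨l, hl⟩, ν)) :
      EuclideanSpace ℝ (Fin k)) = S.symm x := by
    ext ν
    change constL (m := m) S x (finProdFinEquiv (⟨l, hl⟩, ν)) = _
    rw [constL_apply, Equiv.symm_apply_apply]
  rw [this, ContinuousLinearEquiv.apply_symm_apply]

theorem nodeSq_congr (θ : ℝ) (n : ℕ) (x y : ℕ → G) (h : ∀ l < 2 ^ n, x l = y l) :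
    nodeSq θ n x = nodeSq θ n y := by
  unfold nodeSq
  refine Finset.sum_congr rfl ?_
  intro r hr
  refine Finset.sum_congr rfl ?_
  intro q hq
  rw [Finset.mem_range] at hr hq
  have : node x r q = node y r q := by
    unfold node
    refine Finset.sum_congr rfl ?_
    intro l hl
    rw [Finset.mem_Ico] at hl
    refine h l (lt_of_lt_of_le hl.2 ?_)
    have h4 : (2 : ℕ) ^ n = 2 ^ r * 2 ^ (n - r) := by
      rw [← pow_add]; congr 1; omega
    rw [h4]
    exact Nat.mul_le_mul_left _ hq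
  rw [this]

theorem norm_PhiL_const (θ : ℝ) (hθ : 0 ≤ θ) (n k M : ℕ)
    (S : EuclideanSpace ℝ (Fin k) ≃L[ℝ] G) (g₀ : G)
    (hg : ‖g₀‖ = 1) (e : Idx n k → Fin M) (he : Function.Injective e) (x : G) :
    ‖PhiL θ n k M S g₀ e he (constL S x)‖ ^ 2 =
      (∑ r ∈ range (n + 1), (2 : ℝ) ^ (n - r) * (2 ^ r * θ ^ r) ^ 2) * ‖x‖ ^ 2 +
        2 ^ n * ‖S.symm x‖ ^ 2 := by
  rw [norm_PhiL θ hθ n k M S g₀ hg e he, ← nodeSq_const, sum_constL]
  congr 1
  · exact nodeSq_congr θ n _ _ fun l hl => blk_constL S x l hl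
  · push_cast
    rfl

end Run7.h35
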