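import Pool.Agent.Run7.h35.Power

set_option autoImplicit false

namespace Run7.h35

open Finset Module

/-- a positive lower bound passes from the `ℓ₂`-power to the space -/
theorem distGe_of_power {G : Type*} [NormedAddCommGroup G] [NormedSpace ℝ G]
    [FiniteDimensional ℝ G] (M : ℕ) (L : ℝ) (hL : 1 ≤ L)
    (h : DistGe (PiLp 2 (fun _ : Fin M => G)) L) : DistGe G L := by
  intro T
  set A := ‖(T : G →L[ℝ] EuclideanSpace ℝ (Fin (finrank ℝ G)))‖ with hA
  set B := ‖(T.symm : EuclideanSpace ℝ (Fin (finrank ℝ G)) →L[ℝ] G)‖ with hB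
  rcases subsingleton_or_nontrivial G with hG | hG
  · -- then the power is trivial too
    have hsub : Subsingleton (PiLp 2 (fun _ : Fin M => G)) := by
      constructor
      intro a b
      ext i
      exact Subsingleton.elim _ _
    obtain ⟨T₀, h1, h2, h3⟩ := exists_equiv_of_map (G := PiLp 2 (fun _ : Fin M => G))
      (H := EuclideanSpace ℝ (Fin 1))
      (0 : (PiLp 2 (fun _ : Fin M => G)) →ₗ[ℝ] EuclideanSpace ℝ (Fin 1)) 1 0 one_pos le_rfl
      (by intro x; rw [Subsingleton.elim x 0]; simp) (by intro x; simp)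
    have h4 := h T₀
    have h5 : ‖(T₀ : (PiLp 2 (fun _ : Fin M => G)) →L[ℝ] EuclideanSpace ℝ
        (Fin (finrank ℝ (PiLp 2 (fun _ : Fin M => G)))))‖ = 0 :=
      le_antisymm h1 (norm_nonneg _)
    rw [h5, zero_mul] at h4
    linarith
  · have hB0 : 0 < B := by
      have hTn : Nontrivial (EuclideanSpace ℝ (Fin (finrank ℝ G))) :=
        T.toEquiv.symm.nontrivial
      rw [hB, norm_pos_iff]
      intro h0
      obtain ⟨y, hy⟩ := exists_ne (0 : EuclideanSpace ℝ (Fin (finrank ℝ G)))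
      have : T.symm y = 0 := by
        have := congrArg (fun g : EuclideanSpace ℝ (Fin (finrank ℝ G)) →L[ℝ] G => g y) h0
        simpa using this
      exact hy (by simpa using this)
    -- the coordinatewise map
    set f : PiLp 2 (fun _ : Fin M => G) →ₗ[ℝ]
        PiLp 2 (fun _ : Fin M => EuclideanSpace ℝ (Fin (finrank ℝ G))) :=
      (WithLp.linearEquiv 2 ℝ (Fin M → EuclideanSpace ℝ (Fin (finrank ℝ G)))).symm.toLinearMap ∘ₗ
        (LinearMap.pi fun i => (T : G →ₗ[ℝ] EuclideanSpace ℝ (Fin (finrank ℝ G))) ∘ₗ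
          (LinearMap.proj i : (Fin M → G) →ₗ[ℝ] G)) ∘ₗ
        (WithLp.linearEquiv 2 ℝ (Fin M → G)).toLinearMap with hf
    have hfi : ∀ x i, f x i = T (x i) := fun x i => rfl
    obtain ⟨T₀, h1, h2, -⟩ := exists_equiv_of_map f (1 / B) A (by positivity) (norm_nonneg _)
      (by
        intro x
        refine le_of_sq_le_sq ?_ (norm_nonneg _)
        rw [mul_pow, PiLp.norm_sq_eq_of_L2, PiLp.norm_sq_eq_of_L2, Finset.mul_sum]
        refine Finset.sum_le_sum ?_
        intro i _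
        rw [hfi, ← mul_pow]
        refine pow_le_pow_left₀ (by positivity) ?_ 2
        have := (T.symm : EuclideanSpace ℝ (Fin (finrank ℝ G)) →L[ℝ] G).le_opNorm (T (x i))
        simp only [ContinuousLinearEquiv.coe_coe, ContinuousLinearEquiv.symm_apply_apply] at this
        rw [one_div, ← div_eq_inv_mul, div_le_iff₀ hB0]
        linarith)
      (by
        intro x
        refine le_of_sq_le_sq ?_ (by positivity)
        rw [mul_pow, PiLp.norm_sq_eq_of_L2, PiLp.norm_sq_eq_of_L2, Finset.mul_sum]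
        refine Finset.sum_le_sum ?_
        intro i _
        rw [hfi, ← mul_pow]
        exact pow_le_pow_left₀ (by positivity)
          ((T : G →L[ℝ] EuclideanSpace ℝ (Fin (finrank ℝ G))).le_opNorm (x i)) 2)
    have h3 := h T₀
    have h4 := mul_le_mul h1 h2 (norm_nonneg _) (norm_nonneg _)
    have h5 : A * (1 / (1 / B)) = A * B := by rw [one_div_one_div]
    linarith

/-- the trivial one-dimensional subspace -/
theorem exists_line {V : Type*} [NormedAddCommGroup V] [NormedSpace ℝ V] [Nontrivial V] :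
    ∃ F : Submodule ℝ V,
      BasisLe F 1 ∧ DistGe F 1 := by
  obtain ⟨v, hv⟩ := exists_ne (0 : V)
  set Φ : (Fin 1 → ℝ) →ₗ[ℝ] V := (LinearMap.proj 0 : (Fin 1 → ℝ) →ₗ[ℝ] ℝ).smulRight v with hΦ
  have hinj : Function.Injective Φ := by
    rw [← LinearMap.ker_eq_bot, LinearMap.ker_eq_bot']
    intro t ht
    have h1 : t 0 • v = 0 := ht
    have h2 : t 0 = 0 := by
      rcases smul_eq_zero.mp h1 with h | h
      · exact h
      · exact absurd h hv
    funext i
    rw [Fin.eq_zero i, h2]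
    rfl
  refine ⟨LinearMap.range Φ, exists_basis_of_cut Φ hinj 1 ?_, ?_⟩
  · intro c t
    rw [one_mul]
    change ‖(cut c t) 0 • v‖ ≤ ‖t 0 • v‖
    rw [norm_smul, norm_smul]
    refine mul_le_mul_of_nonneg_right ?_ (norm_nonneg _)
    rw [cut_apply]
    split_ifs
    · exact le_rfl
    · simp
  · intro T
    have hn : Nontrivial (LinearMap.range Φ) := by
      refine ⟨⟨⟨v, ⟨fun _ => 1, by simp [hΦ]⟩⟩, 0, ?_⟩⟩
      intro h
      exact hv (congrArg Subtype.val h)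
    obtain ⟨y, hy⟩ := exists_ne (0 : LinearMap.range Φ)
    set A := ‖(T : LinearMap.range Φ →L[ℝ]
      EuclideanSpace ℝ (Fin (finrank ℝ (LinearMap.range Φ))))‖
    set B := ‖(T.symm : EuclideanSpace ℝ (Fin (finrank ℝ (LinearMap.range Φ))) →L[ℝ]
      LinearMap.range Φ)‖
    have h1 : ‖T y‖ ≤ A * ‖y‖ := (T : LinearMap.range Φ →L[ℝ]
      EuclideanSpace ℝ (Fin (finrank ℝ (LinearMap.range Φ)))).le_opNorm y
    have h2 : ‖T.symm (T y)‖ ≤ B * ‖T y‖ :=
      (T.symm : EuclideanSpace ℝ (Fin (finrank ℝ (LinearMap.range Φ))) →L[ℝ]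
      LinearMap.range Φ).le_opNorm (T y)
    rw [ContinuousLinearEquiv.symm_apply_apply] at h2
    have h3 : 0 < ‖y‖ := norm_pos_iff.mpr hy
    have h4 : ‖y‖ ≤ B * (A * ‖y‖) :=
      h2.trans (mul_le_mul_of_nonneg_left h1 (norm_nonneg _))
    by_contra hc
    push Not at hc
    have h5 : B * (A * ‖y‖) = (A * B) * ‖y‖ := by ring
    rw [h5] at h4
    nlinarith

/-- the quantitative main step -/
theorem power_step {G : Type*} [NormedAddCommGroup G] [NormedSpace ℝ G]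
    [FiniteDimensional ℝ G] [Nontrivial G] (θ : ℝ) (hθ0 : 0 < θ) (hθ1 : θ < 1) (n M : ℕ)
    (hM : 2 ^ n * (finrank ℝ G + 2) ≤ M) (L : ℝ) (hL : 1 ≤ L) (hd : DistGe G L) :
    ∃ F : Submodule ℝ (PiLp 2 (fun _ : Fin M => G)),
      BasisLe F (cst θ) ∧
      DistGe F (L / Real.sqrt (1 + 4 * L ^ 2 * (1 / (2 * θ ^ 2)) ^ n)) := by
  classical
  set k := finrank ℝ G with hk
  have hk0 : 0 < k := finrank_pos
  -- near optimal isomorphism
  set Sset : Set ℝ := {a | ∃ T : G ≃L[ℝ] EuclideanSpace ℝ (Fin (finrank ℝ G)),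
    a = ‖(T : G →L[ℝ] EuclideanSpace ℝ (Fin (finrank ℝ G)))‖ *
      ‖(T.symm : EuclideanSpace ℝ (Fin (finrank ℝ G)) →L[ℝ] G)‖} with hSset
  have hne : Sset.Nonempty := by
    have T : G ≃L[ℝ] EuclideanSpace ℝ (Fin (finrank ℝ G)) :=
      ContinuousLinearEquiv.ofFinrankEq (by simp)
    exact ⟨_, T, rfl⟩
  have hbdd : ∀ a ∈ Sset, L ≤ a := by
    rintro a ⟨T, rfl⟩
    exact hd T
  set d := sInf Sset with hdd
  have hLd : L ≤ d := le_csInf hne hbdd
  have hd0 : 0 < d := by linarith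
  have hdD : DistGe G d := fun T => csInf_le ⟨L, hbdd⟩ ⟨T, rfl⟩
  obtain ⟨a, ⟨T, rfl⟩, haT⟩ := exists_lt_of_csInf_lt hne (show sInf Sset < 2 * d by linarith)
  set A := ‖(T : G →L[ℝ] EuclideanSpace ℝ (Fin (finrank ℝ G)))‖ with hA
  set B := ‖(T.symm : EuclideanSpace ℝ (Fin (finrank ℝ G)) →L[ℝ] G)‖ with hB
  have hAB : L ≤ A * B := hd T
  have hB0 : 0 < B := by
    by_contra hc
    have : B = 0 := le_antisymm (not_lt.mp hc) (norm_nonneg _)
    rw [this, mul_zero] at hAB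
    linarith
  -- the scaled isomorphism
  set S : EuclideanSpace ℝ (Fin k) ≃L[ℝ] G :=
    (ContinuousLinearEquiv.smulLeft (Units.mk0 (B⁻¹ : ℝ) (by positivity))).trans T.symm with hS
  have hSx : ∀ v, S v = T.symm (B⁻¹ • v) := fun v => rfl
  have hSn : ∀ v, ‖S v‖ ≤ ‖v‖ := by
    intro v
    rw [hSx, map_smul, norm_smul, Real.norm_of_nonneg (by positivity)]
    have := (T.symm : EuclideanSpace ℝ (Fin (finrank ℝ G)) →L[ℝ] G).le_opNorm v
    rw [inv_mul_le_iff₀ hB0]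
    exact this
  have hSs : ∀ x, ‖S.symm x‖ ≤ A * B * ‖x‖ := by
    intro x
    have h1 : S (B • T x) = x := by
      rw [hSx, smul_smul, inv_mul_cancel₀ hB0.ne', one_smul, ContinuousLinearEquiv.symm_apply_apply]
    have h2 : S.symm x = B • T x := by
      rw [ContinuousLinearEquiv.symm_apply_eq, h1]
    rw [h2, norm_smul, Real.norm_of_nonneg hB0.le]
    have := (T : G →L[ℝ] EuclideanSpace ℝ (Fin (finrank ℝ G))).le_opNorm x
    calc B * ‖T x‖ ≤ B * (A * ‖x‖) := mul_le_mul_of_nonneg_left this hB0.le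
      _ = _ := by ring
  obtain ⟨g, hg⟩ := exists_ne (0 : G)
  set g₀ : G := (‖g‖⁻¹ : ℝ) • g with hg₀
  have hg1 : ‖g₀‖ = 1 := by
    rw [hg₀, norm_smul, Real.norm_of_nonneg (by positivity),
      inv_mul_cancel₀ (norm_ne_zero_iff.mpr hg)]
  have hcard : Fintype.card (Idx n k) ≤ Fintype.card (Fin M) := by
    rw [Fintype.card_fin]
    exact (card_Idx n k).trans hM
  obtain ⟨e⟩ := Function.Embedding.nonempty_of_card_le hcard
  set Φ := PhiL θ n k M S g₀ e e.injective with hΦ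
  have hinj : Function.Injective Φ := PhiL_injective θ hθ0 n k M S g₀ hg1 e e.injective
  refine ⟨LinearMap.range Φ, exists_basis_of_cut Φ hinj (cst θ) ?_, ?_⟩
  · intro c t
    exact PhiL_cut θ hθ0 hθ1 n k M hk0 S hSn g₀ hg1 e e.injective c t
  · -- distance
    set ι : G →ₗ[ℝ] LinearMap.range Φ := Φ.rangeRestrict ∘ₗ constL S with hι
    set b₀ : ℝ := ∑ r ∈ range (n + 1), (2 : ℝ) ^ (n - r) * (2 ^ r * θ ^ r) ^ 2 with hb₀
    have hιn : ∀ x, ‖ι x‖ ^ 2 = b₀ * ‖x‖ ^ 2 + 2 ^ n * ‖S.symm x‖ ^ 2 := fun x =>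
      norm_PhiL_const θ hθ0.le n k M S g₀ hg1 e e.injective x
    have hb₀l : (2 * θ) ^ (2 * n) ≤ b₀ := by
      rw [hb₀, Finset.sum_range_succ]
      have h1 : 0 ≤ ∑ r ∈ range n, (2 : ℝ) ^ (n - r) * (2 ^ r * θ ^ r) ^ 2 := by positivity
      have h2 : (2 : ℝ) ^ (n - n) * (2 ^ n * θ ^ n) ^ 2 = (2 * θ) ^ (2 * n) := by
        rw [Nat.sub_self, pow_zero, one_mul, ← mul_pow, ← pow_mul, mul_comm n 2]
      linarith
    have hb₀0 : 0 < b₀ := lt_of_lt_of_le (by positivity) hb₀l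
    set s : ℝ := (1 / (2 * θ ^ 2)) ^ n with hs
    have hs0 : 0 < s := by positivity
    have hsb : (2 : ℝ) ^ n ≤ s * b₀ := by
      have h1 : s * (2 * θ) ^ (2 * n) = 2 ^ n := by
        rw [hs, pow_mul, ← mul_pow]
        congr 1
        field_simp
      rw [← h1]
      exact mul_le_mul_of_nonneg_left hb₀l hs0.le
    have hlow : ∀ x, Real.sqrt b₀ * ‖x‖ ≤ ‖ι x‖ := by
      intro x
      refine le_of_sq_le_sq ?_ (norm_nonneg _)
      rw [mul_pow, Real.sq_sqrt hb₀0.le, hιn]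
      have : (0 : ℝ) ≤ 2 ^ n * ‖S.symm x‖ ^ 2 := by positivity
      linarith
    have hup : ∀ x, ‖ι x‖ ≤ Real.sqrt b₀ * Real.sqrt (1 + 4 * d ^ 2 * s) * ‖x‖ := by
      intro x
      refine le_of_sq_le_sq ?_ (by positivity)
      rw [mul_pow, mul_pow, Real.sq_sqrt hb₀0.le, Real.sq_sqrt (by positivity), hιn]
      have h1 : ‖S.symm x‖ ^ 2 ≤ (2 * d * ‖x‖) ^ 2 := by
        refine pow_le_pow_left₀ (norm_nonneg _) ?_ 2
        refine (hSs x).trans ?_
        exact mul_le_mul_of_nonneg_right haT.le (norm_nonneg _)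
      have h2 : (2 : ℝ) ^ n * ‖S.symm x‖ ^ 2 ≤ (s * b₀) * (2 * d * ‖x‖) ^ 2 :=
        mul_le_mul hsb h1 (by positivity) (by positivity)
      have h3 : b₀ * (1 + 4 * d ^ 2 * s) * ‖x‖ ^ 2 = b₀ * ‖x‖ ^ 2 +
        (s * b₀) * (2 * d * ‖x‖) ^ 2 := by ring
      linarith
    intro T'
    have h1 := dist_lower ι (Real.sqrt b₀) (Real.sqrt b₀ * Real.sqrt (1 + 4 * d ^ 2 * s))
      (Real.sqrt_pos.mpr hb₀0) (by positivity) hlow hup d hdD T'
    set τ := ‖(T' : LinearMap.range Φ →L[ℝ] EuclideanSpace ℝ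
      (Fin (finrank ℝ (LinearMap.range Φ))))‖ *
      ‖(T'.symm : EuclideanSpace ℝ (Fin (finrank ℝ (LinearMap.range Φ))) →L[ℝ]
        LinearMap.range Φ)‖ with hτ
    have hsb0 : 0 < Real.sqrt b₀ := Real.sqrt_pos.mpr hb₀0
    have h2 : d ≤ Real.sqrt (1 + 4 * d ^ 2 * s) * τ := by
      have h3 : Real.sqrt b₀ * d ≤ Real.sqrt b₀ * (Real.sqrt (1 + 4 * d ^ 2 * s) * τ) := by
        linarith
      exact le_of_mul_le_mul_left h3 hsb0
    have h4 : d / Real.sqrt (1 + 4 * d ^ 2 * s) ≤ τ := by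
      rw [div_le_iff₀ (by positivity)]
      linarith
    refine le_trans ?_ h4
    rw [div_le_div_iff₀ (by positivity) (by positivity)]
    refine le_of_sq_le_sq ?_ (by positivity)
    rw [mul_pow, mul_pow, Real.sq_sqrt (by positivity), Real.sq_sqrt (by positivity)]
    have h5 : L ^ 2 ≤ d ^ 2 := pow_le_pow_left₀ (by linarith) hLd 2
    have h6 : d ^ 2 * (1 + 4 * L ^ 2 * s) - L ^ 2 * (1 + 4 * d ^ 2 * s) = d ^ 2 - L ^ 2 := by ring
    linarith

end Run7.h35
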