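import Pool.Agent.Run7.h35.CoreU
import Pool.Agent.Helper590_Face.Auer

set_option autoImplicit false

namespace Run7.h35

open Finset Module

/-- a normalized isomorphism of `ℝ^k` onto a `k`-dimensional space -/
theorem exists_normalized {G : Type*} [NormedAddCommGroup G] [NormedSpace ℝ G]
    [FiniteDimensional ℝ G] {k : ℕ} (hk : finrank ℝ G = k) :
    ∃ J : Eu k ≃ₗ[ℝ] G, (∀ v, ‖v‖ ≤ (k + 1) * ‖J v‖) ∧ ∀ v, ‖J v‖ ≤ (k + 1) * ‖v‖ := by
  have T : (Fin k → ℝ) ≃ₗ[ℝ] G := LinearEquiv.ofFinrankEq _ _ (by simp [hk])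
  have hTc : Continuous (T : (Fin k → ℝ) →ₗ[ℝ] G) := LinearMap.continuous_of_finiteDimensional _
  obtain ⟨g, hg1, hg2, -⟩ := Pool.Agent.Helper590_Face.auerbach (fun t => ‖T t‖)
    (hTc.norm) (fun x y => by
      simp only [map_add]
      exact norm_add_le _ _)
    (fun c x => by
      simp only [map_smul, norm_smul, Real.norm_eq_abs])
    (fun x hx => by
      have : T x = 0 := norm_eq_zero.mp hx
      simpa using this)
  refine ⟨(WithLp.linearEquiv 2 ℝ (Fin k → ℝ)).trans (g.trans T), ?_, ?_⟩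
  · intro v
    have h1 : ‖(v : Fin k → ℝ)‖ ≤ ‖T (g v)‖ := hg1 v
    have h2 : ‖v‖ ≤ (k + 1) * ‖(v : Fin k → ℝ)‖ := by
      refine le_of_sq_le_sq ?_ (by positivity)
      rw [EuclideanSpace.norm_sq_eq]
      have h3 : ∑ i, ‖v i‖ ^ 2 ≤ ∑ i : Fin k, ‖(v : Fin k → ℝ)‖ ^ 2 :=
        Finset.sum_le_sum fun i _ => pow_le_pow_left₀ (norm_nonneg _) (norm_le_pi_norm _ i) 2
      rw [Finset.sum_const, card_univ, Fintype.card_fin, nsmul_eq_mul] at h3
      refine h3.trans ?_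
      rw [mul_pow]
      refine mul_le_mul_of_nonneg_right ?_ (by positivity)
      have : (0 : ℝ) ≤ k := by positivity
      nlinarith
    refine h2.trans ?_
    exact mul_le_mul_of_nonneg_left h1 (by positivity)
  · intro v
    have h1 : ‖T (g v)‖ ≤ k * ‖(v : Fin k → ℝ)‖ := hg2 v
    have h2 : ‖(v : Fin k → ℝ)‖ ≤ ‖v‖ := by
      rw [pi_norm_le_iff_of_nonneg (norm_nonneg _)]
      intro i
      exact PiLp.norm_apply_le v i
    change ‖T (g v)‖ ≤ _
    refine h1.trans ?_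
    have : (0 : ℝ) ≤ k := by positivity
    nlinarith [norm_nonneg v]

/-- norming functionals, uniformly many -/
theorem exists_norming (k : ℕ) : ∃ m : ℕ, ∀ (E : Type) [NormedAddCommGroup E] [NormedSpace ℝ E]
    (J : Eu k →ₗ[ℝ] E), (∀ v, ‖v‖ ≤ (k + 1) * ‖J v‖) → (∀ v, ‖J v‖ ≤ (k + 1) * ‖v‖) →
    ∃ F : Finset (E →L[ℝ] ℝ), F.card ≤ m ∧ (∀ f ∈ F, ‖f‖ ≤ 1) ∧
      ∀ v, v ≠ 0 → ∃ f ∈ F, ‖J v‖ ≤ 2 * |f (J v)| := by
  classical
  set η : ℝ := 1 / (4 * (k + 1) ^ 2) with hη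
  have hη0 : 0 < η := by positivity
  obtain ⟨t, hts, htf, htc⟩ := (isCompact_sphere (0 : Eu k) 1).finite_cover_balls hη0
  refine ⟨htf.toFinset.card, ?_⟩
  intro E _ _ J hlow hup
  choose g hg1 hg2 using fun x : E => exists_dual_vector'' ℝ x
  refine ⟨htf.toFinset.image fun s => g (J s), Finset.card_image_le, ?_, ?_⟩
  · intro f hf
    obtain ⟨s, -, rfl⟩ := Finset.mem_image.mp hf
    exact hg1 _
  · intro v hv
    have hv0 : 0 < ‖v‖ := norm_pos_iff.mpr hv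
    set u := (‖v‖⁻¹ : ℝ) • v with hu
    have hu1 : ‖u‖ = 1 := by
      rw [hu, norm_smul, norm_inv, norm_norm, inv_mul_cancel₀ hv0.ne']
    have hu' : u ∈ Metric.sphere (0 : Eu k) 1 := by simpa using hu1
    obtain ⟨s, hs, hus⟩ := Set.mem_iUnion₂.mp (htc hu')
    rw [Metric.mem_ball, dist_eq_norm] at hus
    refine ⟨g (J s), Finset.mem_image_of_mem _ (htf.mem_toFinset.mpr hs), ?_⟩
    have h1 : ‖J u‖ ≤ 2 * |g (J s) (J u)| := by
      have h2 : ‖J (u - s)‖ ≤ (k + 1) * η :=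
        (hup _).trans (mul_le_mul_of_nonneg_left hus.le (by positivity))
      have h3 : |g (J s) (J (u - s))| ≤ ‖J (u - s)‖ := by
        have := (g (J s)).le_opNorm (J (u - s))
        rw [Real.norm_eq_abs] at this
        refine this.trans ?_
        exact mul_le_of_le_one_left (norm_nonneg _) (hg1 _)
      have h4 : g (J s) (J u) = g (J s) (J (u - s)) + ‖J s‖ := by
        have h5 : g (J s) (J s) = ‖J s‖ := by simpa using hg2 (J s)
        rw [← h5, ← map_add, ← map_add, sub_add_cancel]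
      have h6 : ‖J u‖ ≤ ‖J (u - s)‖ + ‖J s‖ := by
        have : J u = J (u - s) + J s := by rw [← map_add, sub_add_cancel]
        rw [this]
        exact norm_add_le _ _
      have h7 : 1 ≤ (k + 1) * ‖J u‖ := by
        have := hlow u
        rwa [hu1] at this
      have h8 : (k + 1) * η = 1 / (4 * (k + 1)) := by
        rw [hη]; field_simp
      have h9 : 1 / (4 * ((k : ℝ) + 1)) ≤ ‖J u‖ / 4 := by
        rw [div_le_div_iff₀ (by positivity) (by norm_num)]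
        nlinarith
      have h10 : ‖J s‖ - ‖J (u - s)‖ ≤ |g (J s) (J u)| := by
        rw [h4]
        have := neg_abs_le (g (J s) (J (u - s)))
        have h11 := le_abs_self (g (J s) (J (u - s)) + ‖J s‖)
        linarith
      rw [h8] at h2
      linarith
    have h12 : J u = (‖v‖⁻¹ : ℝ) • J v := by rw [hu, map_smul]
    rw [h12, norm_smul, map_smul, smul_eq_mul, abs_mul, Real.norm_eq_abs,
      abs_of_pos (inv_pos.mpr hv0)] at h1
    have h13 : ‖v‖⁻¹ * ‖J v‖ ≤ ‖v‖⁻¹ * (2 * |g (J s) (J v)|) := by linarith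
    exact le_of_mul_le_mul_left h13 (inv_pos.mpr hv0)

/-- selection of well separated far from Euclidean subspaces -/
theorem exists_selection (k : ℕ) (hk : 0 < k) (D : ℝ) (m : ℕ)
    (hm : ∀ (E : Type) [NormedAddCommGroup E] [NormedSpace ℝ E]
    (J : Eu k →ₗ[ℝ] E), (∀ v, ‖v‖ ≤ (k + 1) * ‖J v‖) → (∀ v, ‖J v‖ ≤ (k + 1) * ‖v‖) →
    ∃ F : Finset (E →L[ℝ] ℝ), F.card ≤ m ∧ (∀ f ∈ F, ‖f‖ ≤ 1) ∧
      ∀ v, v ≠ 0 → ∃ f ∈ F, ‖J v‖ ≤ 2 * |f (J v)|)
    (E : Type) [NormedAddCommGroup E] [NormedSpace ℝ E] [FiniteDimensional ℝ E] (N : ℕ)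
    (hE : ∀ Z : Submodule ℝ E, finrank ℝ E ≤ finrank ℝ Z + N →
      ∃ G : Submodule ℝ E, G ≤ Z ∧ finrank ℝ G = k ∧ DistGe G D) (R : ℕ) (hR : R * m ≤ N) :
    ∃ J : ℕ → Eu k →ₗ[ℝ] E, (∀ i v, ‖J i v‖ ≤ (k + 1) * ‖v‖) ∧
      (∀ i < R, ∀ v, ‖v‖ ≤ (k + 1) * ‖J i v‖) ∧
      (∀ i j, i < j → j < R → ∀ v w, ‖J i v‖ ≤ 2 * ‖J i v - J j w‖) ∧
      ∀ i < R, ∀ D₁, EuclLe (fun v => ‖J i v‖) D₁ → D ≤ D₁ := by
  classical
  induction R with
  | zero =>
    refine ⟨fun _ => 0, fun i v => by simp; positivity, fun i hi => by omega,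
      fun i j _ hj => by omega, fun i hi => by omega⟩
  | succ R ih =>
    obtain ⟨J, h1, h2, h3, h4⟩ := ih (le_trans (Nat.mul_le_mul_right m (Nat.le_succ R)) hR)
    have hF : ∀ i : ℕ, ∃ F : Finset (E →L[ℝ] ℝ), i < R → (F.card ≤ m ∧ (∀ f ∈ F, ‖f‖ ≤ 1) ∧
      ∀ v, v ≠ 0 → ∃ f ∈ F, ‖J i v‖ ≤ 2 * |f (J i v)|) := by
      intro i
      by_cases hi : i < R
      · obtain ⟨F, hF⟩ := hm E (J i) (h2 i hi) (h1 i)
        exact ⟨F, fun _ => hF⟩
      · exact ⟨∅, fun h => absurd h hi⟩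
    choose F hF using hF
    set 𝓖 : Finset (E →L[ℝ] ℝ) := (range R).biUnion F with h𝓖
    have hcard : 𝓖.card ≤ R * m := by
      refine (Finset.card_biUnion_le).trans ?_
      refine (Finset.sum_le_card_nsmul _ _ m ?_).trans ?_
      · intro i hi
        exact (hF i (Finset.mem_range.mp hi)).1
      · rw [card_range, smul_eq_mul]
    set P : E →ₗ[ℝ] (𝓖 → ℝ) := LinearMap.pi fun f => (f : E →L[ℝ] ℝ).toLinearMap with hP
    have hcod : finrank ℝ E ≤ finrank ℝ (LinearMap.ker P) + N := by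
      have h5 := LinearMap.finrank_range_add_finrank_ker P
      have h6 : finrank ℝ (LinearMap.range P) ≤ finrank ℝ (𝓖 → ℝ) := Submodule.finrank_le _
      have h7 : finrank ℝ (𝓖 → ℝ) = 𝓖.card := by simp
      have h8 : R * m ≤ (R + 1) * m := Nat.mul_le_mul_right m (Nat.le_succ R)
      omega
    obtain ⟨G, hGZ, hGk, hGD⟩ := hE _ hcod
    obtain ⟨Jn, hJn1, hJn2⟩ := exists_normalized hGk
    set J' : Eu k →ₗ[ℝ] E := G.subtype ∘ₗ (Jn : Eu k →ₗ[ℝ] G) with hJ'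
    have hJ'n : ∀ v, ‖J' v‖ = ‖Jn v‖ := fun v => rfl
    refine ⟨Function.update J R J', ?_, ?_, ?_, ?_⟩
    · intro i v
      by_cases hi : i = R
      · subst hi
        rw [Function.update_self, hJ'n]
        exact hJn2 v
      · rw [Function.update_of_ne hi]
        exact h1 i v
    · intro i hi v
      by_cases hi' : i = R
      · subst hi'
        rw [Function.update_self, hJ'n]
        exact hJn1 v
      · rw [Function.update_of_ne hi']
        exact h2 i (by omega) v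
    · intro i j hij hj v w
      have hi' : i ≠ R := by omega
      rw [Function.update_of_ne hi']
      by_cases hj' : j = R
      · subst hj'
        rw [Function.update_self]
        by_cases hv : v = 0
        · rw [hv, map_zero, norm_zero]; positivity
        · obtain ⟨-, hf1, hf2⟩ := hF i (by omega)
          obtain ⟨f, hf, hfv⟩ := hf2 v hv
          have hzero : f (J' w) = 0 := by
            have h5 : J' w ∈ LinearMap.ker P := hGZ (Jn w).2
            rw [LinearMap.mem_ker] at h5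
            have h6 : f ∈ 𝓖 := Finset.mem_biUnion.mpr ⟨i, Finset.mem_range.mpr hij, hf⟩
            exact congrFun h5 ⟨f, h6⟩
          have h7 : |f (J i v)| ≤ ‖J i v - J' w‖ := by
            have h8 : f (J i v) = f (J i v - J' w) := by rw [map_sub, hzero, sub_zero]
            rw [h8, ← Real.norm_eq_abs]
            refine (f.le_opNorm _).trans ?_
            exact mul_le_of_le_one_left (norm_nonneg _) (hf1 f hf)
          linarith
      · rw [Function.update_of_ne hj']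
        exact h3 i j hij (by omega) v w
    · intro i hi D₁ hD₁
      by_cases hi' : i = R
      · subst hi'
        rw [Function.update_self] at hD₁
        have : Nontrivial G := by
          apply Module.nontrivial_of_finrank_pos (R := ℝ)
          rw [hGk]; exact hk
        refine le_of_distGe_of_euclLe hGD ?_
        have h5 := hD₁.comp (Jn.symm : G →ₗ[ℝ] Eu k)
        refine h5.congr fun x => ?_
        change ‖x‖ = ‖J' (Jn.symm x)‖
        rw [hJ'n, LinearEquiv.apply_symm_apply]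
      · rw [Function.update_of_ne hi'] at hD₁
        exact h4 i (by omega) D₁ hD₁

/-- the abstract system extracted from a finite-dimensional space -/
structure Sys (k : ℕ) (D C₀ D' : ℝ) (R : ℕ) (β : Seminorm ℝ (ℕ →₀ Eu k)) : Prop where
  b1 : ∀ i v, β (Finsupp.lsingle (R := ℝ) i v) ≤ (k + 1) * ‖v‖
  b2 : ∀ i < R, ∀ v, ‖v‖ ≤ (k + 1) * β (Finsupp.lsingle (R := ℝ) i v)
  b3 : ∀ i j, i < j → j < R → ∀ v w : Eu k, β (Finsupp.lsingle (R := ℝ) i v) ≤
    2 * β (Finsupp.lsingle (R := ℝ) i v - Finsupp.lsingle (R := ℝ) j w)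
  b4 : ∀ i < R, ∀ D₁, EuclLe (fun v => β (Finsupp.lsingle (R := ℝ) i v)) D₁ → D ≤ D₁
  b5 : ∀ (s : ℕ) (Φ : (Fin s → ℝ) →ₗ[ℝ] (ℕ →₀ Eu k)), (∀ t, β (Φ t) = 0 → t = 0) →
    (∀ c t, β (Φ (cut c t)) ≤ C₀ * β (Φ t)) → EuclLe (fun t => β (Φ t)) D'

theorem exists_sys (k : ℕ) (hk : 0 < k) (D C₀ D' : ℝ) (m : ℕ)
    (hm : ∀ (E : Type) [NormedAddCommGroup E] [NormedSpace ℝ E]
    (J : Eu k →ₗ[ℝ] E), (∀ v, ‖v‖ ≤ (k + 1) * ‖J v‖) → (∀ v, ‖J v‖ ≤ (k + 1) * ‖v‖) →
    ∃ F : Finset (E →L[ℝ] ℝ), F.card ≤ m ∧ (∀ f ∈ F, ‖f‖ ≤ 1) ∧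
      ∀ v, v ≠ 0 → ∃ f ∈ F, ‖J v‖ ≤ 2 * |f (J v)|)
    (E : Type) [NormedAddCommGroup E] [NormedSpace ℝ E] [FiniteDimensional ℝ E] (R : ℕ)
    (hE : ∀ Z : Submodule ℝ E, finrank ℝ E ≤ finrank ℝ Z + R * m →
      ∃ G : Submodule ℝ E, G ≤ Z ∧ finrank ℝ G = k ∧ DistGe G D)
    (hno : ∀ F : Submodule ℝ E, BasisLe F C₀ → ¬ DistGe F D') :
    ∃ β : Seminorm ℝ (ℕ →₀ Eu k), Sys k D C₀ D' R β := by
  obtain ⟨J, h1, h2, h3, h4⟩ := exists_selection k hk D m hm E (R * m) hE R le_rfl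
  set L : (ℕ →₀ Eu k) →ₗ[ℝ] E := Finsupp.lsum ℝ J with hL
  have hLs : ∀ i v, L (Finsupp.lsingle (R := ℝ) i v) = J i v := by
    intro i v
    simp [hL]
  refine ⟨(normSeminorm ℝ E).comp L, ?_, ?_, ?_, ?_, ?_⟩
  · intro i v
    rw [Seminorm.comp_apply, hLs]
    exact h1 i v
  · intro i hi v
    rw [Seminorm.comp_apply, hLs]
    exact h2 i hi v
  · intro i j hij hj v w
    rw [Seminorm.comp_apply, Seminorm.comp_apply, map_sub, hLs, hLs]
    exact h3 i j hij hj v w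
  · intro i hi D₁ hD₁
    refine h4 i hi D₁ (hD₁.congr fun v => ?_)
    rw [Seminorm.comp_apply, hLs]
    rfl
  · intro s Φ hdef hcut
    set Ψ : (Fin s → ℝ) →ₗ[ℝ] E := L ∘ₗ Φ with hΨ
    have hn : ∀ t, ((normSeminorm ℝ E).comp L) (Φ t) = ‖Ψ t‖ := fun t => rfl
    have hinj : Function.Injective Ψ := by
      rw [← LinearMap.ker_eq_bot, LinearMap.ker_eq_bot']
      intro t ht
      refine hdef t ?_
      rw [hn, ht, norm_zero]
    have hb := exists_basis_of_cut Ψ hinj C₀ (fun c t => hcut c t)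
    have h5 := euclLe_of_not_distGe (hno _ hb)
    have h6 := h5.comp Ψ.rangeRestrict
    exact h6.congr fun t => rfl

end Run7.h35
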